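import Pool.Agent.J4H54.LC.Cayley

set_option autoImplicit false
set_option linter.unusedSectionVars false

/-!
# Every Cayley graph with at least three vertices has a cycle
-/

namespace Pool.Agent.J4H54.LC

variable {G : Type} [Group G]

/-- alternating words -/
def alt (a b : G) : ℕ → List G
  | 0 => []
  | n + 1 => a :: b :: alt a b n

theorem alt_length (a b : G) (n : ℕ) : (alt a b n).length = 2 * n := by
  induction n with
  | zero => rfl
  | succ n ih => rw [alt, List.length_cons, List.length_cons, ih]; ring

theorem alt_mem {a b : G} {n : ℕ} {c : G} (h : c ∈ alt a b n) : c = a ∨ c = b := by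
  induction n with
  | zero => simp [alt] at h
  | succ n ih =>
    rw [alt, List.mem_cons, List.mem_cons] at h
    rcases h with h | h | h
    · exact Or.inl h
    · exact Or.inr h
    · exact ih h

theorem alt_take_even (a b : G) (n : ℕ) : ∀ k, k ≤ n →
    ((alt a b n).take (2 * k)).prod = (a * b) ^ k := by
  induction n with
  | zero =>
    intro k hk
    have : k = 0 := by omega
    subst this
    simp
  | succ n ih =>
    intro k hk
    rcases Nat.eq_zero_or_pos k with h | h
    · rw [h]; simp
    · obtain ⟨j, rfl⟩ : ∃ j, k = j + 1 := ⟨k - 1, by omega⟩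
      rw [alt, show 2 * (j + 1) = 2 * j + 1 + 1 by ring, List.take_succ_cons,
        List.take_succ_cons, List.prod_cons, List.prod_cons, ih j (by omega), pow_succ', mul_assoc]

theorem alt_take_odd (a b : G) (n : ℕ) : ∀ k, k < n →
    ((alt a b n).take (2 * k + 1)).prod = (a * b) ^ k * a := by
  induction n with
  | zero =>
    intro k hk
    omega
  | succ n ih =>
    intro k hk
    rcases Nat.eq_zero_or_pos k with h | h
    · rw [h, alt]; simp
    · obtain ⟨j, rfl⟩ : ∃ j, k = j + 1 := ⟨k - 1, by omega⟩
      rw [alt, show 2 * (j + 1) + 1 = (2 * j + 1) + 1 + 1 by ring, List.take_succ_cons,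
        List.take_succ_cons, List.prod_cons, List.prod_cons, ih j (by omega), pow_succ']
      simp only [mul_assoc]

theorem pow_inj_lt {x : G} {i j : ℕ} (hi : i < orderOf x) (hj : j < orderOf x)
    (h : x ^ i = x ^ j) : i = j := by
  have h1 := pow_inj_mod.1 h
  rwa [Nat.mod_eq_of_lt hi, Nat.mod_eq_of_lt hj] at h1

/-- every Cayley graph with at least three vertices has a cycle -/
theorem exists_cs [Finite G] {A : Set G}
    (hgen : Subgroup.closure A = ⊤) (h3 : 3 ≤ Nat.card G) : ∃ l, CS A l ∧ 3 ≤ l.length := by
  by_cases hord : ∃ a ∈ A, 3 ≤ orderOf a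
  · obtain ⟨a, ha, hn⟩ := hord
    refine ⟨List.replicate (orderOf a) a, ⟨?_, ?_, ?_⟩, by rwa [List.length_replicate]⟩
    · intro b hb
      rw [List.eq_of_mem_replicate hb]
      exact ha
    · intro j k hj hjk hk h
      rw [List.length_replicate] at hk
      rw [List.take_replicate, List.take_replicate, List.prod_replicate, List.prod_replicate,
        min_eq_left hk, min_eq_left (by omega)] at h
      rcases hk.lt_or_eq with h1 | h1
      · have := pow_inj_lt (by omega) h1 h
        omega
      · rw [h1, pow_orderOf_eq_one] at h
        have := orderOf_dvd_of_pow_eq_one h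
        have := Nat.le_of_dvd hj this
        omega
    · rw [List.prod_replicate, pow_orderOf_eq_one]
  · push Not at hord
    have hsq : ∀ a ∈ A, a * a = 1 := by
      intro a ha
      have h1 := hord a ha
      have h2 : 0 < orderOf a := orderOf_pos a
      have h4 : orderOf a ∣ 2 := by
        have h5 : orderOf a = 1 ∨ orderOf a = 2 := by omega
        rcases h5 with h5 | h5 <;> rw [h5]
        norm_num
      have h5 := orderOf_dvd_iff_pow_eq_one.1 h4
      rwa [pow_two] at h5
    obtain ⟨a, ha, ha1⟩ : ∃ a ∈ A, a ≠ 1 := by
      by_contra hcon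
      push Not at hcon
      have h4 : Subgroup.closure A = ⊥ := by
        rw [Subgroup.closure_eq_bot_iff]
        intro x hx
        exact hcon x hx
      rw [hgen] at h4
      have h5 : Nat.card (⊤ : Subgroup G) = Nat.card (⊥ : Subgroup G) := by rw [h4]
      rw [Subgroup.card_bot, Subgroup.card_top] at h5
      omega
    obtain ⟨b, hb, hb1, hba⟩ : ∃ b ∈ A, b ≠ 1 ∧ b ≠ a := by
      by_contra hcon
      push Not at hcon
      have h4 : Subgroup.closure A ≤ Subgroup.zpowers a := by
        rw [Subgroup.closure_le]
        intro x hx
        by_cases h5 : x = 1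
        · rw [h5]
          exact Subgroup.one_mem _
        · rw [hcon x hx h5]
          exact Subgroup.mem_zpowers a
      rw [hgen, top_le_iff] at h4
      have h5 : Nat.card (Subgroup.zpowers a) = Nat.card G := by
        rw [h4, Subgroup.card_top]
      rw [Nat.card_zpowers] at h5
      have := hord a ha
      omega
    have haa := hsq a ha
    have hbb := hsq b hb
    have hainv : a⁻¹ = a := inv_eq_of_mul_eq_one_left haa
    have hbinv : b⁻¹ = b := inv_eq_of_mul_eq_one_left hbb
    set n := orderOf (a * b) with hn
    have hn0 : 0 < n := orderOf_pos _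
    have hab1 : a * b ≠ 1 := by
      intro h
      apply hba
      have := mul_eq_one_iff_eq_inv.1 h
      rw [hbinv] at this
      exact this.symm
    have hn1 : n ≠ 1 := fun h => hab1 (orderOf_eq_one_iff.1 h)
    -- `a` is not a power of `a * b`
    have hnot : ∀ k : ℕ, (a * b) ^ k ≠ a := by
      intro k hk
      have h4 : a * (a * b) = (a * b) * a := by
        have hcm : Commute ((a * b) ^ k) (a * b) := (Commute.refl (a * b)).pow_left k
        rw [hk] at hcm
        exact hcm
      have h5 : b = a * b * a := by
        rw [← h4, ← mul_assoc, haa, one_mul]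
      have h6 : (a * b) ^ 2 = 1 := by
        rw [pow_two]
        calc a * b * (a * b) = (a * b * a) * b := by group
          _ = b * b := by rw [← h5]
          _ = 1 := hbb
      have h7 : (a * b) ^ k = (a * b) ^ (k % 2) := by
        conv_lhs => rw [← Nat.mod_add_div k 2, pow_add, pow_mul, h6, one_pow, mul_one]
      rw [h7] at hk
      have h8 := Nat.mod_lt k (by norm_num : 2 > 0)
      interval_cases h9 : k % 2
      · rw [pow_zero] at hk
        exact ha1 hk.symm
      · rw [pow_one] at hk
        apply hb1
        have h10 : a * b = a * 1 := by rw [hk, mul_one]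
        exact mul_left_cancel h10
    refine ⟨alt a b n, ⟨?_, ?_, ?_⟩, ?_⟩
    · intro c hc
      rcases alt_mem hc with h | h
      · rwa [h]
      · rwa [h]
    · intro j k hj hjk hk h
      rw [alt_length] at hk
      -- write `j` and `k` by parity
      have hmix : ∀ i i' : ℕ, (a * b) ^ i = (a * b) ^ i' * a → False := by
        intro i i' h4
        have h5 : (a * b) ^ (n - i' % n + i) = a := by
          have h6 : (a * b) ^ i' * (a * b) ^ (n - i' % n) = 1 := by
            have e1 : (a * b) ^ i' = (a * b) ^ (i' % n) := (pow_mod_orderOf _ _).symm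
            rw [e1, ← pow_add]
            have h7 := Nat.mod_lt i' hn0
            rw [Nat.add_sub_cancel' h7.le, hn, pow_orderOf_eq_one]
          have h7 : (a * b) ^ (n - i' % n) = ((a * b) ^ i')⁻¹ := (inv_eq_of_mul_eq_one_right h6).symm
          rw [pow_add, h7, h4, inv_mul_cancel_left]
        exact hnot _ h5
      rcases Nat.even_or_odd' j with ⟨i, h4 | h4⟩ <;> rcases Nat.even_or_odd' k with ⟨i', h5 | h5⟩
      · rw [h4, h5, alt_take_even a b n i (by omega), alt_take_even a b n i' (by omega)] at h
        rcases (show i' < n ∨ i' = n by omega) with h6 | h6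
        · have := pow_inj_lt (by omega) (by omega) h
          omega
        · rw [h6, hn, pow_orderOf_eq_one] at h
          have := orderOf_dvd_of_pow_eq_one h
          have := Nat.le_of_dvd (by omega) this
          omega
      · rw [h4, h5, alt_take_even a b n i (by omega), alt_take_odd a b n i' (by omega)] at h
        exact hmix _ _ h
      · rw [h4, h5, alt_take_odd a b n i (by omega), alt_take_even a b n i' (by omega)] at h
        exact hmix _ _ h.symm
      · rw [h4, h5, alt_take_odd a b n i (by omega), alt_take_odd a b n i' (by omega)] at h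
        have := pow_inj_lt (by omega) (by omega) (mul_right_cancel h)
        omega
    · have h4 := alt_take_even a b n n le_rfl
      rw [← alt_length a b n, List.take_length, hn, pow_orderOf_eq_one] at h4
      exact h4
    · rw [alt_length]
      omega

end Pool.Agent.J4H54.LC
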