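import Pool.Agent.J4H54.LC.Uni
import Pool.Agent.J4H54.LC.Alt
import Pool.Agent.J4H54.GR.Finitary
import Pool.Agent.Results.MP_688fd0_co.NearLinearCycles

set_option autoImplicit false
set_option linter.unusedSectionVars false

/-!
# Near-linear cycles in all Cayley graphs of finite groups
-/

namespace Pool.Agent.J4H54.LC

open Pool.Agent.J4H54.GR Pool.Agent.J4H54.DL
open Pool.Agent.Results.MP_688fd0_co.NearLinearCycles (ball quantitative)
open scoped Pointwise commutatorElement

theorem one_le_expf (x : ℝ) : 1 ≤ Real.exp (600 * √x) := Real.one_le_exp (by positivity)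

theorem exists_gen {G : Type} [Group G] [Finite G] (A : Set G) (k : ℕ) (h : A.ncard ≤ k) :
    ∃ x : Fin k → G, A ⊆ Set.range x ∧ Set.range x ⊆ insert 1 A := by
  classical
  have hf : Finite A := Set.toFinite A
  obtain ⟨e⟩ : Nonempty (A ≃ Fin A.ncard) := ⟨Finite.equivFinOfCardEq (Nat.card_coe_set_eq A)⟩
  refine ⟨fun i => if hi : (i : ℕ) < A.ncard then (e.symm ⟨i, hi⟩ : G) else 1, ?_, ?_⟩
  · intro a ha
    refine ⟨⟨(e ⟨a, ha⟩ : ℕ), (e ⟨a, ha⟩).2.trans_le h⟩, ?_⟩
    simp
  · rintro _ ⟨i, rfl⟩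
    simp only
    split_ifs with hi
    · right
      exact (e.symm ⟨i, hi⟩).2
    · left
      rfl

theorem ball_pow {G : Type} [Group G] (A : Set G) (r : ℕ) : ball A r = (insert 1 A) ^ r := by
  induction r with
  | zero => rw [ball, pow_zero, Set.singleton_one]
  | succ r ih =>
    rw [ball, ih, pow_succ]
    ext x
    rw [Set.mem_mul]
    constructor
    · rintro (h | ⟨y, hy, a, ha, rfl⟩)
      · exact ⟨x, h, 1, Or.inl rfl, mul_one x⟩
      · exact ⟨y, hy, a, Or.inr ha, rfl⟩
    · rintro ⟨y, hy, a, rfl | ha, rfl⟩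
      · left; rwa [mul_one]
      · right; exact ⟨y, hy, a, ha, rfl⟩

/-- all finite groups, first form -/
theorem all_one : ∃ K : ℝ, 1 ≤ K ∧ ∀ (G : Type) [Group G] [Finite G] (A : Set G),
    (∀ a ∈ A, a⁻¹ ∈ A) → Subgroup.closure A = ⊤ → 3 ≤ Nat.card G →
    ∃ l, CS A l ∧ 3 ≤ l.length ∧
      (Nat.card G : ℝ) ≤ K * Real.exp (600 * √(Real.log (Nat.card G))) * l.length := by
  obtain ⟨R, m, e, hfin⟩ := finitary (10 ^ 40) 5 (10 ^ 40)
  set K : ℝ := 2 * (R + 1 : ℝ) ^ 4 + (m.factorial : ℝ) * 32 ^ e + 32 ^ (e + 1) with hK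
  have hK1 : 2 * (R + 1 : ℝ) ^ 4 ≤ K := by
    rw [hK]
    have : (0 : ℝ) ≤ (m.factorial : ℝ) * 32 ^ e := by positivity
    have : (0 : ℝ) ≤ 32 ^ (e + 1) := by positivity
    linarith
  have hK2 : (m.factorial : ℝ) * 32 ^ e ≤ K := by
    rw [hK]
    have : (0 : ℝ) ≤ 2 * (R + 1 : ℝ) ^ 4 := by positivity
    have : (0 : ℝ) ≤ 32 ^ (e + 1) := by positivity
    linarith
  have hK3 : (32 : ℝ) ^ (e + 1) ≤ K := by
    rw [hK]
    have : (0 : ℝ) ≤ 2 * (R + 1 : ℝ) ^ 4 := by positivity
    have : (0 : ℝ) ≤ (m.factorial : ℝ) * 32 ^ e := by positivity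
    linarith
  have hK0 : 1 ≤ K := (one_le_pow₀ (by norm_num : (1 : ℝ) ≤ 32)).trans hK3
  refine ⟨K, hK0, ?_⟩
  intro G _ _ A hinv hgen h3
  set E := Real.exp (600 * √(Real.log (Nat.card G))) with hE
  have hE1 : 1 ≤ E := one_le_expf _
  by_cases hball : ∃ r, 1 ≤ r ∧ r ≤ R + 1 ∧ 10 ^ 40 * r ^ 5 ≤ (ball A r).ncard
  · obtain ⟨r, hr1, hrR, hr⟩ := hball
    obtain ⟨l, hl, hlen⟩ := quantitative A hinv hgen r hr1 hr
    have hrR' : (r : ℝ) ^ 4 ≤ (R + 1 : ℝ) ^ 4 := by
      apply pow_le_pow_left₀ (Nat.cast_nonneg r)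
      exact_mod_cast hrR
    by_cases hl3 : 3 ≤ l.length
    · refine ⟨l, ⟨hl.mem, hl.distinct, hl.closed⟩, hl3, hlen.trans ?_⟩
      calc (l.length : ℝ) * (r ^ 4 * E) ≤ l.length * ((R + 1 : ℝ) ^ 4 * E) := by gcongr
        _ ≤ l.length * (K * E) := by
          gcongr
          have : (0 : ℝ) ≤ (R + 1 : ℝ) ^ 4 := by positivity
          linarith
        _ = K * E * l.length := by ring
    · obtain ⟨l', h4, h5⟩ := exists_cs (A := A) hgen h3
      refine ⟨l', h4, h5, hlen.trans ?_⟩
      have h6 : (l.length : ℝ) ≤ 2 := by exact_mod_cast (by omega : l.length ≤ 2)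
      have h7 : (1 : ℝ) ≤ l'.length := by exact_mod_cast (by omega : 1 ≤ l'.length)
      calc (l.length : ℝ) * (r ^ 4 * E) ≤ 2 * ((R + 1 : ℝ) ^ 4 * E) := by gcongr
        _ = (2 * (R + 1 : ℝ) ^ 4) * E := by ring
        _ ≤ K * E := by gcongr
        _ = K * E * 1 := by ring
        _ ≤ K * E * l'.length := by gcongr
  · push Not at hball
    -- slow growth
    have hA : A.ncard ≤ 10 ^ 40 := by
      have h4 := hball 1 le_rfl (by omega)
      have h5 : A ⊆ ball A 1 := by
        intro a ha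
        right
        exact ⟨1, rfl, a, ha, (one_mul a).symm⟩
      have h6 := Set.ncard_le_ncard h5 (Set.toFinite _)
      rw [one_pow, mul_one] at h4
      exact h6.trans h4.le
    obtain ⟨x, hx1, hx2⟩ := exists_gen A (10 ^ 40) hA
    have hxgen : Subgroup.closure (Set.range x) = ⊤ := by
      rw [eq_top_iff, ← hgen]
      exact Subgroup.closure_mono hx1
    have hsy : sy x ⊆ insert 1 A := by
      rintro g (h | ⟨j, h | h⟩)
      · left; exact h
      · rw [h]; exact hx2 ⟨j, rfl⟩
      · rw [h]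
        rcases hx2 ⟨j, rfl⟩ with h7 | h7
        · left; rw [h7, inv_one]
        · right; exact hinv _ h7
    have hVS := hfin G x hxgen (fun n hn hnR => by
      have h4 := hball n hn (by omega)
      rw [ball_pow] at h4
      refine (Set.ncard_le_ncard (Set.pow_subset_pow_left hsy) (Set.toFinite _)).trans h4.le)
    obtain ⟨M, -, hM0, hMm, hMe⟩ := hVS
    rw [Subgroup.relIndex_top_right] at hM0 hMm
    -- the normal core
    set N := M.normalCore with hN
    have hNM : N ≤ M := M.normalCore_le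
    have hNe : derivedSeries N e = ⊥ := by
      have h4 : ds N e = ⊥ := le_bot_iff.1 (hMe ▸ ds_mono hNM e)
      rw [ds_eq_map] at h4
      exact (Subgroup.map_eq_bot_iff_of_injective _ N.subtype_injective).1 h4
    have hNi : Nat.card (G ⧸ N) ≤ m.factorial := by
      have h4 : N = (MulAction.toPermHom G (G ⧸ M)).ker := M.normalCore_eq_ker
      have h5 : Nat.card (G ⧸ N) = Nat.card (MulAction.toPermHom G (G ⧸ M)).range := by
        rw [← Subgroup.index_ker, ← h4]
        rfl
      rw [h5]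
      refine (Nat.card_le_card_of_injective (Subtype.val :
        (MulAction.toPermHom G (G ⧸ M)).range → _) Subtype.val_injective).trans ?_
      rw [Nat.card_perm]
      exact Nat.factorial_le hMm
    have hcard : Nat.card G = Nat.card (G ⧸ N) * Nat.card N :=
      Subgroup.card_eq_card_quotient_mul_card_subgroup N
    by_cases hq : 3 ≤ Nat.card (G ⧸ N)
    · obtain ⟨l₁, h4, h5⟩ := exists_cs (A := (QuotientGroup.mk : G → G ⧸ N) '' A)
        (gen_image hgen (QuotientGroup.mk' N) (QuotientGroup.mk'_surjective N)) hq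
      obtain ⟨l, h6, h7, h8⟩ := lift' e G A hinv hgen N hNe l₁ h4 h5
      refine ⟨l, h6, h7, ?_⟩
      have h9 : Nat.card G ≤ m.factorial * 32 ^ e * l.length := by
        calc Nat.card G = Nat.card (G ⧸ N) * Nat.card N := hcard
          _ ≤ m.factorial * (l₁.length * Nat.card N) :=
            Nat.mul_le_mul hNi (Nat.le_mul_of_pos_left _ (by omega))
          _ ≤ m.factorial * (32 ^ e * l.length) := Nat.mul_le_mul_left _ h8
          _ = m.factorial * 32 ^ e * l.length := by ring
      calc (Nat.card G : ℝ) ≤ (m.factorial : ℝ) * 32 ^ e * l.length := by exact_mod_cast h9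
        _ = (m.factorial : ℝ) * 32 ^ e * 1 * l.length := by ring
        _ ≤ K * E * l.length := by gcongr
    · -- the quotient is abelian, the group solvable
      have h4 : ds (⊤ : Subgroup G) (1 + e) = ⊥ := by
        refine ds_comp (K := N) ?_ ?_
        · show ⁅(⊤ : Subgroup G), ⊤⁆ ≤ N
          rw [Subgroup.commutator_le]
          intro a _ b _
          have h5 : Nat.card (G ⧸ N) = 1 ∨ Nat.card (G ⧸ N) = 2 := by
            have : 0 < Nat.card (G ⧸ N) := Nat.card_pos
            omega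
          have h6 : (QuotientGroup.mk a : G ⧸ N) * QuotientGroup.mk b =
              QuotientGroup.mk b * QuotientGroup.mk a := by
            rcases h5 with h5 | h5
            · have : Subsingleton (G ⧸ N) := (Nat.card_eq_one_iff_unique.1 h5).1
              exact Subsingleton.elim _ _
            · have : Fact (Nat.Prime 2) := ⟨Nat.prime_two⟩
              have : IsCyclic (G ⧸ N) := isCyclic_of_prime_card h5
              exact (IsCyclic.isMulCommutative (α := G ⧸ N)).is_comm.comm _ _
          apply (QuotientGroup.eq_one_iff (N := N) _).1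
          show QuotientGroup.mk' N ⁅a, b⁆ = 1
          rw [map_commutatorElement, commutatorElement_eq_one_iff_mul_comm]
          exact h6
        · exact le_bot_iff.1 (hMe ▸ ds_mono hNM e)
      rw [ds_top, Nat.add_comm] at h4
      obtain ⟨l, h6, h7, h8⟩ := solv' (e + 1) G A hinv hgen h4 h3
      refine ⟨l, h6, h7, ?_⟩
      calc (Nat.card G : ℝ) ≤ (32 : ℝ) ^ (e + 1) * l.length := by exact_mod_cast h8
        _ = (32 : ℝ) ^ (e + 1) * 1 * l.length := by ring
        _ ≤ K * E * l.length := by gcongr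

end Pool.Agent.J4H54.LC
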