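import Pool.Agent.J4H54.LC.All

set_option autoImplicit false
set_option linter.unusedSectionVars false

/-!
# All finite groups, with the solvable radical taken into account
-/

namespace Pool.Agent.J4H54.LC

open Pool.Agent.J4H54.DL
open scoped commutatorElement

universe u

theorem numeric_two {M N k : ℕ} (hM : 1 ≤ M) (hN1 : 1 ≤ N) (hN : N ≤ 2 * M) :
    (1 + Real.log N) ^ k ≤ 2 ^ k * (1 + Real.log M) ^ k := by
  have hM' : (1 : ℝ) ≤ M := by exact_mod_cast hM
  have hN' : (1 : ℝ) ≤ N := by exact_mod_cast hN1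
  have h0 : 0 ≤ Real.log M := Real.log_nonneg hM'
  have h0' : 0 ≤ Real.log N := Real.log_nonneg hN'
  rw [← mul_pow]
  apply pow_le_pow_left₀ (by linarith)
  have h1 : Real.log N ≤ Real.log (2 * M) := by
    apply Real.log_le_log (by linarith)
    exact_mod_cast hN
  rw [Real.log_mul (by norm_num) (by linarith)] at h1
  have h2 : Real.log 2 ≤ 1 := by
    have := Real.log_two_lt_d9
    linarith
  linarith

/-- all finite groups, second form -/
theorem all_two : ∃ K : ℝ, 1 ≤ K ∧ ∀ (G : Type) [Group G] [Finite G] (A : Set G),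
    (∀ a ∈ A, a⁻¹ ∈ A) → Subgroup.closure A = ⊤ → 3 ≤ Nat.card G →
    ∀ (R : Subgroup G) [R.Normal] [Group.IsSolvable R],
    ∃ l, CS A l ∧ 3 ≤ l.length ∧
      (Nat.card G : ℝ) ≤ K * (1 + Real.log (Nat.card R)) ^ 1465 *
        Real.exp (600 * √(Real.log (Nat.card (G ⧸ R)))) * l.length := by
  obtain ⟨K, hK, hall⟩ := all_one
  obtain ⟨c1, hc1⟩ : ∃ c : ℝ, c = 2 ^ 1480 := ⟨_, rfl⟩
  have h1c1 : 1 ≤ c1 := by
    rw [hc1]
    exact one_le_pow₀ one_le_two
  obtain ⟨k, hk⟩ : ∃ k : ℕ, k = 1465 := ⟨_, rfl⟩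
  obtain ⟨c2, hc2⟩ : ∃ c : ℝ, c = 2 ^ k := ⟨_, rfl⟩
  have h1c2 : 1 ≤ c2 := by
    rw [hc2]
    exact one_le_pow₀ one_le_two
  refine ⟨K * c1 * c2, one_le_mul_of_one_le_of_one_le
    (one_le_mul_of_one_le_of_one_le hK h1c1) h1c2, ?_⟩
  intro G _ _ A hinv hgen h3 R _ _
  rw [← hk]
  have hR1 : 1 ≤ Nat.card R := Nat.card_pos
  have hcard : Nat.card G = Nat.card (G ⧸ R) * Nat.card R :=
    Subgroup.card_eq_card_quotient_mul_card_subgroup R
  have hlogR : 0 ≤ Real.log (Nat.card R) := Real.log_nonneg (by exact_mod_cast hR1)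
  obtain ⟨P, hP⟩ : ∃ P : ℝ, P = (1 + Real.log (Nat.card R)) ^ k := ⟨_, rfl⟩
  have hP0 : 0 ≤ P := by
    rw [hP]
    exact pow_nonneg (by linarith) _
  obtain ⟨E, hE⟩ : ∃ E : ℝ, E = Real.exp (600 * √(Real.log (Nat.card (G ⧸ R)))) := ⟨_, rfl⟩
  have hE1 : 1 ≤ E := by
    rw [hE]
    exact one_le_expf _
  have hE0 : 0 ≤ E := by linarith
  have hK0 : 0 ≤ K := by linarith
  have hc10 : 0 ≤ c1 := zero_le_one.trans h1c1
  have hc20 : 0 ≤ c2 := zero_le_one.trans h1c2
  rw [← hP, ← hE]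
  by_cases hq : 3 ≤ Nat.card (G ⧸ R)
  · obtain ⟨m, h4, h5, h6⟩ := hall (G ⧸ R) ((QuotientGroup.mk : G → G ⧸ R) '' A)
      (inv_image hinv (QuotientGroup.mk' R))
      (gen_image hgen (QuotientGroup.mk' R) (QuotientGroup.mk'_surjective R)) hq
    obtain ⟨n, ⟨l, h7, h8, rfl⟩, -, h9⟩ := both_bounds R
      (N := m.length * Nat.card R)
      (p := fun n => ∃ l : List G, CS A l ∧ 3 ≤ l.length ∧ l.length = n)
      (fun d hd => by
        obtain ⟨l, h1, h2, h3⟩ := lift' d G A hinv hgen R hd m h4 h5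
        exact ⟨l.length, ⟨l, h1, h2, rfl⟩, h3⟩)
    refine ⟨l, h7, h8, ?_⟩
    push_cast at h9
    rw [← hc1, ← hk, ← hP] at h9
    rw [← hE] at h6
    have hl0 : (0 : ℝ) ≤ l.length := Nat.cast_nonneg _
    have hR0 : (0 : ℝ) ≤ Nat.card R := Nat.cast_nonneg _
    have h12 : (0 : ℝ) ≤ K * E := mul_nonneg hK0 hE0
    have h13 : (Nat.card G : ℝ) = Nat.card (G ⧸ R) * Nat.card R := by
      rw [hcard]; push_cast; rfl
    have h14 : (0 : ℝ) ≤ K * c1 * P * E * l.length := by positivity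
    generalize (Nat.card G : ℝ) = g at h13 ⊢
    generalize (Nat.card (G ⧸ R) : ℝ) = q at h6 h13
    generalize (Nat.card R : ℝ) = r at h9 h13 hR0
    generalize (m.length : ℝ) = mm at h6 h9
    generalize (l.length : ℝ) = ll at h9 hl0 h14 ⊢
    clear hall hcard hP hE hc1 hc2
    calc g = q * r := h13
      _ ≤ (K * E * mm) * r := mul_le_mul_of_nonneg_right h6 hR0
      _ = K * E * (mm * r) := by ring
      _ ≤ K * E * (c1 * P * ll) := mul_le_mul_of_nonneg_left h9 h12
      _ = (K * c1 * P * E * ll) * 1 := by ring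
      _ ≤ (K * c1 * P * E * ll) * c2 := mul_le_mul_of_nonneg_left h1c2 h14
      _ = (K * c1 * c2) * P * E * ll := by ring
  · have hS : Group.IsSolvable G := by
      have hQ : Group.IsSolvable (G ⧸ R) := by
        apply Group.isSolvable_of_comm
        intro a b
        have h5 : Nat.card (G ⧸ R) = 1 ∨ Nat.card (G ⧸ R) = 2 := by
          have : 0 < Nat.card (G ⧸ R) := Nat.card_pos
          omega
        rcases h5 with h5 | h5
        · have : Subsingleton (G ⧸ R) := (Nat.card_eq_one_iff_unique.1 h5).1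
          exact Subsingleton.elim _ _
        · have : Fact (Nat.Prime 2) := ⟨Nat.prime_two⟩
          have : IsCyclic (G ⧸ R) := isCyclic_of_prime_card h5
          exact (IsCyclic.isMulCommutative (α := G ⧸ R)).is_comm.comm _ _
      exact Group.isSolvable_of_ker_le_range R.subtype (QuotientGroup.mk' R) (by
        rw [QuotientGroup.ker_mk', Subgroup.range_subtype])
    obtain ⟨n, ⟨l, h7, h8, rfl⟩, -, h9⟩ := both_bounds G
      (N := Nat.card G)
      (p := fun n => ∃ l : List G, CS A l ∧ 3 ≤ l.length ∧ l.length = n)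
      (fun d hd => by
        obtain ⟨l, h1, h2, h3⟩ := solv' d G A hinv hgen hd h3
        exact ⟨l.length, ⟨l, h1, h2, rfl⟩, h3⟩)
    refine ⟨l, h7, h8, ?_⟩
    have h10 : Nat.card G ≤ 2 * Nat.card R := by
      rw [hcard]
      exact Nat.mul_le_mul_right _ (by omega)
    have h11 := numeric_two (k := k) hR1 (by omega : 1 ≤ Nat.card G) h10
    rw [← hc1, ← hk] at h9
    rw [← hc2, ← hP] at h11
    have hl0 : (0 : ℝ) ≤ l.length := Nat.cast_nonneg _
    generalize (1 + Real.log (Nat.card G)) ^ k = g1 at h9 h11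
    generalize (Nat.card G : ℝ) = g at h9 ⊢
    generalize (l.length : ℝ) = ll at h9 hl0 ⊢
    clear hall hcard hP hE hc1 hc2
    have h14 : (0 : ℝ) ≤ c1 * c2 * P * ll := by positivity
    have hKE : 1 ≤ K * E := one_le_mul_of_one_le_of_one_le hK hE1
    calc g ≤ c1 * g1 * ll := h9
      _ ≤ c1 * (c2 * P) * ll :=
        mul_le_mul_of_nonneg_right (mul_le_mul_of_nonneg_left h11 hc10) hl0
      _ = (c1 * c2 * P * ll) * 1 := by ring
      _ ≤ (c1 * c2 * P * ll) * (K * E) := mul_le_mul_of_nonneg_left hKE h14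
      _ = (K * c1 * c2) * P * E * ll := by ring

/-- all finite groups in all universes -/
theorem all_uni : ∃ K : ℝ, 1 ≤ K ∧ ∀ (G : Type u) [Group G] [Finite G] (A : Set G),
    (∀ a ∈ A, a⁻¹ ∈ A) → Subgroup.closure A = ⊤ → 3 ≤ Nat.card G →
    ∀ (R : Subgroup G) [R.Normal] [Group.IsSolvable R],
    ∃ l, CS A l ∧ 3 ≤ l.length ∧
      (Nat.card G : ℝ) ≤ K * (1 + Real.log (Nat.card R)) ^ 1465 *
        Real.exp (600 * √(Real.log (Nat.card (G ⧸ R)))) * l.length := by
  obtain ⟨K, hK, hall⟩ := all_two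
  refine ⟨K, hK, ?_⟩
  intro G _ _ A hinv hgen h3 R _ hRs
  obtain ⟨H, iH, fH, ⟨e⟩⟩ := exists_copy G
  have hc : Nat.card G = Nat.card H := Nat.card_congr e.toEquiv
  let R' : Subgroup H := R.map e.toMonoidHom
  have hR'n : R'.Normal := Subgroup.Normal.map inferInstance _ e.surjective
  let er : R ≃* R' := R.equivMapOfInjective e.toMonoidHom e.injective
  have hR's : Group.IsSolvable R' := Group.isSolvable_of_surjective (f := er.toMonoidHom)
    er.surjective
  have hRc : Nat.card R = Nat.card R' := Nat.card_congr er.toEquiv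
  have hQc : Nat.card (G ⧸ R) = Nat.card (H ⧸ R') := by
    have h4 := Subgroup.card_eq_card_quotient_mul_card_subgroup R
    have h5 := Subgroup.card_eq_card_quotient_mul_card_subgroup R'
    rw [← hc, h4, ← hRc] at h5
    exact Nat.eq_of_mul_eq_mul_right Nat.card_pos h5
  obtain ⟨l, h4, h5, h6⟩ := hall H (e '' A) (inv_image hinv e.toMonoidHom)
    (gen_image hgen e.toMonoidHom e.surjective) (by rw [← hc]; exact h3) R'
  refine ⟨l.map e.symm, back e h4, by rwa [List.length_map], ?_⟩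
  rw [List.length_map, hc, hRc, hQc]
  exact h6

end Pool.Agent.J4H54.LC
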