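import Pool.Agent.J4H54.LC.Ladder

set_option autoImplicit false
set_option linter.unusedSectionVars false
set_option linter.unusedVariables false

/-!
# Closed words with many good transitions: two generators
-/

namespace Pool.Agent.J4H54.LC

open List

section

variable {V : Type} [AddCommGroup V] [Finite V] {E : Type*} (val : E → V) (Gd : E → E → Prop)

/-- four connections with values `a`, `-a`, `b`, `-b`, any transition between the two pairs being
good -/
structure Four (val : E → V) (Gd : E → E → Prop) (R R' U D : E) : Prop where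
  r : val R' = -val R
  d : val D = -val U
  g1 : Gd U R
  g2 : Gd R D
  g3 : Gd D R
  g4 : Gd R U

variable {val Gd} {R R' U D : E}

theorem Four.words (hF : Four val Gd R R' U D) {K : AddSubgroup V}
    (hK : K = AddSubgroup.closure {val R, val U}) (k : V) (hk : k ∈ K) :
    ∃ τ : List E, Kp val K τ ∧ sm val τ = k := by
  have hRU : val R ∈ K ∧ val U ∈ K := by
    rw [hK]
    exact ⟨AddSubgroup.subset_closure (by simp), AddSubgroup.subset_closure (by simp)⟩
  have h1 : k ∈ AddSubgroup.closure (val '' ({R, R', U, D} : Set E)) := by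
    rw [hK] at hk
    refine AddSubgroup.closure_mono ?_ hk
    intro x hx
    rcases hx with rfl | hx
    · exact ⟨R, by simp, rfl⟩
    · rw [Set.mem_singleton_iff] at hx
      exact ⟨U, by simp, hx.symm⟩
  obtain ⟨w, h2, h3, h4⟩ := exists_path_word val ({R, R', U, D} : Set E) (by
    intro c hc
    simp only [Set.mem_insert_iff, Set.mem_singleton_iff] at hc
    rcases hc with rfl | rfl | rfl | rfl
    · exact ⟨R', by simp, hF.r⟩
    · exact ⟨R, by simp, by rw [hF.r, neg_neg]⟩
    · exact ⟨D, by simp, hF.d⟩
    · exact ⟨U, by simp, by rw [hF.d, neg_neg]⟩) h1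
  refine ⟨w, ⟨?_, h3⟩, h4⟩
  intro c hc
  have := h2 c hc
  simp only [Set.mem_insert_iff, Set.mem_singleton_iff] at this
  rcases this with rfl | rfl | rfl | rfl
  · exact hRU.1
  · rw [hF.r]; exact K.neg_mem hRU.1
  · exact hRU.2
  · rw [hF.d]; exact K.neg_mem hRU.2

/-- a word in the letters `R`, `U`, `D` lies in `K` -/
theorem Four.lad_in (hF : Four val Gd R R' U D) {K : AddSubgroup V}
    (hR : val R ∈ K) (hU : val U ∈ K) : ∀ p, ∀ c ∈ lad R U D p, val c ∈ K := by
  have hD : val D ∈ K := by rw [hF.d]; exact K.neg_mem hU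
  intro p
  have key : ∀ c ∈ lad R U D p, c = R ∨ c = U ∨ c = D := by
    induction p using Nat.strong_induction_on with
    | _ p ih =>
      match p with
      | 0 => intro c hc; simp [lad] at hc
      | 1 => intro c hc; simp [lad] at hc; tauto
      | 2 => intro c hc; simp [lad] at hc; tauto
      | (q + 3) =>
        intro c hc
        rw [lad] at hc
        simp only [List.mem_cons] at hc
        rcases hc with h | h | h | h | h
        · tauto
        · tauto
        · tauto
        · tauto
        · exact ih (q + 1) (by omega) c h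
  intro c hc
  rcases key c hc with rfl | rfl | rfl
  · exact hR
  · exact hU
  · exact hD

theorem stack_in {K : AddSubgroup V} {B : List E} {c : E} (hB : ∀ d ∈ B, val d ∈ K)
    (hc : val c ∈ K) (t : ℕ) {w : List E} (hw : ∀ d ∈ w, val d ∈ K) :
    ∀ d ∈ (List.replicate t (B ++ [c])).flatten ++ w, val d ∈ K := by
  intro d hd
  rcases List.mem_append.1 hd with hd | hd
  · rw [List.mem_flatten] at hd
    obtain ⟨l, hl, hd⟩ := hd
    rw [List.eq_of_mem_replicate hl] at hd
    rcases List.mem_append.1 hd with hd | hd
    · exact hB d hd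
    · rw [List.mem_singleton] at hd
      rw [hd]
      exact hc
  · exact hw d hd

/-! ### the helical case -/

/-- the helical case: `b = k a` with `2 ≤ k` and `2 k ≤ n` -/
theorem helix (hF : Four val Gd R R' U D)
    (hgen : AddSubgroup.closure (Set.range val) = ⊤) (hsym : ∀ e, ∃ e', val e' = -val e)
    {k : ℕ} (hk : 2 ≤ k) (hkn : 2 * k ≤ addOrderOf (val R)) (hU : val U = k • val R) :
    Out val Gd := by
  set n := addOrderOf (val R) with hn
  set a := val R with ha
  obtain ⟨p, hp⟩ : ∃ p, k = p + 1 := ⟨k - 1, by omega⟩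
  have hinjn : ∀ i j, i < n → j < n → i • a = j • a → i = j := by
    intro i j hi hj h
    exact nsmul_injOn_Iio_addOrderOf (show i < _ from hi) (show j < _ from hj) h
  set Lv : V → ℕ → Prop := fun z y => z = y • a with hLv
  have huniq : ∀ z i j, i < n → j < n → Lv z i → Lv z j → i = j := by
    intro z i j hi hj h1 h2
    exact hinjn i j hi hj (h1.symm.trans h2)
  have hInj : Inj val R U p := by
    constructor
    · intro i j hi hj h
      exact hinjn i j (by omega) (by omega) h
    · intro i j hi hj h
      rw [hU, ← add_smul] at h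
      have := hinjn i (k + j) (by omega) (by omega) h
      omega
  have hsm : sm val (lad R U D (p + 1)) + val R = (2 * k) • a := by
    rw [lad_sm val R U D hF.d, hU, hp, ← ha, ← add_smul, ← succ_nsmul]
    congr 1
    omega
  have hB : ∀ z i, Lv z i → (z :: tr val z (lad R U D (p + 1))).Nodup ∧
      (∀ u ∈ z :: tr val z (lad R U D (p + 1)), ∃ j, i ≤ j ∧ j < i + 2 * k ∧ Lv u j) ∧
      Lv (z + sm val (lad R U D (p + 1)) + val R) (i + 2 * k) := by
    intro z i hz
    refine ⟨lad_nodup val R U D hF.d p z hInj, ?_, ?_⟩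
    · intro u hu
      obtain ⟨j, hj, h1⟩ := lad_mem val R U D hF.d p z u hu
      rcases h1 with h1 | h1
      · refine ⟨i + j, by omega, by omega, ?_⟩
        show u = (i + j) • a
        rw [h1, show z = i • a from hz, add_smul]
      · refine ⟨i + k + j, by omega, by omega, ?_⟩
        show u = (i + k + j) • a
        rw [h1, show z = i • a from hz, hU, add_smul, add_smul]
    · show z + sm val (lad R U D (p + 1)) + val R = (i + 2 * k) • a
      rw [add_assoc, hsm, show z = i • a from hz, add_smul]
  set t := n / (2 * k) with ht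
  have hk0 : 0 < 2 * k := by omega
  have ht1 : 1 ≤ t := (Nat.one_le_div_iff hk0).2 hkn
  obtain ⟨t', ht'⟩ : ∃ t', t = t' + 1 := ⟨t - 1, by omega⟩
  have htn : 2 * k * t ≤ n := Nat.mul_div_le n (2 * k)
  have htn2 : n < 2 * k * (t + 1) := Nat.lt_mul_div_succ n hk0
  have e0 : 2 * k * (t + 1) = 2 * k * t + 2 * k := by ring
  have e1 : 2 * k * t = 2 * k * t' + 2 * k := by rw [ht']; ring
  have e2 : t' • (sm val (lad R U D (p + 1)) + val R) = (2 * k * t') • a := by
    rw [hsm, ← mul_smul]
    congr 1
    ring
  have hgd : 2 * p ≤ gd Gd (lad R U D (p + 1)) + 1 := lad_gd hF.g1 hF.g2 hF.g3 hF.g4 p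
  set g := t * (2 * p - 1) with hg
  have hgn : n ≤ 8 * g := by
    have h1 : 2 * k * (t + 1) ≤ 4 * k * t := by nlinarith
    have h2 : 4 * k * t ≤ 8 * g := by
      rw [hg, hp]
      have h3 : 4 * (p + 1) ≤ 8 * (2 * p - 1) := by omega
      calc 4 * (p + 1) * t ≤ 8 * (2 * p - 1) * t := Nat.mul_le_mul_right t h3
        _ = 8 * (t * (2 * p - 1)) := by ring
    omega
  have hgg : g ≤ t * gd Gd (lad R U D (p + 1)) := Nat.mul_le_mul_left t (by omega)
  set ω := (List.replicate t' (lad R U D (p + 1) ++ [R])).flatten ++ lad R U D (p + 1) with hω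
  have hωg : g ≤ gd Gd ω := by
    have h1 := gd_stack (Gd := Gd) (lad R U D (p + 1)) R t' (lad R U D (p + 1))
    rw [← hω] at h1
    have h2 : t * gd Gd (lad R U D (p + 1)) = t' * gd Gd (lad R U D (p + 1)) +
      gd Gd (lad R U D (p + 1)) := by rw [ht']; ring
    omega
  -- the end of the word
  have hend : ∀ y, 2 * k * t + y ≤ n →
      (0 :: tr val 0 (ω ++ List.replicate y R)).Nodup ∧
      (0 + sm val (ω ++ List.replicate y R)) + a = (2 * k * t + y) • a := by
    intro y hy
    constructor
    · have h1 := stack (val := val) huniq hB t' 0 0 (lad R U D (p + 1) ++ List.replicate y R)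
        (by show (0 : V) = 0 • a; rw [zero_nsmul])
      rw [zero_add, e2] at h1
      rw [hω, List.append_assoc]
      set z1 := (2 * k * t') • a with hz1
      obtain ⟨b1, b2, -⟩ := hB z1 (2 * k * t') rfl
      have hrep : ∀ c ∈ List.replicate y R, val c = a := by
        intro c hc
        rw [List.eq_of_mem_replicate hc]
      set z2 := z1 + sm val (lad R U D (p + 1)) with hz2
      have hz2' : z2 = (2 * k * t - 1) • a := by
        have h2 : z2 + a = (2 * k * t - 1) • a + a := by
          rw [hz2, add_assoc, hsm, hz1, ← add_smul, ← succ_nsmul]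
          congr 1
          omega
        exact add_right_cancel h2
      have e3 : z1 :: tr val z1 (lad R U D (p + 1) ++ List.replicate y R) =
          (z1 :: tr val z1 (lad R U D (p + 1))) ++ tr val z2 (List.replicate y R) := by
        rw [tr_append, List.cons_append]
      have h4 : ∀ u ∈ tr val z2 (List.replicate y R), ∃ j, 2 * k * t ≤ j ∧ j < n ∧ Lv u j := by
        intro u hu
        obtain ⟨j, hj1, hj2, hj3⟩ := mem_tr_const val hrep hu
        rw [List.length_replicate] at hj2
        refine ⟨2 * k * t - 1 + j, by omega, by omega, ?_⟩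
        show u = (2 * k * t - 1 + j) • a
        rw [hj3, hz2', add_smul]
      have h5 : ∀ u ∈ z1 :: tr val z1 (lad R U D (p + 1)),
          ∃ j, 2 * k * t' ≤ j ∧ j < 2 * k * t ∧ Lv u j := by
        intro u hu
        obtain ⟨j, hj1, hj2, hj3⟩ := b2 u hu
        exact ⟨j, hj1, by omega, hj3⟩
      refine (h1 ?_ ?_).1
      · rw [e3, List.nodup_append]
        refine ⟨b1, ?_, ?_⟩
        · have h6 : (z2 :: tr val z2 (List.replicate y R)).Nodup :=
            nodup_const val hrep (by rw [List.length_replicate]; omega) z2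
          exact (List.nodup_cons.1 h6).2
        · intro u hu u' hu' huu
          subst huu
          obtain ⟨i, hi1, hi2, hi3⟩ := h5 u hu
          obtain ⟨j, hj1, hj2, hj3⟩ := h4 u hu'
          have := huniq u i j (by omega) hj2 hi3 hj3
          omega
      · intro u hu
        rw [e3] at hu
        rcases List.mem_append.1 hu with hu | hu
        · obtain ⟨i, hi1, hi2, hi3⟩ := h5 u hu
          exact ⟨i, by omega, by omega, hi3⟩
        · obtain ⟨j, hj1, hj2, hj3⟩ := h4 u hu
          exact ⟨j, by omega, by omega, hj3⟩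
    · have hrep : ∀ c ∈ List.replicate y R, val c = a := by
        intro c hc
        rw [List.eq_of_mem_replicate hc]
      rw [sm_append, hω, sm_stack, e2, sm_const val hrep, List.length_replicate]
      have h7 : 0 + ((2 * k * t') • a + sm val (lad R U D (p + 1)) + y • a) + a =
          (2 * k * t') • a + (sm val (lad R U D (p + 1)) + val R) + y • a := by
        rw [← ha]
        abel
      rw [h7, hsm, ← add_smul, ← add_smul]
      congr 1
      omega
  have hωin : ∀ c ∈ ω, val c ∈ AddSubgroup.zmultiples a := by
    have h1 : val R ∈ AddSubgroup.zmultiples a := AddSubgroup.mem_zmultiples a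
    have h2 : val U ∈ AddSubgroup.zmultiples a := by
      rw [hU]
      exact AddSubgroup.nsmul_mem _ (AddSubgroup.mem_zmultiples a) k
    exact stack_in (hF.lad_in h1 h2 _) h1 t' (hF.lad_in h1 h2 _)
  have hcard : Nat.card (AddSubgroup.zmultiples a) = n := Nat.card_zmultiples a
  by_cases hK : AddSubgroup.zmultiples a = ⊤
  · have h1 : Nat.card V = n := by
      rw [← hcard, hK, AddSubgroup.card_top]
    obtain ⟨h2, h3⟩ := hend (n - 2 * k * t) (by omega)
    have h4 : g ≤ gd Gd (R :: (ω ++ List.replicate (n - 2 * k * t) R ++ [R])) := by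
      refine hωg.trans ?_
      refine le_trans ?_ (gd_le_cons Gd R _)
      rw [List.append_assoc]
      exact gd_le_append_right Gd _ _
    have h5 : 1 ≤ ω.length := by
      obtain ⟨l, hl⟩ := lad_head R U D p
      rw [hω, hl]
      simp
      omega
    refine ⟨ω ++ List.replicate (n - 2 * k * t) R, R, ⟨h2, ?_⟩, ?_, ?_⟩
    · rw [zero_add] at h3
      rw [h3]
      have h6 : 2 * k * t + (n - 2 * k * t) = n := by omega
      rw [h6, hn, addOrderOf_nsmul_eq_zero]
    · rw [h1]
      omega
    · rw [List.length_append]
      omega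
  · refine out_of_closing val Gd hK (g := g) hgen hsym ?_ ?_ (by rw [hcard]; exact hgn)
    · intro prev
      refine ⟨ω, ⟨hωin, ?_⟩, hωg.trans (gd_le_cons Gd prev ω)⟩
      have := (hend 0 (by omega)).1
      rwa [List.replicate_zero, List.append_nil] at this
    · intro x hx
      exact zmul_words val hx

/-! ### the case of independent generators -/

/-- the case where `b` is not a multiple of `a` -/
theorem rows (hF : Four val Gd R R' U D)
    (hgen : AddSubgroup.closure (Set.range val) = ⊤) (hsym : ∀ e, ∃ e', val e' = -val e)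
    (hR : val R ≠ 0) (hU : val U ∉ AddSubgroup.zmultiples (val R)) :
    Out val Gd := by
  set a := val R with ha
  set b := val U with hb
  set n := addOrderOf a with hn
  set Z := AddSubgroup.zmultiples a with hZ
  set β : V ⧸ Z := (b : V ⧸ Z) with hβ
  set s := addOrderOf β with hs
  have hn2 : 2 ≤ n := by
    have h1 : 0 < n := addOrderOf_pos _
    have h3 : n ≠ 1 := fun h => hR (AddMonoid.addOrderOf_eq_one_iff.1 h)
    omega
  have hs2 : 2 ≤ s := by
    have h1 : 0 < s := addOrderOf_pos _
    have h3 : s ≠ 1 := fun h =>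
      hU ((QuotientAddGroup.eq_zero_iff b).1 (AddMonoid.addOrderOf_eq_one_iff.1 h))
    omega
  obtain ⟨p, hp⟩ : ∃ p, n = p + 1 := ⟨n - 1, by omega⟩
  have hinjn : ∀ i j, i < n → j < n → i • a = j • a → i = j := by
    intro i j hi hj h
    exact nsmul_injOn_Iio_addOrderOf (show i < _ from hi) (show j < _ from hj) h
  have hmka : ∀ i : ℕ, ((i • a : V) : V ⧸ Z) = 0 := by
    intro i
    rw [QuotientAddGroup.eq_zero_iff]
    exact AddSubgroup.nsmul_mem _ (AddSubgroup.mem_zmultiples a) i
  set Lv : V → ℕ → Prop := fun z j => (z : V ⧸ Z) = j • β with hLv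
  have huniq : ∀ h ≤ s, ∀ z i j, i < h → j < h → Lv z i → Lv z j → i = j := by
    intro h hh z i j hi hj h1 h2
    exact nsmul_injOn_Iio_addOrderOf (show i < _ by omega) (show j < _ by omega)
      (h1.symm.trans h2)
  have hInj : Inj val R U p := by
    constructor
    · intro i j hi hj h
      exact hinjn i j (by omega) (by omega) h
    · intro i j hi hj h
      have h1 : ((i • a : V) : V ⧸ Z) = ((b + j • a : V) : V ⧸ Z) := by rw [h]
      rw [QuotientAddGroup.mk_add, hmka, hmka, add_zero] at h1
      exact hU ((QuotientAddGroup.eq_zero_iff b).1 h1.symm)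
  have hsm : sm val (lad R U D (p + 1)) = p • a + b := lad_sm val R U D hF.d p
  have hB1 : ∀ z i, Lv z i → (z :: tr val z (lad R U D (p + 1))).Nodup ∧
      (∀ u ∈ z :: tr val z (lad R U D (p + 1)), ∃ j, i ≤ j ∧ j < i + 2 ∧ Lv u j) := by
    intro z i hz
    have hz' : (z : V ⧸ Z) = i • β := hz
    refine ⟨lad_nodup val R U D hF.d p z hInj, ?_⟩
    intro u hu
    obtain ⟨j, hj, h1⟩ := lad_mem val R U D hF.d p z u hu
    rcases h1 with h1 | h1
    · refine ⟨i, le_rfl, by omega, ?_⟩
      show (u : V ⧸ Z) = i • β
      rw [h1, QuotientAddGroup.mk_add, ← ha, hmka, add_zero, hz']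
    · refine ⟨i + 1, by omega, by omega, ?_⟩
      show (u : V ⧸ Z) = (i + 1) • β
      rw [h1, QuotientAddGroup.mk_add, QuotientAddGroup.mk_add, ← ha, hmka, add_zero, hz',
        succ_nsmul]
  have hB : ∀ z i, Lv z i → (z :: tr val z (lad R U D (p + 1))).Nodup ∧
      (∀ u ∈ z :: tr val z (lad R U D (p + 1)), ∃ j, i ≤ j ∧ j < i + 2 ∧ Lv u j) ∧
      Lv (z + sm val (lad R U D (p + 1)) + val U) (i + 2) := by
    intro z i hz
    obtain ⟨h1, h2⟩ := hB1 z i hz
    refine ⟨h1, h2, ?_⟩
    show ((z + sm val (lad R U D (p + 1)) + val U : V) : V ⧸ Z) = (i + 2) • β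
    rw [hsm, QuotientAddGroup.mk_add, QuotientAddGroup.mk_add, QuotientAddGroup.mk_add, hmka,
      zero_add, show (z : V ⧸ Z) = i • β from hz, add_smul, two_nsmul, add_assoc]
  have hgd : 2 * p ≤ gd Gd (lad R U D (p + 1)) + 1 := lad_gd hF.g1 hF.g2 hF.g3 hF.g4 p
  have hlv0 : Lv 0 0 := by show ((0 : V) : V ⧸ Z) = 0 • β; rw [zero_nsmul]; rfl
  have hlvt : ∀ t : ℕ, Lv (0 + t • (sm val (lad R U D (p + 1)) + val U)) (2 * t) := by
    intro t
    induction t with
    | zero => rw [zero_nsmul, add_zero]; exact hlv0
    | succ t ih =>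
      have := (hB _ _ ih).2.2
      rw [succ_nsmul]
      have e : 0 + (t • (sm val (lad R U D (p + 1)) + val U) +
          (sm val (lad R U D (p + 1)) + val U)) =
          0 + t • (sm val (lad R U D (p + 1)) + val U) + sm val (lad R U D (p + 1)) + val U := by
        abel
      rw [e, show 2 * (t + 1) = 2 * t + 2 by ring]
      exact this
  set K := AddSubgroup.closure {a, b} with hK
  have hcardK : Nat.card K ≤ n * s := by
    have h2 : K ≤ (AddSubgroup.zmultiples β).comap (QuotientAddGroup.mk' Z) := by
      rw [hK, AddSubgroup.closure_le]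
      intro x hx
      rcases hx with rfl | hx
      · show ((a : V) : V ⧸ Z) ∈ AddSubgroup.zmultiples β
        have := hmka 1
        rw [one_nsmul] at this
        rw [this]
        exact AddSubgroup.zero_mem _
      · rw [Set.mem_singleton_iff] at hx
        rw [hx]
        exact AddSubgroup.mem_zmultiples β
    have h3 := AddSubgroup.card_mul_index ((AddSubgroup.zmultiples β).comap (QuotientAddGroup.mk' Z))
    rw [AddSubgroup.index_comap_of_surjective _ (QuotientAddGroup.mk'_surjective Z)] at h3
    have h4 := AddSubgroup.card_mul_index (AddSubgroup.zmultiples β)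
    have h5 := AddSubgroup.card_eq_card_quotient_mul_card_addSubgroup Z
    have h6 : Nat.card (AddSubgroup.zmultiples β) = s := Nat.card_zmultiples β
    have h7 : Nat.card Z = n := Nat.card_zmultiples a
    rw [← h4, h6, h7] at h5
    rw [h5] at h3
    have h8 : 0 < (AddSubgroup.zmultiples β).index := Nat.pos_of_ne_zero
      AddSubgroup.index_ne_zero_of_finite
    have h9 : Nat.card ((AddSubgroup.zmultiples β).comap (QuotientAddGroup.mk' Z)) = n * s := by
      apply Nat.eq_of_mul_eq_mul_right h8
      rw [h3]
      ring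
    rw [← h9]
    exact AddSubgroup.card_le_of_le h2
  have hRK : val R ∈ K := AddSubgroup.subset_closure (by simp [ha])
  have hUK : val U ∈ K := AddSubgroup.subset_closure (by simp [hb])
  by_cases hKtop : K = ⊤
  · have hV : Nat.card V ≤ n * s := by
      rw [hKtop, AddSubgroup.card_top] at hcardK
      exact hcardK
    by_cases hs3 : 3 ≤ s
    · -- at least three rows
      set t := (s - 1) / 2 with ht
      have ht1 : 1 ≤ t := by omega
      have hts : 2 * t + 1 ≤ s := by omega
      have hts2 : s ≤ 2 * t + 2 := by omega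
      set y := s - 2 * t - 1 with hy
      -- choose the shift
      have hsb : s • b ∈ Z := by
        rw [← QuotientAddGroup.eq_zero_iff]
        have : ((s • b : V) : V ⧸ Z) = s • β := rfl
        rw [this, hs, addOrderOf_nsmul_eq_zero]
      have hneed : -((t * p) • a + s • b) ∈ Z :=
        Z.neg_mem (Z.add_mem (Z.nsmul_mem (AddSubgroup.mem_zmultiples a) _) hsb)
      classical
      have hneed2 := hneed
      rw [hZ, mem_zmultiples_iff_mem_range_addOrderOf, Finset.mem_image] at hneed2
      obtain ⟨x, hx, hx2⟩ := hneed2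
      rw [Finset.mem_range] at hx
      have hrepR : ∀ c ∈ List.replicate x R, val c = a := by
        intro c hc
        rw [List.eq_of_mem_replicate hc]
      have hrepU : ∀ c ∈ List.replicate y U, val c = b := by
        intro c hc
        rw [List.eq_of_mem_replicate hc]
      set z1 : V := 0 + t • (sm val (lad R U D (p + 1)) + val U) with hz1
      have hz1lv : (z1 : V ⧸ Z) = (2 * t) • β := hlvt t
      set w2 := List.replicate x R ++ List.replicate y U with hw2
      set z2 : V := z1 + sm val (List.replicate x R) with hz2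
      have hz2lv : (z2 : V ⧸ Z) = (2 * t) • β := by
        rw [hz2, sm_const val hrepR, QuotientAddGroup.mk_add, hmka, add_zero, hz1lv]
      have e3 : z1 :: tr val z1 w2 =
          (z1 :: tr val z1 (List.replicate x R)) ++ tr val z2 (List.replicate y U) := by
        rw [hw2, tr_append, List.cons_append]
      have h5 : ∀ u ∈ z1 :: tr val z1 (List.replicate x R), Lv u (2 * t) := by
        intro u hu
        show (u : V ⧸ Z) = (2 * t) • β
        rcases List.mem_cons.1 hu with rfl | hu
        · exact hz1lv
        · obtain ⟨j, hj1, hj2, hj3⟩ := mem_tr_const val hrepR hu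
          rw [hj3, QuotientAddGroup.mk_add, hmka, add_zero, hz1lv]
      have h4 : ∀ u ∈ tr val z2 (List.replicate y U),
          ∃ j, 2 * t + 1 ≤ j ∧ j < s ∧ Lv u j := by
        intro u hu
        obtain ⟨j, hj1, hj2, hj3⟩ := mem_tr_const val hrepU hu
        rw [List.length_replicate] at hj2
        refine ⟨2 * t + j, by omega, by omega, ?_⟩
        show (u : V ⧸ Z) = (2 * t + j) • β
        have h6 : ((j • b : V) : V ⧸ Z) = j • β := rfl
        rw [hj3, QuotientAddGroup.mk_add, hz2lv, h6, add_smul]
      have h6 : (z1 :: tr val z1 (List.replicate x R)).Nodup :=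
        nodup_const val hrepR (by rw [List.length_replicate]; exact hx) z1
      have h7 : (z2 :: tr val z2 (List.replicate y U)).Nodup := by
        rw [tr_const val hrepU]
        refine List.Nodup.map_on ?_ List.nodup_range
        intro i hi j hj hij
        rw [List.mem_range, List.length_replicate] at hi hj
        have h1 : i • b = j • b := add_left_cancel hij
        have h2 : i • β = j • β := by
          have : ((i • b : V) : V ⧸ Z) = ((j • b : V) : V ⧸ Z) := by rw [h1]
          exact this
        exact nsmul_injOn_Iio_addOrderOf (show i < _ by omega) (show j < _ by omega) h2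
      have h8 := stack (val := val) (h := s) (d := 2) (huniq s le_rfl) hB t 0 0 w2 hlv0 (by
          rw [← hz1, e3, List.nodup_append]
          refine ⟨h6, (List.nodup_cons.1 h7).2, ?_⟩
          intro u hu u' hu' huu
          subst huu
          obtain ⟨j, hj1, hj2, hj3⟩ := h4 u hu'
          have := huniq s le_rfl u (2 * t) j (by omega) hj2 (h5 u hu) hj3
          omega) (by
          intro u hu
          rw [← hz1, e3] at hu
          rcases List.mem_append.1 hu with hu | hu
          · exact ⟨2 * t, by omega, by omega, h5 u hu⟩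
          · obtain ⟨j, hj1, hj2, hj3⟩ := h4 u hu
            exact ⟨j, by omega, hj2, hj3⟩)
      set w := (List.replicate t (lad R U D (p + 1) ++ [U])).flatten ++ w2 with hw
      have hgw : t * gd Gd (lad R U D (p + 1)) ≤ gd Gd (U :: (w ++ [U])) := by
        have h9 := gd_stack (Gd := Gd) (lad R U D (p + 1)) U t w2
        rw [← hw] at h9
        have h10 := gd_le_append_right Gd w [U]
        have h11 := gd_le_cons Gd U (w ++ [U])
        omega
      have hmul : t * (2 * p - 1) ≤ t * gd Gd (lad R U D (p + 1)) :=
        Nat.mul_le_mul_left t (by omega)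
      have hsum : sm val w + val U = 0 := by
        rw [hw, sm_stack, hw2, sm_append, sm_const val hrepR, sm_const val hrepU,
          List.length_replicate, List.length_replicate, hx2, hsm]
        have h12 : (s • b : V) = t • (b + b) + y • b + b := by
          have : s = t * 2 + y + 1 := by omega
          rw [this, add_smul, add_smul, mul_smul, one_nsmul, two_nsmul]
        have h13 : t • (p • a + b + val U) = (t * p) • a + t • (b + b) := by
          rw [← hb, add_assoc, smul_add, ← mul_smul]
        rw [h13, h12, ← hb]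
        abel
      have hnum : n * s ≤ 16 * (t * (2 * p - 1)) := by
        rw [hp]
        have h14 : (p + 1) * s ≤ (p + 1) * (4 * t) := Nat.mul_le_mul_left _ (by omega)
        have h15 : (p + 1) * (4 * t) ≤ 16 * (t * (2 * p - 1)) := by
          have h16 : 4 * (p + 1) ≤ 16 * (2 * p - 1) := by omega
          calc (p + 1) * (4 * t) = 4 * (p + 1) * t := by ring
            _ ≤ 16 * (2 * p - 1) * t := Nat.mul_le_mul_right t h16
            _ = 16 * (t * (2 * p - 1)) := by ring
        exact h14.trans h15
      have h17 : 0 < n * s := Nat.mul_pos (by omega) (by omega)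
      have h18 : 1 ≤ w.length := by
        obtain ⟨t', ht'⟩ : ∃ t', t = t' + 1 := ⟨t - 1, by omega⟩
        rw [hw, ht', List.replicate_succ, List.flatten_cons]
        simp only [List.length_append, List.length_cons]
        omega
      refine ⟨w, U, ⟨h8.1, hsum⟩, by omega, by omega⟩
    · -- two rows
      have hs' : s = 2 := by omega
      have h1 := cwd_gd hF.g1 hF.g2 hF.g3 hF.g4 p
      have h2 : gd Gd (cwd R U D p) ≤ gd Gd (R :: (cwd R U D p ++ [R])) :=
        (gd_le_append_right Gd _ _).trans (gd_le_cons Gd R _)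
      have h3 : n * s = 2 * (p + 1) := by rw [hp, hs']; ring
      have h4 : 1 ≤ (cwd R U D p).length := by
        obtain ⟨q, hq⟩ : ∃ q, p = q + 1 := ⟨p - 1, by omega⟩
        obtain ⟨l, hl⟩ := cwd_head R U D q
        rw [hq, hl]
        simp
      refine ⟨cwd R U D p, R, ⟨cwd_nodup val R U D hF.d p 0 hInj, ?_⟩, by omega, by omega⟩
      rw [cwd_sm val R U D hF.d, ← ha, ← succ_nsmul, ← hp, hn, addOrderOf_nsmul_eq_zero]
  · -- the path version
    set t := s / 2 with ht
    have ht1 : 1 ≤ t := by omega
    obtain ⟨t', ht'⟩ : ∃ t', t = t' + 1 := ⟨t - 1, by omega⟩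
    set ω := (List.replicate t' (lad R U D (p + 1) ++ [U])).flatten ++ lad R U D (p + 1) with hω
    have h1 := stack (val := val) (h := s) (d := 2) (huniq s le_rfl) hB t' 0 0
      (lad R U D (p + 1)) hlv0 (hB1 _ _ (hlvt t')).1 (by
        intro u hu
        obtain ⟨j, hj1, hj2, hj3⟩ := (hB1 _ _ (hlvt t')).2 u hu
        exact ⟨j, by omega, by omega, hj3⟩)
    have h2 := gd_stack (Gd := Gd) (lad R U D (p + 1)) U t' (lad R U D (p + 1))
    rw [← hω] at h2
    have h3 : t * gd Gd (lad R U D (p + 1)) = t' * gd Gd (lad R U D (p + 1)) +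
      gd Gd (lad R U D (p + 1)) := by rw [ht']; ring
    have hmul : t * (2 * p - 1) ≤ t * gd Gd (lad R U D (p + 1)) :=
      Nat.mul_le_mul_left t (by omega)
    have hnum : n * s ≤ 8 * (t * (2 * p - 1)) := by
      rw [hp]
      have h14 : (p + 1) * s ≤ (p + 1) * (3 * t) := Nat.mul_le_mul_left _ (by omega)
      have h15 : (p + 1) * (3 * t) ≤ 8 * (t * (2 * p - 1)) := by
        have h16 : 3 * (p + 1) ≤ 8 * (2 * p - 1) := by omega
        calc (p + 1) * (3 * t) = 3 * (p + 1) * t := by ring
          _ ≤ 8 * (2 * p - 1) * t := Nat.mul_le_mul_right t h16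
          _ = 8 * (t * (2 * p - 1)) := by ring
      exact h14.trans h15
    refine out_of_closing val Gd hKtop (g := t * (2 * p - 1)) hgen hsym ?_
      (fun k hk => hF.words hK k hk) (hcardK.trans hnum)
    intro prev
    refine ⟨ω, ⟨?_, h1.1⟩, ?_⟩
    · exact stack_in (hF.lad_in hRK hUK _) hUK t' (hF.lad_in hRK hUK _)
    · refine le_trans ?_ (gd_le_cons Gd prev ω)
      omega

/-- third kind: two pairs of connections -/
theorem out_three {R R' U D : E}
    (hgen : AddSubgroup.closure (Set.range val) = ⊤) (hsym : ∀ e, ∃ e', val e' = -val e)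
    (hr : val R' = -val R) (hd : val D = -val U)
    (g1 : Gd U R) (g2 : Gd R D) (g3 : Gd D R) (g4 : Gd R U)
    (hR0 : val R ≠ 0) (hU0 : val U ≠ 0) (h1 : val U ≠ val R) (h2 : val U ≠ -val R) :
    Out val Gd := by
  classical
  have hF : Four val Gd R R' U D := ⟨hr, hd, g1, g2, g3, g4⟩
  by_cases hU : val U ∈ AddSubgroup.zmultiples (val R)
  · have hU' := hU
    rw [mem_zmultiples_iff_mem_range_addOrderOf, Finset.mem_image] at hU'
    obtain ⟨k, hk, hkU⟩ := hU'
    rw [Finset.mem_range] at hk
    set n := addOrderOf (val R) with hn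
    have hn0 : n • val R = 0 := addOrderOf_nsmul_eq_zero _
    have k0 : k ≠ 0 := by
      rintro rfl
      rw [zero_nsmul] at hkU
      exact hU0 hkU.symm
    have k1 : k ≠ 1 := by
      rintro rfl
      rw [one_nsmul] at hkU
      exact h1 hkU.symm
    have k2 : k + 1 ≠ n := by
      intro h
      apply h2
      rw [← h, succ_nsmul, hkU] at hn0
      exact eq_neg_of_add_eq_zero_left hn0
    by_cases hle : 2 * k ≤ n
    · exact helix hF hgen hsym (k := k) (by omega) hle hkU.symm
    · have hF' : Four val Gd R R' D U := by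
        refine ⟨hr, by rw [hd, neg_neg], g3, g4, g1, g2⟩
      refine helix hF' hgen hsym (k := n - k) (by omega) (by omega) ?_
      rw [hd, ← hkU]
      have h3 : (n - k) • val R + k • val R = 0 := by
        rw [← add_smul, Nat.sub_add_cancel hk.le, hn0]
      exact (eq_neg_of_add_eq_zero_left h3).symm
  · exact rows hF hgen hsym hR0 hU

end

end Pool.Agent.J4H54.LC
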