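import Pool.Agent.J4H54.LC.Trans
import Pool.Agent.J4H54.LC.TwoGen

set_option autoImplicit false
set_option linter.unusedSectionVars false

/-!
# From closed words to cycles
-/

namespace Pool.Agent.J4H54.LC

open List

variable {X : Type*} {V : Type*} {G : SimpleGraph X} [AddCommGroup V] [AddAction V X]

/-- an edge from the transversal to one of its translates -/
structure Con (G : SimpleGraph X) (V : Type*) [AddCommGroup V] [AddAction V X] (T : Set X) where
  v : V
  x : X
  y : X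
  hx : x ∈ T
  hy : y ∈ T
  adj : G.Adj x (v +ᵥ y)

variable {T : Set X}

/-- the same edge in the other direction -/
def Con.rev (haut : ∀ (v : V) (x y : X), G.Adj x y → G.Adj (v +ᵥ x) (v +ᵥ y)) (c : Con G V T) :
    Con G V T where
  v := -c.v
  x := c.y
  y := c.x
  hx := c.hy
  hy := c.hx
  adj := by
    have := haut (-c.v) _ _ c.adj
    rw [neg_vadd_vadd] at this
    exact this.symm

/-- good transitions: a long path in the cell -/
def GC (n : ℕ) (c c' : Con G V T) : Prop := ∃ L, P G T c.y c'.x L ∧ n ≤ 2 * L.length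

theorem con_gen (hT : Tr G V T) (hfree : ∀ (v : V) (x : X), v +ᵥ x = x → v = 0)
    (haut : ∀ (v : V) (x y : X), G.Adj x y → G.Adj (v +ᵥ x) (v +ᵥ y)) (hG : G.Connected) :
    AddSubgroup.closure (Set.range (Con.v : Con G V T → V)) = ⊤ := by
  have key : ∀ (x y : X) (p : G.Walk x y) (u w : V) (s t : X), s ∈ T → t ∈ T → x = u +ᵥ s →
      y = w +ᵥ t → w - u ∈ AddSubgroup.closure (Set.range (Con.v : Con G V T → V)) := by
    intro x y p
    induction p with
    | nil =>
      intro u w s t hs ht h1 h2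
      have := (hT.uniq hfree hs ht (h1.symm.trans h2)).1
      rw [this, sub_self]
      exact AddSubgroup.zero_mem _
    | @cons x z y h p ih =>
      intro u w s t hs ht h1 h2
      obtain ⟨r, q, hq, hz⟩ := hT.cov z
      have h3 := ih r w q t hq ht hz h2
      have h4 : G.Adj s ((r - u) +ᵥ q) := by
        have := haut (-u) _ _ h
        rw [h1, neg_vadd_vadd, hz, vadd_vadd] at this
        rwa [sub_eq_add_neg, add_comm]
      have h5 : r - u ∈ AddSubgroup.closure (Set.range (Con.v : Con G V T → V)) :=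
        AddSubgroup.subset_closure ⟨⟨r - u, s, q, hs, hq, h4⟩, rfl⟩
      have e : w - u = (w - r) + (r - u) := by abel
      rw [e]
      exact AddSubgroup.add_mem _ h3 h5
  obtain ⟨x⟩ := hG.nonempty
  obtain ⟨-, t, ht, -⟩ := hT.cov x
  rw [eq_top_iff]
  intro v _
  obtain ⟨p⟩ := hG.preconnected t (v +ᵥ t)
  have := key _ _ p 0 v t t ht ht (zero_vadd V t).symm rfl
  rwa [sub_zero] at this

theorem asm (hT : Tr G V T) (hfree : ∀ (v : V) (x : X), v +ᵥ x = x → v = 0)
    (haut : ∀ (v : V) (x y : X), G.Adj x y → G.Adj (v +ᵥ x) (v +ᵥ y)) {n : ℕ} (hn : 3 ≤ n)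
    (ce : Con G V T) :
    ∀ (w : List (Con G V T)) (s : V) (c0 : Con G V T), (s :: tr Con.v s w).Nodup →
      ∃ L, P G {z | ∃ u ∈ s :: tr Con.v s w, ∃ t ∈ T, z = u +ᵥ t} (s +ᵥ c0.y)
        ((s + sm Con.v w) +ᵥ ce.x) L ∧
        n * gd (GC n) (c0 :: (w ++ [ce])) ≤ 2 * L.length ∧
        w.length + 1 + gd (GC n) (c0 :: (w ++ [ce])) ≤ L.length := by
  -- a cell
  have cell : ∀ (s : V) (c c' : Con G V T), ∃ L, P G {z | ∃ t ∈ T, z = s +ᵥ t} (s +ᵥ c.y)
      (s +ᵥ c'.x) L ∧ (∀ w, n * gd (GC n) (c :: c' :: w) ≤ 2 * L.length + n * gd (GC n) (c' :: w) ∧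
        1 + gd (GC n) (c :: c' :: w) ≤ L.length + gd (GC n) (c' :: w)) := by
    intro s c c'
    by_cases h : GC n c c'
    · obtain ⟨L, hL, hlen⟩ := id h
      refine ⟨_, hL.vadd s haut, ?_⟩
      intro w
      rw [gd_good _ h, List.length_map]
      constructor
      · rw [Nat.mul_add, mul_one]
        omega
      · omega
    · obtain ⟨L, hL⟩ := (hT.conn c.y c.hy c'.x c'.hx).path
      refine ⟨_, hL.vadd s haut, ?_⟩
      intro w
      have h1 := hL.pos
      rw [gd_cons_cons, if_neg h, List.length_map]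
      constructor
      · rw [zero_add]
        omega
      · omega
  intro w
  induction w with
  | nil =>
    intro s c0 _
    obtain ⟨L, hL, hlen⟩ := cell s c0 ce
    have h1 := hlen []
    rw [gd_single, Nat.mul_zero] at h1
    refine ⟨L, ?_, ?_, ?_⟩
    · rw [sm_nil, add_zero]
      refine hL.mono ?_
      rintro z ⟨t, ht, rfl⟩
      exact ⟨s, by simp, t, ht, rfl⟩
    · rw [List.nil_append]
      omega
    · rw [List.nil_append, List.length_nil]
      omega
  | cons c w ih =>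
    intro s c0 hnd
    rw [tr_cons] at hnd
    obtain ⟨L1, h1, h2⟩ := cell s c0 c
    obtain ⟨L2, h3, h4, h5⟩ := ih (s + c.v) c (List.nodup_cons.1 hnd).2
    have hadj : G.Adj (s +ᵥ c.x) ((s + c.v) +ᵥ c.y) := by
      rw [← vadd_vadd]
      exact haut s _ _ c.adj
    have hdis : ∀ z ∈ L1, z ∉ L2 := by
      intro z hz hz'
      obtain ⟨t, ht, e1⟩ := h1.sub z hz
      obtain ⟨u, hu, t', ht', e2⟩ := h3.sub z hz'
      have := (hT.uniq hfree ht ht' (e1.symm.trans e2)).1
      rw [← this] at hu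
      exact (List.nodup_cons.1 hnd).1 hu
    have h6 := h1.cat h3 hadj hdis
    have h7 := h2 (w ++ [ce])
    refine ⟨L1 ++ L2, ?_, ?_, ?_⟩
    · rw [sm_cons, ← add_assoc]
      refine h6.mono ?_
      rintro z (⟨t, ht, rfl⟩ | ⟨u, hu, t, ht, rfl⟩)
      · exact ⟨s, by simp, t, ht, rfl⟩
      · exact ⟨u, by rw [tr_cons]; exact List.mem_cons_of_mem _ hu, t, ht, rfl⟩
    · rw [List.cons_append, List.length_append]
      omega
    · rw [List.cons_append, List.length_append, List.length_cons]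
      omega

theorem closed_asm (hT : Tr G V T) (hfree : ∀ (v : V) (x : X), v +ᵥ x = x → v = 0)
    (haut : ∀ (v : V) (x y : X), G.Adj x y → G.Adj (v +ᵥ x) (v +ᵥ y)) {n : ℕ} (hn : 3 ≤ n)
    {w : List (Con G V T)} {c : Con G V T} (hnd : (0 :: tr Con.v 0 w).Nodup)
    (hcl : sm Con.v w + c.v = 0) (h3 : 3 ≤ w.length + 1 + gd (GC n) (c :: (w ++ [c]))) :
    ∃ L, Cyl G L ∧ n * gd (GC n) (c :: (w ++ [c])) ≤ 2 * L.length ∧
      w.length + 1 ≤ L.length := by
  obtain ⟨L, h1, h2, h4⟩ := asm hT hfree haut hn c w 0 c hnd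
  refine ⟨L, ⟨h1.nd, h1.ch, by omega, ?_⟩, h2, by omega⟩
  intro x hx y hy
  rw [h1.hd] at hx
  rw [h1.lt] at hy
  simp only [Option.mem_def, Option.some.injEq] at hx hy
  subst hx hy
  have := haut (0 + sm Con.v w) _ _ c.adj
  rw [vadd_vadd] at this
  rw [zero_add] at this ⊢
  rwa [hcl] at this

end Pool.Agent.J4H54.LC
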