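import Pool.Agent.J4H54.LC.Step

set_option autoImplicit false
set_option linter.unusedSectionVars false

/-!
# Cayley graphs
-/

namespace Pool.Agent.J4H54.LC

open List

universe u

/-- `CS A l`: the entries `a_1, …, a_m` of the list `l` lie in `A`, the products
`a_1 ⋯ a_k` for `1 ≤ k ≤ m` are pairwise distinct, and `a_1 ⋯ a_m = 1`. -/
structure CS {G : Type u} [Group G] (A : Set G) (l : List G) : Prop where
  mem : ∀ a ∈ l, a ∈ A
  distinct : ∀ j k : ℕ, 1 ≤ j → j < k → k ≤ l.length → (l.take j).prod ≠ (l.take k).prod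
  closed : l.prod = 1

/-- the Cayley graph -/
def cay {G : Type u} [Group G] (A : Set G) : SimpleGraph G where
  Adj g h := g ≠ h ∧ (g⁻¹ * h ∈ A ∨ h⁻¹ * g ∈ A)
  symm := ⟨fun _ _ h => ⟨h.1.symm, h.2.symm⟩⟩
  loopless := ⟨fun _ h => h.1 rfl⟩

section

variable {G : Type u} [Group G] {A : Set G}

theorem cay_adj (hinv : ∀ a ∈ A, a⁻¹ ∈ A) {g h : G} :
    (cay A).Adj g h ↔ g ≠ h ∧ g⁻¹ * h ∈ A := by
  constructor
  · rintro ⟨h1, h2 | h2⟩
    · exact ⟨h1, h2⟩
    · refine ⟨h1, ?_⟩
      have := hinv _ h2
      rwa [mul_inv_rev, inv_inv] at this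
  · rintro ⟨h1, h2⟩
    exact ⟨h1, Or.inl h2⟩

theorem cay_left (n g h : G) (hgh : (cay A).Adj g h) : (cay A).Adj (n * g) (n * h) := by
  obtain ⟨h1, h2⟩ := hgh
  refine ⟨fun h3 => h1 (mul_left_cancel h3), ?_⟩
  have e1 : (n * g)⁻¹ * (n * h) = g⁻¹ * h := by group
  have e2 : (n * h)⁻¹ * (n * g) = h⁻¹ * g := by group
  rwa [e1, e2]

theorem cay_connected (hgen : Subgroup.closure A = ⊤) : (cay A).Connected := by
  have step : ∀ (g a : G), a ∈ A → (cay A).Reachable g (g * a) := by
    intro g a ha
    by_cases h : g = g * a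
    · rw [← h]
    · exact SimpleGraph.Adj.reachable ⟨h, Or.inl (by rwa [inv_mul_cancel_left])⟩
  have key : ∀ a ∈ Subgroup.closure A, ∀ g : G, (cay A).Reachable g (g * a) := by
    intro a ha
    induction ha using Subgroup.closure_induction with
    | mem x hx => intro g; exact step g x hx
    | one => intro g; rw [mul_one]
    | mul x y _ _ hx hy =>
      intro g
      rw [← mul_assoc]
      exact (hx g).trans (hy (g * x))
    | inv x _ hx =>
      intro g
      have := (hx (g * x⁻¹)).symm
      rwa [inv_mul_cancel_right] at this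
  refine ⟨?_⟩
  · intro g h
    have := key (g⁻¹ * h) (by rw [hgen]; trivial) g
    rwa [mul_inv_cancel_left] at this

theorem cay_noCut [Finite G] (hgen : Subgroup.closure A = ⊤) : NoCut (cay A) := by
  intro z B hzB hB hout
  obtain ⟨b, hb⟩ := hB
  obtain ⟨o, ho, hoz⟩ := hout
  have hnt : Nontrivial G := ⟨⟨z, b, fun h => hzB (h ▸ hb)⟩⟩
  obtain ⟨v, hv⟩ := (cay_connected hgen).exists_connected_induce_compl_singleton_of_finite_nontrivial
  -- translate so that `z` becomes `v`
  set t : G := v * z⁻¹ with ht
  have htz : t * z = v := by rw [ht, inv_mul_cancel_right]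
  have hne : ∀ g, g ≠ z → t * g ∈ ({v}ᶜ : Set G) := by
    intro g hg h
    rw [Set.mem_singleton_iff, ← htz] at h
    exact hg (mul_left_cancel h)
  have hbz : b ≠ z := fun h => hzB (h ▸ hb)
  obtain ⟨p⟩ := hv.preconnected ⟨t * b, hne b hbz⟩ ⟨t * o, hne o hoz⟩
  set S : Set ({v}ᶜ : Set G) := {x | t⁻¹ * (x : G) ∈ B} with hS
  obtain ⟨d, -, hd1, hd2⟩ := p.exists_boundary_dart S
    (by show t⁻¹ * (t * b) ∈ B; rwa [inv_mul_cancel_left])
    (by show ¬ t⁻¹ * (t * o) ∈ B; rwa [inv_mul_cancel_left])
  refine ⟨t⁻¹ * (d.fst : G), hd1, t⁻¹ * (d.snd : G), hd2, ?_, ?_⟩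
  · intro h
    apply d.snd.2
    have h5 : (d.snd : G) = t * (t⁻¹ * (d.snd : G)) := (mul_inv_cancel_left _ _).symm
    rw [h, htz] at h5
    exact h5
  · apply cay_left
    have := d.adj
    exact this

/-- A cycle of the Cayley graph gives a closed sequence. -/
theorem cs_of_cyl (hinv : ∀ a ∈ A, a⁻¹ ∈ A) {L : List G} (hL : Cyl (cay A) L) :
    ∃ l, CS A l ∧ l.length = L.length := by
  classical
  obtain ⟨n, hn⟩ : ∃ n, L.length = n := ⟨_, rfl⟩
  have hn3 : 3 ≤ n := hn ▸ hL.len
  set f : ℕ → G := fun i => L.getD (i % n) 1 with hf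
  have hget : ∀ i, (hi : i < n) → f i = L[i]'(hn ▸ hi) := by
    intro i hi
    simp only [hf]
    rw [Nat.mod_eq_of_lt hi, List.getD_eq_getElem]
  have hfn : ∀ i, f (i + n) = f i := by
    intro i
    simp only [hf, Nat.add_mod_right]
  have hinj : ∀ i < n, ∀ j < n, f i = f j → i = j := by
    intro i hi j hj h
    rw [hget i hi, hget j hj] at h
    exact (List.Nodup.getElem_inj_iff hL.nd).1 h
  have hstep : ∀ i < n, (f i)⁻¹ * f (i + 1) ∈ A := by
    intro i hi
    by_cases h : i + 1 < n
    · have h1 := List.isChain_iff_getElem.1 hL.ch i (by omega)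
      rw [hget i hi, hget (i + 1) h]
      exact ((cay_adj hinv).1 h1).2
    · have e : i + 1 = 0 + n := by omega
      rw [e, hfn, hget 0 (by omega), hget i hi]
      have hne : L ≠ [] := by
        rintro rfl
        simp at hn
        omega
      have h1 := hL.cl (L[0]'(by omega)) (by
        rw [List.head?_eq_getElem?, List.getElem?_eq_getElem (by omega)]
        rfl) (L[i]'(by omega)) (by
        rw [List.getLast?_eq_getElem?, show L.length - 1 = i by omega,
          List.getElem?_eq_getElem (by omega)]
        rfl)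
      exact ((cay_adj hinv).1 h1).2
  have hprod : ∀ k, ((List.range k).map fun i => (f i)⁻¹ * f (i + 1)).prod = (f 0)⁻¹ * f k := by
    intro k
    induction k with
    | zero => simp
    | succ k ih => rw [List.prod_range_succ, ih]; group
  have htake : ∀ k ≤ n, (((List.range n).map fun i => (f i)⁻¹ * f (i + 1)).take k).prod =
      (f 0)⁻¹ * f k := by
    intro k hk
    rw [← hprod k, ← List.map_take, List.take_range, min_eq_left hk]
  refine ⟨(List.range n).map fun i => (f i)⁻¹ * f (i + 1), ⟨?_, ?_, ?_⟩, by simp [hn]⟩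
  · intro a ha
    obtain ⟨i, hi, rfl⟩ := List.mem_map.1 ha
    exact hstep i (List.mem_range.1 hi)
  · intro j k hj hjk hk
    rw [List.length_map, List.length_range] at hk
    rw [htake j (by omega), htake k hk]
    intro h
    have h1 : f j = f k := mul_left_cancel h
    by_cases h3 : k < n
    · have := hinj j (by omega) k h3 h1
      omega
    · have h4 : k = 0 + n := by omega
      rw [h4, hfn] at h1
      have := hinj j (by omega) 0 (by omega) h1
      omega
  · rw [hprod n]
    have := hfn 0
    rw [zero_add] at this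
    rw [this]
    group

/-- the abelian group acting on `G` by left multiplication with the elements of an abelian
subgroup -/
theorem of_abelian {G : Type} [Group G] [Finite G] {A : Set G} (hinv : ∀ a ∈ A, a⁻¹ ∈ A)
    (hgen : Subgroup.closure A = ⊤) (N : Subgroup G) (hab : ∀ x ∈ N, ∀ y ∈ N, x * y = y * x) :
    (3 ≤ Nat.card N → ∃ l, CS A l ∧ 3 ≤ l.length ∧ Nat.card N ≤ l.length) ∧
    ∀ (p : List G) (x0 xl : G), P (cay A) {z | z ∈ p} x0 xl p →
      (∀ x ∈ p, ∀ y ∈ p, ∀ v ∈ N, v * x = y → x = y) → 3 ≤ p.length → ∀ h ∈ N,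
      (cay A).Adj xl (h * x0) →
      ∃ l, CS A l ∧ 3 ≤ l.length ∧ p.length * Nat.card N ≤ 32 * l.length := by
  let _ : CommGroup N := { (inferInstance : Group N) with
    mul_comm := fun x y => Subtype.ext (hab x x.2 y y.2) }
  let _ : AddAction (Additive N) G :=
    { vadd := fun n g => ((Additive.toMul n : N) : G) * g
      zero_vadd := fun g => one_mul g
      add_vadd := fun m n g => mul_assoc _ _ g }
  have haut : ∀ (v : Additive N) (x y : G), (cay A).Adj x y → (cay A).Adj (v +ᵥ x) (v +ᵥ y) :=
    fun v x y h => cay_left _ _ _ h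
  have hfree : ∀ (v : Additive N) (x : G), v +ᵥ x = x → v = 0 := by
    intro v x h
    have h1 : ((Additive.toMul v : N) : G) * x = x := h
    have h2 : ((Additive.toMul v : N) : G) = 1 := by simpa using h1
    have h3 : (Additive.toMul v : N) = 1 := Subtype.ext h2
    exact h3
  have hconn := cay_connected hgen
  have hcard : Nat.card (Additive N) = Nat.card N := rfl
  constructor
  · intro h3
    obtain ⟨L, hL, hL2⟩ := base (V := Additive N) haut hfree hconn (by rw [hcard]; exact h3)
    obtain ⟨l, hl, hl2⟩ := cs_of_cyl hinv hL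
    rw [hcard] at hL2
    exact ⟨l, hl, by rw [hl2]; exact hL.len, by rw [hl2]; exact hL2⟩
  · intro p x0 xl hp horb h3 h hh hcl
    obtain ⟨L, hL, hL2⟩ := step (V := Additive N) haut hfree hconn (cay_noCut hgen) hp
      (fun x hx y hy v hv => horb x hx y hy _ (Additive.toMul v : N).2 hv) h3
      (h := Additive.ofMul (⟨h, hh⟩ : N)) hcl
    obtain ⟨l, hl, hl2⟩ := cs_of_cyl hinv hL
    rw [hcard] at hL2
    exact ⟨l, hl, by rw [hl2]; exact hL.len, by rw [hl2]; exact hL2⟩

/-- lifting a closed sequence through a surjection with abelian kernel -/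
theorem lift {G Q : Type} [Group G] [Finite G] [Group Q] {A : Set G} (hinv : ∀ a ∈ A, a⁻¹ ∈ A)
    (hgen : Subgroup.closure A = ⊤) (f : G →* Q)
    (hab : ∀ x ∈ f.ker, ∀ y ∈ f.ker, x * y = y * x) {l : List Q} (hl : CS (f '' A) l)
    (hlen : 3 ≤ l.length) :
    ∃ l', CS A l' ∧ 3 ≤ l'.length ∧ l.length * Nat.card f.ker ≤ 32 * l'.length := by
  classical
  -- lift the entries
  obtain ⟨m, hm1, hm2⟩ : ∃ m : List G, m.map f = l ∧ ∀ a ∈ m, a ∈ A := by
    have h1 := hl.mem
    clear hl hlen
    induction l with
    | nil => exact ⟨[], rfl, by simp⟩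
    | cons a l ih =>
      obtain ⟨m, hm1, hm2⟩ := ih fun b hb => h1 b (by simp [hb])
      obtain ⟨b, hb, hba⟩ := h1 a (by simp)
      refine ⟨b :: m, by rw [List.map_cons, hba, hm1], ?_⟩
      intro c hc
      rcases List.mem_cons.1 hc with rfl | hc
      · exact hb
      · exact hm2 c hc
  have hmlen : m.length = l.length := by rw [← hm1, List.length_map]
  have hft : ∀ k, f (m.take k).prod = (l.take k).prod := by
    intro k
    rw [← hm1, ← List.map_take, map_list_prod]
  -- the partial products, starting with the empty one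
  have hinj : ∀ i j, i < l.length → j < l.length → f (m.take i).prod = f (m.take j).prod →
      i = j := by
    have key : ∀ i j, i < j → j < l.length → f (m.take i).prod ≠ f (m.take j).prod := by
      intro i j hij hj h
      rw [hft, hft] at h
      by_cases hi : i = 0
      · subst hi
        refine hl.distinct j l.length (by omega) hj le_rfl ?_
        rw [← h, List.take_length, hl.closed, List.take_zero, List.prod_nil]
      · exact hl.distinct i j (by omega) hij hj.le h
    intro i j hi hj h
    rcases lt_trichotomy i j with h1 | h1 | h1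
    · exact absurd h (key i j h1 hj)
    · exact h1
    · exact absurd h.symm (key j i h1 hi)
  set p : List G := (List.range l.length).map fun i => (m.take i).prod with hp
  have hplen : p.length = l.length := by rw [hp, List.length_map, List.length_range]
  have hstep : ∀ i, (hi : i < l.length) →
      (m.take (i + 1)).prod = (m.take i).prod * m[i]'(by omega) := by
    intro i hi
    rw [List.take_succ_eq_append_getElem (by omega), List.prod_append]
    simp
  have hadj : ∀ i, i + 1 ≤ l.length → (m.take i).prod ≠ (m.take (i + 1)).prod →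
      (cay A).Adj (m.take i).prod (m.take (i + 1)).prod := by
    intro i hi hne
    rw [cay_adj hinv]
    refine ⟨hne, ?_⟩
    rw [hstep i (by omega), inv_mul_cancel_left]
    exact hm2 _ (List.getElem_mem _)
  have hP : P (cay A) {z | z ∈ p} (m.take 0).prod (m.take (l.length - 1)).prod p := by
    refine ⟨?_, ?_, ?_, ?_, fun _ hz => hz⟩
    · rw [hp]
      refine List.Nodup.map_on ?_ List.nodup_range
      intro i hi j hj h
      rw [List.mem_range] at hi hj
      exact hinj i j hi hj (by rw [h])
    · rw [List.isChain_iff_getElem]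
      intro i hi
      rw [hplen] at hi
      simp only [hp, List.getElem_map, List.getElem_range]
      refine hadj i (by omega) ?_
      intro h
      have := hinj i (i + 1) (by omega) hi (by rw [h])
      omega
    · obtain ⟨n', hn'⟩ : ∃ n', l.length = n' + 1 := ⟨l.length - 1, by omega⟩
      rw [hp, hn', List.range_succ_eq_map]
      rfl
    · rw [List.getLast?_eq_getElem?, hplen, List.getElem?_eq_getElem (by omega)]
      simp only [hp, List.getElem_map, List.getElem_range]
  have hmem : m.prod ∈ f.ker := by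
    have h1 := hft l.length
    rw [← hmlen, List.take_length, hmlen, List.take_length, hl.closed] at h1
    exact h1
  have hN := of_abelian hinv hgen f.ker hab
  obtain ⟨l', h1, h2, h3⟩ := hN.2 p _ _ hP (by
      intro x hx y hy v hv hvx
      rw [hp, List.mem_map] at hx hy
      obtain ⟨i, hi, rfl⟩ := hx
      obtain ⟨j, hj, rfl⟩ := hy
      rw [List.mem_range] at hi hj
      have h1 : f (m.take i).prod = f (m.take j).prod := by
        rw [← hvx, map_mul, MonoidHom.mem_ker.1 hv, one_mul]
      rw [hinj i j hi hj h1]) (by rw [hplen]; exact hlen) m.prod hmem (by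
      rw [List.take_zero, List.prod_nil, mul_one]
      have h4 : m.prod = (m.take (l.length - 1 + 1)).prod := by
        rw [show l.length - 1 + 1 = m.length by omega, List.take_length]
      rw [h4]
      refine hadj _ (by omega) ?_
      intro h5
      have h6 : f (m.take (l.length - 1)).prod = f (m.take 0).prod := by
        rw [h5, ← h4, MonoidHom.mem_ker.1 hmem]
        simp
      have := hinj _ _ (by omega) (by omega) h6
      omega)
  refine ⟨l', h1, h2, ?_⟩
  rwa [hplen] at h3

end

end Pool.Agent.J4H54.LC
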