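import Pool.Agent.J4H54.LC.Paths

set_option autoImplicit false

/-!
# Sets any two points of which are joined by a long path
-/

namespace Pool.Agent.J4H54.LC

open List

variable {X : Type*} {G : SimpleGraph X}

/-- any two distinct points of `M` are joined inside `M` by a path with at least `n / 2` vertices -/
def J (G : SimpleGraph X) (n : ℕ) (M : Set X) : Prop :=
  ∀ x ∈ M, ∀ y ∈ M, x ≠ y → ∃ L, P G M x y L ∧ n ≤ 2 * L.length

/-- a cycle has this property -/
theorem J_cycle {C : List X} (hnd : C.Nodup) (hch : C.IsChain G.Adj)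
    (hcl : ∀ x ∈ C.head?, ∀ y ∈ C.getLast?, G.Adj y x) : J G C.length {x | x ∈ C} := by
  -- one order of the two points
  have key : ∀ (l1 l2 l3 : List X) (x y : X), C = l1 ++ x :: (l2 ++ y :: l3) →
      ∃ L, P G {x | x ∈ C} x y L ∧ C.length ≤ 2 * L.length := by
    intro l1 l2 l3 x y hC
    have hlen : C.length = l1.length + l2.length + l3.length + 2 := by
      rw [hC]
      simp only [List.length_append, List.length_cons]
      omega
    by_cases h : C.length ≤ 2 * (l2.length + 2)
    · refine ⟨x :: (l2 ++ [y]), ⟨?_, ?_, rfl, ?_, ?_⟩, ?_⟩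
      · rw [hC] at hnd
        have h1 := (List.nodup_append.1 hnd).2.1
        have e : x :: (l2 ++ y :: l3) = (x :: (l2 ++ [y])) ++ l3 := by simp
        rw [e] at h1
        exact (List.nodup_append.1 h1).1
      · rw [hC] at hch
        have h1 := (List.isChain_append.1 hch).2.1
        have e : x :: (l2 ++ y :: l3) = (x :: (l2 ++ [y])) ++ l3 := by simp
        rw [e] at h1
        exact (List.isChain_append.1 h1).1
      · have e : x :: (l2 ++ [y]) = (x :: l2) ++ [y] := by simp
        rw [e, List.getLast?_append]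
        rfl
      · intro z hz
        show z ∈ C
        rw [hC]
        simp only [List.mem_cons, List.mem_append, List.not_mem_nil, or_false] at hz ⊢
        tauto
      · simp only [List.length_cons, List.length_append, List.length_nil]
        omega
    · -- the other arc
      have hA : P G {x | x ∈ C} y x ((y :: l3) ++ (l1 ++ [x])) := by
        rw [hC] at hnd hch
        have e : l1 ++ x :: (l2 ++ y :: l3) = (l1 ++ [x]) ++ (l2 ++ (y :: l3)) := by simp
        rw [e] at hnd hch
        have n1 := (List.nodup_append.1 hnd).1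
        have n2 := (List.nodup_append.1 (List.nodup_append.1 hnd).2.1).2.1
        have c1 := (List.isChain_append.1 hch).1
        have c2 := (List.isChain_append.1 (List.isChain_append.1 hch).2.1).2.1
        refine ⟨?_, ?_, rfl, ?_, ?_⟩
        · rw [List.nodup_append]
          refine ⟨n2, n1, ?_⟩
          intro a ha b hb hab
          refine (List.nodup_append.1 hnd).2.2 b hb a ?_ hab.symm
          exact List.mem_append.2 (Or.inr ha)
        · rw [List.isChain_append]
          refine ⟨c2, c1, ?_⟩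
          intro a ha b hb
          refine hcl b ?_ a ?_
          · rw [hC, e, List.head?_append]
            rw [Option.mem_def] at hb
            rw [hb]
            rfl
          · rw [hC, e, List.getLast?_append, List.getLast?_append]
            rw [Option.mem_def] at ha
            rw [ha]
            rfl
        · rw [← List.append_assoc, List.getLast?_append]
          rfl
        · intro z hz
          show z ∈ C
          rw [hC]
          simp only [List.mem_cons, List.mem_append, List.not_mem_nil, or_false] at hz ⊢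
          tauto
      refine ⟨_, hA.rev, ?_⟩
      rw [List.length_reverse]
      simp only [List.length_cons, List.length_append, List.length_nil]
      omega
  intro x hx y hy hxy
  obtain ⟨l1, m, hC⟩ := List.append_of_mem (show x ∈ C from hx)
  have hy' : y ∈ l1 ++ x :: m := hC ▸ hy
  rcases List.mem_append.1 hy' with h | h
  · obtain ⟨l0, l2, h1⟩ := List.append_of_mem h
    have hC2 : C = l0 ++ y :: (l2 ++ x :: m) := by rw [hC, h1]; simp
    obtain ⟨L, hL, hlen⟩ := key l0 l2 m y x hC2
    exact ⟨L.reverse, hL.rev, by rwa [List.length_reverse]⟩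
  · rcases List.mem_cons.1 h with h | h
    · exact absurd h.symm hxy
    · obtain ⟨l2, l3, h1⟩ := List.append_of_mem h
      exact key l1 l2 l3 x y (by rw [hC, h1])

/-- adding an ear -/
theorem J_ear {n : ℕ} {M : Set X} (hM : J G n M) {z w a b : X} {L : List X} (hz : z ∈ M)
    (hw : w ∈ M) (hzw : z ≠ w) (hza : G.Adj z a) (hwb : G.Adj w b) (hL : P G Mᶜ a b L) :
    J G n (M ∪ {x | x ∈ L}) := by
  have hdis : ∀ u ∈ L, u ∉ M := fun u hu => hL.sub u hu
  have hLL : P G {x | x ∈ L} a b L := ⟨hL.nd, hL.ch, hL.hd, hL.lt, fun _ h => h⟩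
  -- from a point of `M` to a point of the ear
  have key : ∀ x ∈ M, ∀ y ∈ L, ∃ N, P G (M ∪ {x | x ∈ L}) x y N ∧ n ≤ 2 * N.length := by
    intro x hx y hy
    obtain ⟨l1, l2, hLe⟩ := List.append_of_mem hy
    by_cases hxz : x = z
    · have hxw : x ≠ w := by rw [hxz]; exact hzw
      obtain ⟨N, hN, hn⟩ := hM x hx w hw hxw
      have h2 := hLL
      rw [hLe] at h2
      have h3 := h2.split.2.rev
      rw [← hLe] at h3
      refine ⟨_, hN.cat h3 hwb ?_, ?_⟩
      · intro u hu hu'
        have h4 := h3.sub u hu'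
        exact hdis u h4 (hN.sub u hu)
      · rw [List.length_append]
        omega
    · obtain ⟨N, hN, hn⟩ := hM x hx z hz hxz
      have h2 := hLL
      rw [hLe] at h2
      have h3 := h2.split.1
      rw [← hLe] at h3
      refine ⟨_, hN.cat h3 hza ?_, ?_⟩
      · intro u hu hu'
        have h4 := h3.sub u hu'
        exact hdis u h4 (hN.sub u hu)
      · rw [List.length_append]
        omega
  have key2 : ∀ (l1 l2 l3 : List X) (x y : X), L = l1 ++ x :: (l2 ++ y :: l3) →
      ∃ N, P G (M ∪ {x | x ∈ L}) x y N ∧ n ≤ 2 * N.length := by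
    intro l1 l2 l3 x y hLe
    obtain ⟨N, hN, hn⟩ := hM z hz w hw hzw
    have h1 : P G {u | u ∈ L} x a (l1 ++ [x]).reverse := by
      have h2 := hLL
      rw [hLe] at h2
      have h3 := h2.split.1.rev
      rwa [← hLe] at h3
    have e : l1 ++ x :: (l2 ++ y :: l3) = (l1 ++ x :: l2) ++ y :: l3 := by simp
    have h2 : P G {u | u ∈ L} b y (y :: l3).reverse := by
      have h2 := hLL
      rw [hLe, e] at h2
      have h3 := h2.split.2.rev
      rwa [← e, ← hLe] at h3
    have hndL := hL.nd
    rw [hLe] at hndL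
    have h3 := h1.cat hN hza.symm (by
      intro u hu hu'
      exact hdis u (h1.sub u hu) (hN.sub u hu'))
    have h4 := h3.cat h2 hwb (by
      intro u hu hu'
      rcases List.mem_append.1 hu with hu | hu
      · rw [e] at hndL
        refine (List.nodup_append.1 hndL).2.2 u ?_ u (List.mem_reverse.1 hu') rfl
        have := List.mem_reverse.1 hu
        simp only [List.mem_append, List.mem_cons, List.not_mem_nil, or_false] at this ⊢
        tauto
      · exact hdis u (h2.sub u hu') (hN.sub u hu))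
    refine ⟨_, h4.mono ?_, ?_⟩
    · rintro u ((hu | hu) | hu)
      · exact Or.inr hu
      · exact Or.inl hu
      · exact Or.inr hu
    · rw [List.length_append, List.length_append]
      omega
  rintro x (hx | hx) y (hy | hy) hxy
  · obtain ⟨N, hN, hn⟩ := hM x hx y hy hxy
    exact ⟨N, hN.mono fun u hu => Or.inl hu, hn⟩
  · exact key x hx y hy
  · obtain ⟨N, hN, hn⟩ := key y hy x hx
    exact ⟨N.reverse, hN.rev, by rwa [List.length_reverse]⟩
  · obtain ⟨l1, m, hLe⟩ := List.append_of_mem (show x ∈ L from hx)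
    have hy' : y ∈ l1 ++ x :: m := hLe ▸ hy
    rcases List.mem_append.1 hy' with h | h
    · obtain ⟨l0, l2, h1⟩ := List.append_of_mem h
      have hC2 : L = l0 ++ y :: (l2 ++ x :: m) := by rw [hLe, h1]; simp
      obtain ⟨N, hN, hlen⟩ := key2 l0 l2 m y x hC2
      exact ⟨N.reverse, hN.rev, by rwa [List.length_reverse]⟩
    · rcases List.mem_cons.1 h with h | h
      · exact absurd h.symm hxy
      · obtain ⟨l2, l3, h1⟩ := List.append_of_mem h
        exact key2 l1 l2 l3 x y (by rw [hLe, h1])

/-- a root of `t`: the point of `M` at which the branch of `t` is attached -/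
def Rt (G : SimpleGraph X) (T M : Set X) (z t : X) : Prop :=
  z ∈ M ∧ (t = z ∨ (∃ a, G.Adj z a ∧ Cn G (T \ M) a t))

theorem Rt.self {T M : Set X} {z : X} (hz : z ∈ M) : Rt G T M z z := ⟨hz, Or.inl rfl⟩

theorem Rt.eq {T M : Set X} {z t : X} (h : Rt G T M z t) (ht : t ∈ M) : t = z := by
  rcases h.2 with h | ⟨a, _, ha⟩
  · exact h
  · exact absurd ht ha.right.2

/-- the properties of a maximal set with property `J` -/
structure Core (G : SimpleGraph X) (n : ℕ) (T M : Set X) : Prop where
  sub : M ⊆ T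
  j : J G n M
  max : ∀ M', M ⊆ M' → M' ⊆ T → J G n M' → M' ⊆ M

theorem exists_core [Finite X] {n : ℕ} {T C : Set X} (hC : J G n C) (hCT : C ⊆ T) :
    ∃ M, C ⊆ M ∧ Core G n T M := by
  obtain ⟨M, ⟨h1, h2, h3⟩, hmax⟩ := Set.exists_max_image {M : Set X | C ⊆ M ∧ M ⊆ T ∧ J G n M}
    Set.ncard (Set.toFinite _) ⟨C, subset_rfl, hCT, hC⟩
  refine ⟨M, h1, h2, h3, fun M' h4 h5 h6 => ?_⟩
  have h7 := hmax M' ⟨h1.trans h4, h5, h6⟩
  exact (Set.eq_of_subset_of_ncard_le h4 h7 (Set.toFinite _)).ge

variable {n : ℕ} {T M : Set X}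

theorem exists_rt (hM : M ⊆ T) (hT : ∀ x ∈ T, ∀ y ∈ T, Cn G T x y)
    (hne : M.Nonempty) {t : X} (ht : t ∈ T) : ∃ z, Rt G T M z t := by
  obtain ⟨m, hm⟩ := hne
  obtain ⟨p, hp⟩ := hT t ht m (hM hm)
  by_cases htM : t ∈ M
  · exact ⟨t, Rt.self htM⟩
  have key : ∀ (u v : X) (p : G.Walk u v), v ∈ M → (∀ z ∈ p.support, z ∈ T) → u ∉ M →
      ∃ z ∈ M, ∃ a, G.Adj z a ∧ Cn G (T \ M) a u := by
    intro u v p
    induction p with
    | nil => intro h1 _ h2; exact absurd h1 h2
    | @cons u w v h p ih =>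
      intro h1 h2 h3
      have huT : u ∈ T := h2 u (by simp)
      by_cases hw : w ∈ M
      · exact ⟨w, hw, u, h.symm, Cn.refl ⟨huT, h3⟩⟩
      · obtain ⟨z, hz, a, ha, hau⟩ := ih h1 (fun z hz => h2 z (by simp [hz])) hw
        exact ⟨z, hz, a, ha, hau.trans (Cn.adj hau.right ⟨huT, h3⟩ h.symm)⟩
  obtain ⟨z, hz, a, ha⟩ := key t m p hm hp htM
  exact ⟨z, hz, Or.inr ⟨a, ha⟩⟩

theorem Core.rt_unique (hM : Core G n T M) {z w t : X} (h : Rt G T M z t) (h' : Rt G T M w t) :
    z = w := by
  rcases h.2 with h1 | ⟨a, ha, hat⟩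
  · rw [h1] at h'
    exact h'.eq h.1
  · rcases h'.2 with h1 | ⟨b, hb, hbt⟩
    · rw [h1] at h
      exact (h.eq h'.1).symm
    · by_contra hzw
      obtain ⟨L, hL⟩ := (hat.trans hbt.symm).path
      have h3 := J_ear hM.j h.1 h'.1 hzw ha hb (hL.mono fun u hu => hu.2)
      have h4 := hM.max _ (fun u hu => Or.inl hu) (by
        rintro u (hu | hu)
        · exact hM.sub hu
        · exact (hL.sub u hu).1) h3
      exact (hL.sub a hL.fst_mem).2 (h4 (Or.inr hL.fst_mem))

/-- a path from a point to its root -/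
theorem Rt.fiber_path {z t : X} (h : Rt G T M z t) :
    ∃ L, P G {u | Rt G T M z u} t z L := by
  rcases h.2 with h1 | ⟨a, ha, hat⟩
  · subst h1
    exact ⟨_, P.single h⟩
  · obtain ⟨L, hL⟩ := hat.symm.path
    have h2 : P G {u | Rt G T M z u} t a L := by
      refine ⟨hL.nd, hL.ch, hL.hd, hL.lt, fun u hu => ?_⟩
      exact ⟨h.1, Or.inr ⟨a, ha, hat.trans (hL.cn_mem hu)⟩⟩
    have h3 : P G {u | Rt G T M z u} z z [z] := P.single (Rt.self h.1)
    refine ⟨L ++ [z], (h2.cat h3 ha.symm ?_).mono (by simp)⟩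
    intro u hu hu'
    rw [List.mem_singleton] at hu'
    subst hu'
    exact (hL.sub u hu).2 h.1

theorem Rt.mem {z t : X} (h : Rt G T M z t) (hM : M ⊆ T) : t ∈ T := by
  rcases h.2 with h1 | ⟨a, _, ha⟩
  · rw [h1]; exact hM h.1
  · exact ha.right.1

/-- points with different roots are joined by a long path -/
theorem Core.good (hM : Core G n T M) {z w x y : X} (hx : Rt G T M z x) (hy : Rt G T M w y)
    (hzw : z ≠ w) : ∃ L, P G T x y L ∧ n ≤ 2 * L.length := by
  obtain ⟨L1, h1⟩ := hx.fiber_path
  obtain ⟨L2, h2⟩ := hy.fiber_path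
  obtain ⟨N, hN, hn⟩ := hM.j z hx.1 w hy.1 hzw
  obtain ⟨L3, h3, -, h5⟩ := h1.glue hN (by
    intro u hu huM
    exact Rt.eq hu huM)
  obtain ⟨L4, h4, h6, -⟩ := h3.glue h2.rev (by
    rintro u (hu | hu) hu'
    · exact absurd (hM.rt_unique hu hu') hzw
    · exact Rt.eq hu' hu)
  refine ⟨L4, h4.mono ?_, by omega⟩
  rintro u ((hu | hu) | hu)
  · exact Rt.mem hu hM.sub
  · exact hM.sub hu
  · exact Rt.mem hu hM.sub

/-- adjacent points with different roots are these roots -/
theorem Core.adj_eq (hM : Core G n T M) {z w x y : X} (hx : Rt G T M z x) (hy : Rt G T M w y)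
    (hzw : z ≠ w) (hxy : G.Adj x y) : x = z ∧ y = w := by
  have key : ∀ {z w x y : X}, Rt G T M z x → Rt G T M w y → z ≠ w → G.Adj x y → x = z := by
    intro z w x y hx hy hzw hxy
    rcases hx.2 with h1 | ⟨a, ha, hax⟩
    · exact h1
    · exfalso
      apply hzw
      by_cases hyM : y ∈ M
      · have h2 : y = w := hy.eq hyM
        have h3 : Rt G T M y x := ⟨hyM, Or.inr ⟨x, hxy.symm, Cn.refl hax.right⟩⟩
        rw [← h2]
        exact hM.rt_unique hx h3
      · have h3 : Rt G T M z y :=
          ⟨hx.1, Or.inr ⟨a, ha, hax.trans (Cn.adj hax.right ⟨hy.mem hM.sub, hyM⟩ hxy)⟩⟩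
        exact hM.rt_unique h3 hy
  exact ⟨key hx hy hzw hxy, key hy hx hzw.symm hxy.symm⟩

end Pool.Agent.J4H54.LC
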