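import Pool.Agent.J4H54.LC.Word

set_option autoImplicit false
set_option linter.unusedSectionVars false

/-!
# Closed words with many good transitions: one generator
-/

namespace Pool.Agent.J4H54.LC

open List

section

variable {V E : Type*} [AddCommGroup V] (val : E → V)

/-- words all whose steps are equal to `v` -/
theorem tr_const {v : V} {w : List E} (h : ∀ c ∈ w, val c = v) (s : V) :
    s :: tr val s w = (List.range (w.length + 1)).map fun j => s + j • v := by
  induction w generalizing s with
  | nil => simp
  | cons c w ih =>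
    rw [tr_cons, h c (by simp), ih (fun d hd => h d (by simp [hd])), List.length_cons]
    rw [List.range_succ_eq_map (n := w.length + 1), List.map_cons, List.map_map, zero_nsmul,
      add_zero]
    congr 1
    apply List.map_congr_left
    intro j _
    simp only [Function.comp_apply]
    rw [Nat.succ_eq_add_one, succ_nsmul, add_assoc, add_comm v]

theorem sm_const {v : V} {w : List E} (h : ∀ c ∈ w, val c = v) : sm val w = w.length • v := by
  induction w with
  | nil => simp
  | cons c w ih =>
    rw [sm_cons, h c (by simp), ih (fun d hd => h d (by simp [hd])), List.length_cons, succ_nsmul,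
      add_comm]

theorem nodup_const [Finite V] {v : V} {w : List E} (h : ∀ c ∈ w, val c = v)
    (hl : w.length < addOrderOf v) (s : V) : (s :: tr val s w).Nodup := by
  rw [tr_const val h]
  refine List.Nodup.map_on ?_ List.nodup_range
  intro i hi j hj hij
  rw [List.mem_range] at hi hj
  have h1 : i • v = j • v := add_left_cancel hij
  exact nsmul_injOn_Iio_addOrderOf (show i < _ by omega) (show j < _ by omega) h1

end

section

variable {V : Type} [AddCommGroup V] [Finite V] {E : Type*} (val : E → V) (Gd : E → E → Prop)

/-- the conclusion: a closed word with many good transitions -/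
def Out (val : E → V) (Gd : E → E → Prop) : Prop :=
  ∃ (w : List E) (c : E), Cw val w c ∧ Nat.card V ≤ 16 * gd Gd (c :: (w ++ [c])) ∧
    3 ≤ w.length + 1 + gd Gd (c :: (w ++ [c]))

theorem Kp.const {v : V} {w : List E} (h : ∀ c ∈ w, val c = v) (hl : w.length < addOrderOf v) :
    Kp val (AddSubgroup.zmultiples v) w where
  mem := fun c hc => by rw [h c hc]; exact AddSubgroup.mem_zmultiples v
  nd := nodup_const val h hl 0

theorem zmul_words {c : E} {k : V} (hk : k ∈ AddSubgroup.zmultiples (val c)) :
    ∃ τ : List E, Kp val (AddSubgroup.zmultiples (val c)) τ ∧ sm val τ = k := by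
  classical
  rw [mem_zmultiples_iff_mem_range_addOrderOf, Finset.mem_image] at hk
  obtain ⟨i, hi, rfl⟩ := hk
  rw [Finset.mem_range] at hi
  have h1 : ∀ d ∈ List.replicate i c, val d = val c := by
    intro d hd
    rw [List.eq_of_mem_replicate hd]
  refine ⟨List.replicate i c, Kp.const val h1 (by simpa using hi), ?_⟩
  rw [sm_const val h1, List.length_replicate]

theorem card_zmul (v : V) :
    Nat.card V = addOrderOf v * Nat.card (V ⧸ AddSubgroup.zmultiples v) := by
  rw [AddSubgroup.card_eq_card_quotient_mul_card_addSubgroup (AddSubgroup.zmultiples v),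
    Nat.card_zmultiples, mul_comm]

theorem gd_replicate {c : E} (hc : Gd c c) (i : ℕ) : gd Gd (List.replicate (i + 1) c) = i := by
  induction i with
  | zero => simp
  | succ i ih =>
    rw [List.replicate_succ, List.replicate_succ, gd_good Gd hc, ← List.replicate_succ, ih]
    omega

theorem two_le_card_quot {K : AddSubgroup V} (hK : K ≠ ⊤) : 2 ≤ Nat.card (V ⧸ K) := by
  have h1 : Nat.card (V ⧸ K) ≠ 1 := by
    intro h
    exact hK (AddSubgroup.index_eq_one.1 h)
  have h2 : 0 < Nat.card (V ⧸ K) := Nat.card_pos
  omega

theorem out_of_closing {K : AddSubgroup V} (hK : K ≠ ⊤) {g : ℕ}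
    (hgen : AddSubgroup.closure (Set.range val) = ⊤) (hsym : ∀ e, ∃ e', val e' = -val e)
    (hb : ∀ prev : E, ∃ ω : List E, Kp val K ω ∧ g ≤ gd Gd (prev :: ω))
    (hw : ∀ k ∈ K, ∃ τ : List E, Kp val K τ ∧ sm val τ = k) (hg : Nat.card K ≤ 8 * g) :
    Out val Gd := by
  obtain ⟨w, c, h1, h2, h3⟩ := closing val Gd hK hgen hsym hb hw
  have h4 := two_le_card_quot hK
  set m := Nat.card (V ⧸ K) with hm
  have h5 : Nat.card V = m * Nat.card K := AddSubgroup.card_eq_card_quotient_mul_card_addSubgroup K
  have h6 : 0 < Nat.card K := Nat.card_pos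
  have h7 : m * Nat.card K ≤ 16 * (g * (m - 1)) := by
    have h8 : m ≤ 2 * (m - 1) := by omega
    calc m * Nat.card K ≤ (2 * (m - 1)) * (8 * g) := Nat.mul_le_mul h8 hg
      _ = 16 * (g * (m - 1)) := by ring
  refine ⟨w, c, h1, by omega, ?_⟩
  have h9 : 0 < m * Nat.card K := Nat.mul_pos (by omega) h6
  omega

/-- first kind: a connection which is good for itself, of order at least three -/
theorem out_one (hgen : AddSubgroup.closure (Set.range val) = ⊤)
    (hsym : ∀ e, ∃ e', val e' = -val e) {c : E} (hc : Gd c c) (h3 : 3 ≤ addOrderOf (val c)) :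
    Out val Gd := by
  obtain ⟨n, hn⟩ : ∃ n, addOrderOf (val c) = n + 3 := ⟨addOrderOf (val c) - 3, by omega⟩
  by_cases hK : AddSubgroup.zmultiples (val c) = ⊤
  · have h1 : Nat.card V = n + 3 := by
      rw [← hn, ← Nat.card_zmultiples, hK, AddSubgroup.card_top]
    have h2 : ∀ d ∈ List.replicate (n + 2) c, val d = val c := by
      intro d hd
      rw [List.eq_of_mem_replicate hd]
    have h4 : c :: (List.replicate (n + 2) c ++ [c]) = List.replicate (n + 3 + 1) c := by
      rw [← List.replicate_succ', ← List.replicate_succ]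
    refine ⟨List.replicate (n + 2) c, c, ⟨?_, ?_⟩, ?_, ?_⟩
    · exact nodup_const val h2 (by rw [List.length_replicate, hn]; omega) 0
    · rw [sm_const val h2, List.length_replicate, ← succ_nsmul]
      have h5 := addOrderOf_nsmul_eq_zero (val c)
      rw [hn] at h5
      exact h5
    · rw [h4, gd_replicate Gd hc, h1]
      omega
    · rw [List.length_replicate]
      omega
  · refine out_of_closing val Gd hK (g := n + 1) hgen hsym ?_ (fun k hk => zmul_words val hk) ?_
    · intro prev
      refine ⟨List.replicate (n + 2) c, Kp.const val ?_ ?_, ?_⟩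
      · intro d hd
        rw [List.eq_of_mem_replicate hd]
      · rw [List.length_replicate, hn]
        omega
      · refine le_trans (le_of_eq ?_) (gd_le_cons Gd prev _)
        rw [gd_replicate Gd hc]
    · rw [Nat.card_zmultiples, hn]
      omega

/-- second kind: two connections with the same step such that everything is good for one of
them -/
theorem out_two (hgen : AddSubgroup.closure (Set.range val) = ⊤)
    (hsym : ∀ e, ∃ e', val e' = -val e) {c c' : E} (hv : val c' = val c) (h0 : val c ≠ 0)
    (hgd : ∀ e, Gd e c ∨ Gd e c') : Out val Gd := by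
  have h2 : 2 ≤ addOrderOf (val c) := by
    have h1 : 0 < addOrderOf (val c) := addOrderOf_pos _
    have h3 : addOrderOf (val c) ≠ 1 := fun h => h0 (AddMonoid.addOrderOf_eq_one_iff.1 h)
    omega
  obtain ⟨n, hn⟩ : ∃ n, addOrderOf (val c) = n + 2 := ⟨addOrderOf (val c) - 2, by omega⟩
  have key : ∀ (k : ℕ) (prev : E), ∃ ω : List E, ω.length = k ∧ (∀ d ∈ ω, val d = val c) ∧
      gd Gd (prev :: ω) = k := by
    intro k
    induction k with
    | zero => intro prev; exact ⟨[], rfl, by simp, by simp⟩
    | succ k ih =>
      intro prev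
      have h1 : ∃ d, val d = val c ∧ Gd prev d := by
        rcases hgd prev with h | h
        · exact ⟨c, rfl, h⟩
        · exact ⟨c', hv, h⟩
      obtain ⟨d, hd, hd'⟩ := h1
      obtain ⟨ω, h3, h4, h5⟩ := ih d
      refine ⟨d :: ω, by simp [h3], ?_, ?_⟩
      · intro e he
        rcases List.mem_cons.1 he with rfl | he
        · exact hd
        · exact h4 e he
      · rw [gd_good Gd hd', h5]
        omega
  by_cases hK : AddSubgroup.zmultiples (val c) = ⊤
  · have h1 : Nat.card V = n + 2 := by
      rw [← hn, ← Nat.card_zmultiples, hK, AddSubgroup.card_top]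
    obtain ⟨ω, h3, h4, h5⟩ := key (n + 1) c
    have h6 : n + 1 ≤ gd Gd (c :: (ω ++ [c])) := by
      rw [← h5, ← List.cons_append]
      exact gd_le_append_right Gd _ _
    refine ⟨ω, c, ⟨?_, ?_⟩, ?_, ?_⟩
    · exact nodup_const val h4 (by omega) 0
    · rw [sm_const val h4, h3, ← succ_nsmul]
      have h5 := addOrderOf_nsmul_eq_zero (val c)
      rw [hn] at h5
      exact h5
    · omega
    · omega
  · refine out_of_closing val Gd hK (g := n + 1) hgen hsym ?_ (fun k hk => zmul_words val hk) ?_
    · intro prev
      obtain ⟨ω, h3, h4, h5⟩ := key (n + 1) prev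
      exact ⟨ω, Kp.const val h4 (by omega), h5.ge⟩
    · rw [Nat.card_zmultiples, hn]
      omega

end

end Pool.Agent.J4H54.LC
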