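import Pool.Agent.J4H54.LC.Gadget

set_option autoImplicit false
set_option linter.unusedSectionVars false
set_option linter.unusedVariables false
set_option linter.unusedSimpArgs false

/-!
# Ladders
-/

namespace Pool.Agent.J4H54.LC

open List

section

variable {E : Type*}

/-- the zigzag through a ladder with `p` rungs, from the lower left to the upper right end -/
def lad (R U D : E) : ℕ → List E
  | 0 => []
  | 1 => [U]
  | 2 => [U, R]
  | (p + 3) => U :: R :: D :: R :: lad R U D (p + 1)

/-- the zigzag from the lower left to the lower right end -/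
def cwd (R U D : E) : ℕ → List E
  | 0 => []
  | 1 => [U, R, D]
  | (p + 2) => U :: R :: D :: R :: cwd R U D p

variable {V : Type*} [AddCommGroup V] (val : E → V) (R U D : E)

theorem lad_head : ∀ p, ∃ l, lad R U D (p + 1) = U :: l
  | 0 => ⟨[], rfl⟩
  | 1 => ⟨[R], rfl⟩
  | (p + 2) => ⟨_, rfl⟩

theorem cwd_head : ∀ p, ∃ l, cwd R U D (p + 1) = U :: l
  | 0 => ⟨[R, D], rfl⟩
  | (p + 1) => ⟨_, rfl⟩

variable (hD : val D = -val U)

include hD in
theorem lad_sm : ∀ p, sm val (lad R U D (p + 1)) = p • val R + val U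
  | 0 => by simp [lad]
  | 1 => by simp [lad, add_comm]
  | (p + 2) => by
    rw [lad, sm_cons, sm_cons, sm_cons, sm_cons, lad_sm p, hD, add_smul, two_nsmul]
    abel

include hD in
theorem cwd_sm : ∀ p, sm val (cwd R U D p) = p • val R
  | 0 => by simp [cwd]
  | 1 => by simp [cwd, hD]
  | (p + 2) => by
    rw [cwd, sm_cons, sm_cons, sm_cons, sm_cons, cwd_sm p, hD, add_smul, two_nsmul]
    abel

include hD in
theorem lad_mem : ∀ (p : ℕ) (s z : V), z ∈ s :: tr val s (lad R U D (p + 1)) →
    ∃ i, i ≤ p ∧ (z = s + i • val R ∨ z = s + val U + i • val R)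
  | 0, s, z, h => by
    simp only [zero_add, lad, tr_cons, tr_nil, List.mem_cons, List.not_mem_nil, or_false] at h
    refine ⟨0, le_rfl, ?_⟩
    simpa using h
  | 1, s, z, h => by
    simp only [lad, tr_cons, tr_nil, List.mem_cons, List.not_mem_nil, or_false] at h
    rcases h with rfl | rfl | rfl
    · exact ⟨0, by omega, by simp⟩
    · exact ⟨0, by omega, by simp⟩
    · exact ⟨1, le_rfl, by simp⟩
  | (p + 2), s, z, h => by
    rw [lad, tr_cons, tr_cons, tr_cons, tr_cons, hD] at h
    have e1 : s + val U + val R + -val U + val R = s + (2 : ℕ) • val R := by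
      rw [two_nsmul]; abel
    have e2 : s + val U + val R + -val U = s + (1 : ℕ) • val R := by
      rw [one_nsmul]; abel
    rw [e1] at h
    rcases List.mem_cons.1 h with h | h
    · exact ⟨0, by omega, by simp [h]⟩
    rcases List.mem_cons.1 h with h | h
    · exact ⟨0, by omega, by simp [h]⟩
    rcases List.mem_cons.1 h with h | h
    · exact ⟨1, by omega, by simp [h]⟩
    rcases List.mem_cons.1 h with h | h
    · exact ⟨1, by omega, Or.inl (by rw [h, e2])⟩
    obtain ⟨i, hi, h1⟩ := lad_mem p _ z h
    refine ⟨i + 2, by omega, ?_⟩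
    rcases h1 with h1 | h1
    · left
      rw [h1, add_smul]
      abel
    · right
      rw [h1, add_smul]
      abel

include hD in
theorem cwd_mem : ∀ (p : ℕ) (s z : V), z ∈ s :: tr val s (cwd R U D p) →
    ∃ i, i ≤ p ∧ (z = s + i • val R ∨ z = s + val U + i • val R)
  | 0, s, z, h => by
    simp only [cwd, tr_nil, List.mem_cons, List.not_mem_nil, or_false] at h
    exact ⟨0, le_rfl, by simp [h]⟩
  | 1, s, z, h => by
    rw [cwd, tr_cons, tr_cons, tr_cons, tr_nil, hD] at h
    have e2 : s + val U + val R + -val U = s + (1 : ℕ) • val R := by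
      rw [one_nsmul]; abel
    simp only [List.mem_cons, List.not_mem_nil, or_false] at h
    rcases h with rfl | rfl | rfl | rfl
    · exact ⟨0, by omega, by simp⟩
    · exact ⟨0, by omega, by simp⟩
    · exact ⟨1, le_rfl, by simp⟩
    · exact ⟨1, le_rfl, Or.inl e2⟩
  | (p + 2), s, z, h => by
    rw [cwd, tr_cons, tr_cons, tr_cons, tr_cons, hD] at h
    have e1 : s + val U + val R + -val U + val R = s + (2 : ℕ) • val R := by
      rw [two_nsmul]; abel
    have e2 : s + val U + val R + -val U = s + (1 : ℕ) • val R := by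
      rw [one_nsmul]; abel
    rw [e1] at h
    rcases List.mem_cons.1 h with h | h
    · exact ⟨0, by omega, by simp [h]⟩
    rcases List.mem_cons.1 h with h | h
    · exact ⟨0, by omega, by simp [h]⟩
    rcases List.mem_cons.1 h with h | h
    · exact ⟨1, by omega, by simp [h]⟩
    rcases List.mem_cons.1 h with h | h
    · exact ⟨1, by omega, Or.inl (by rw [h, e2])⟩
    obtain ⟨i, hi, h1⟩ := cwd_mem p _ z h
    refine ⟨i + 2, by omega, ?_⟩
    rcases h1 with h1 | h1
    · left
      rw [h1, add_smul]
      abel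
    · right
      rw [h1, add_smul]
      abel

/-- the `2 (p + 1)` points of the ladder are distinct -/
structure Inj (val : E → V) (R U : E) (p : ℕ) : Prop where
  one : ∀ i j, i ≤ p → j ≤ p → i • val R = j • val R → i = j
  two : ∀ i j, i ≤ p → j ≤ p → i • val R ≠ val U + j • val R

theorem Inj.mono {val : E → V} {R U : E} {p q : ℕ} (h : Inj val R U q) (hpq : p ≤ q) :
    Inj val R U p :=
  ⟨fun i j hi hj => h.one i j (hi.trans hpq) (hj.trans hpq),
    fun i j hi hj => h.two i j (hi.trans hpq) (hj.trans hpq)⟩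

include hD in
/-- the induction step of the next two lemmas -/
theorem ladder_step {p : ℕ} (s : V) (h : Inj val R U (p + 2)) (l : List V)
    (hl : ((s + (2 : ℕ) • val R) :: l).Nodup)
    (hmem : ∀ z ∈ (s + (2 : ℕ) • val R) :: l, ∃ i, i ≤ p ∧
      (z = s + (2 : ℕ) • val R + i • val R ∨ z = s + (2 : ℕ) • val R + val U + i • val R)) :
    (s :: (s + val U) :: (s + val U + val R) :: (s + val U + val R + val D) ::
      (s + (2 : ℕ) • val R) :: l).Nodup := by
  have e2 : s + val U + val R + val D = s + (1 : ℕ) • val R := by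
    rw [one_nsmul, hD]; abel
  rw [e2]
  have hmem' : ∀ z ∈ (s + (2 : ℕ) • val R) :: l, ∃ i, 2 ≤ i ∧ i ≤ p + 2 ∧
      (z = s + i • val R ∨ z = s + val U + i • val R) := by
    intro z hz
    obtain ⟨i, hi, h1⟩ := hmem z hz
    refine ⟨i + 2, by omega, by omega, ?_⟩
    rcases h1 with h1 | h1
    · left
      rw [h1, add_smul]
      abel
    · right
      rw [h1, add_smul]
      abel
  have n1 : ∀ i ≤ 1, s + i • val R ∉ (s + (2 : ℕ) • val R) :: l := by
    intro i hi hz
    obtain ⟨j, hj1, hj2, h1 | h1⟩ := hmem' _ hz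
    · have := h.one i j (by omega) hj2 (add_left_cancel h1)
      omega
    · rw [add_assoc] at h1
      exact h.two i j (by omega) hj2 (add_left_cancel h1)
  have n2 : ∀ i ≤ 1, s + val U + i • val R ∉ (s + (2 : ℕ) • val R) :: l := by
    intro i hi hz
    obtain ⟨j, hj1, hj2, h1 | h1⟩ := hmem' _ hz
    · rw [add_assoc] at h1
      exact h.two j i hj2 (by omega) (add_left_cancel h1).symm
    · have := h.one i j (by omega) hj2 (add_left_cancel h1)
      omega
  have d1 : s ≠ s + val U := by
    intro h1
    apply h.two 0 0 (by omega) (by omega)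
    rw [zero_nsmul, add_zero]
    exact (left_eq_add.1 h1).symm
  have d2 : s ≠ s + val U + val R := by
    intro h1
    apply h.two 0 1 (by omega) (by omega)
    rw [zero_nsmul, one_nsmul]
    rw [add_assoc] at h1
    exact (left_eq_add.1 h1).symm
  have d3 : s ≠ s + (1 : ℕ) • val R := by
    intro h1
    have := h.one 0 1 (by omega) (by omega) (by
      rw [zero_nsmul]
      exact (left_eq_add.1 h1).symm)
    omega
  have d4 : s + val U ≠ s + val U + val R := by
    intro h1
    have := h.one 0 1 (by omega) (by omega) (by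
      rw [zero_nsmul, one_nsmul]
      exact (left_eq_add.1 h1).symm)
    omega
  have d5 : s + val U ≠ s + (1 : ℕ) • val R := by
    intro h1
    apply h.two 1 0 (by omega) (by omega)
    rw [zero_nsmul, add_zero]
    exact (add_left_cancel h1).symm
  have d6 : s + val U + val R ≠ s + (1 : ℕ) • val R := by
    intro h1
    apply h.two 1 1 (by omega) (by omega)
    rw [add_assoc] at h1
    have := add_left_cancel h1
    rw [one_nsmul] at this ⊢
    exact this.symm
  have m1 := n1 0 (by omega)
  have m2 := n2 0 (by omega)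
  have m3 := n2 1 (by omega)
  have m4 := n1 1 (by omega)
  rw [zero_nsmul, add_zero] at m1 m2
  rw [one_nsmul] at m3
  refine List.nodup_cons.2 ⟨?_, List.nodup_cons.2 ⟨?_, List.nodup_cons.2 ⟨?_,
    List.nodup_cons.2 ⟨m4, hl⟩⟩⟩⟩
  · rw [List.mem_cons, List.mem_cons, List.mem_cons]
    rintro (h1 | h1 | h1 | h1)
    · exact d1 h1
    · exact d2 h1
    · exact d3 h1
    · exact m1 h1
  · rw [List.mem_cons, List.mem_cons]
    rintro (h1 | h1 | h1)
    · exact d4 h1
    · exact d5 h1
    · exact m2 h1
  · rw [List.mem_cons]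
    rintro (h1 | h1)
    · exact d6 h1
    · exact m3 h1

include hD in
theorem lad_nodup : ∀ (p : ℕ) (s : V), Inj val R U p →
    (s :: tr val s (lad R U D (p + 1))).Nodup
  | 0, s, h => by
    have := h.two 0 0 le_rfl le_rfl
    simp only [zero_add, lad, tr_cons, tr_nil, zero_nsmul, add_zero] at this ⊢
    simpa using this.symm
  | 1, s, h => by
    have h1 := h.two 0 0 (by omega) (by omega)
    have h2 := h.two 0 1 (by omega) (by omega)
    have h3 : val R ≠ 0 := by
      intro h3
      have := h.one 0 1 (by omega) (by omega) (by rw [one_nsmul, h3, zero_nsmul])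
      omega
    simp only [lad, tr_cons, tr_nil, zero_nsmul, add_zero, one_nsmul] at h1 h2 ⊢
    simp only [List.nodup_cons, List.mem_cons, List.not_mem_nil, or_false, not_false_eq_true,
      List.nodup_nil, and_true, not_or]
    refine ⟨⟨?_, ?_⟩, ?_⟩
    · simpa using h1.symm
    · rw [add_assoc]
      simpa using h2.symm
    · simpa using h3
  | (p + 2), s, h => by
    rw [lad, tr_cons, tr_cons, tr_cons, tr_cons]
    have e1 : s + val U + val R + val D + val R = s + (2 : ℕ) • val R := by
      rw [two_nsmul, hD]; abel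
    rw [e1]
    exact ladder_step val R U D hD s h _ (lad_nodup p _ (h.mono (by omega)))
      (fun z hz => lad_mem val R U D hD p _ z hz)

include hD in
theorem cwd_nodup : ∀ (p : ℕ) (s : V), Inj val R U p →
    (s :: tr val s (cwd R U D p)).Nodup
  | 0, s, h => by
    simp [cwd]
  | 1, s, h => by
    have h1 := h.two 0 0 (by omega) (by omega)
    have h2 := h.two 0 1 (by omega) (by omega)
    have h4 := h.two 1 0 (by omega) (by omega)
    have h5 := h.two 1 1 (by omega) (by omega)
    have h3 : val R ≠ 0 := by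
      intro h3
      have := h.one 0 1 (by omega) (by omega) (by rw [one_nsmul, h3, zero_nsmul])
      omega
    have e1 : s + val U + val R + val D = s + val R := by
      rw [hD]; abel
    rw [cwd, tr_cons, tr_cons, tr_cons, tr_nil, e1]
    simp only [zero_nsmul, add_zero, one_nsmul] at h1 h2 h4 h5 ⊢
    simp only [List.nodup_cons, List.mem_cons, List.not_mem_nil, or_false, not_false_eq_true,
      List.nodup_nil, and_true, not_or]
    refine ⟨⟨?_, ?_, ?_⟩, ⟨?_, ?_⟩, ?_⟩
    · simpa using h1.symm
    · rw [add_assoc]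
      simpa using h2.symm
    · simpa using h3
    · simpa using h3
    · intro h6
      exact h4 (add_left_cancel h6).symm
    · rw [add_assoc]
      intro h6
      exact h5 (add_left_cancel h6).symm
  | (p + 2), s, h => by
    rw [cwd, tr_cons, tr_cons, tr_cons, tr_cons]
    have e1 : s + val U + val R + val D + val R = s + (2 : ℕ) • val R := by
      rw [two_nsmul, hD]; abel
    rw [e1]
    exact ladder_step val R U D hD s h _ (cwd_nodup p _ (h.mono (by omega)))
      (fun z hz => cwd_mem val R U D hD p _ z hz)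

variable {Gd : E → E → Prop} {R U D}

theorem lad_gd (h1 : Gd U R) (h2 : Gd R D) (h3 : Gd D R) (h4 : Gd R U) :
    ∀ p, 2 * p ≤ gd Gd (lad R U D (p + 1)) + 1
  | 0 => by omega
  | 1 => by
    rw [lad, gd_good Gd h1]
    omega
  | (p + 2) => by
    obtain ⟨l, hl⟩ := lad_head R U D p
    have ih := lad_gd h1 h2 h3 h4 p
    rw [lad, gd_good Gd h1, gd_good Gd h2, gd_good Gd h3, hl, gd_good Gd h4, ← hl]
    omega

theorem cwd_gd (h1 : Gd U R) (h2 : Gd R D) (h3 : Gd D R) (h4 : Gd R U) :
    ∀ p, 2 * p ≤ gd Gd (cwd R U D p) + 1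
  | 0 => by omega
  | 1 => by
    rw [cwd, gd_good Gd h1, gd_good Gd h2]
    omega
  | 2 => by
    rw [cwd, gd_good Gd h1, gd_good Gd h2, gd_good Gd h3]
    omega
  | (p + 3) => by
    obtain ⟨l, hl⟩ := cwd_head R U D p
    have ih := cwd_gd h1 h2 h3 h4 (p + 1)
    rw [cwd, gd_good Gd h1, gd_good Gd h2, gd_good Gd h3, hl, gd_good Gd h4, ← hl]
    omega

/-- stacking blocks on different levels -/
theorem stack {Lv : V → ℕ → Prop} {h d : ℕ}
    (huniq : ∀ z i j, i < h → j < h → Lv z i → Lv z j → i = j) {B : List E} {c : E}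
    (hB : ∀ z i, Lv z i → (z :: tr val z B).Nodup ∧
      (∀ u ∈ z :: tr val z B, ∃ j, i ≤ j ∧ j < i + d ∧ Lv u j) ∧
      Lv (z + sm val B + val c) (i + d)) :
    ∀ (t : ℕ) (z : V) (i : ℕ) (w : List E), Lv z i →
      ((z + t • (sm val B + val c)) :: tr val (z + t • (sm val B + val c)) w).Nodup →
      (∀ u ∈ (z + t • (sm val B + val c)) :: tr val (z + t • (sm val B + val c)) w,
        ∃ j, i + d * t ≤ j ∧ j < h ∧ Lv u j) →
      (z :: tr val z ((List.replicate t (B ++ [c])).flatten ++ w)).Nodup ∧
      ∀ u ∈ z :: tr val z ((List.replicate t (B ++ [c])).flatten ++ w),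
        ∃ j, i ≤ j ∧ j < h ∧ Lv u j := by
  intro t
  induction t with
  | zero =>
    intro z i w hz h1 h2
    rw [zero_nsmul, add_zero] at h1 h2
    rw [List.replicate_zero, List.flatten_nil, List.nil_append]
    exact ⟨h1, fun u hu => by simpa using h2 u hu⟩
  | succ t ih =>
    intro z i w hz h1 h2
    set z' : V := z + sm val B + val c with hz'
    have e1 : z + (t + 1) • (sm val B + val c) = z' + t • (sm val B + val c) := by
      rw [succ_nsmul, hz']
      abel
    rw [e1] at h1 h2
    obtain ⟨b1, b2, b3⟩ := hB z i hz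
    have hi : i + d ≤ h := by
      obtain ⟨j, hj1, hj2, -⟩ := h2 _ List.mem_cons_self
      have : d * (t + 1) = d * t + d := Nat.mul_succ d t
      omega
    obtain ⟨c1, c2⟩ := ih z' (i + d) w b3 h1 (by
      intro u hu
      obtain ⟨j, hj1, hj2, hj3⟩ := h2 u hu
      have : d * (t + 1) = d * t + d := Nat.mul_succ d t
      exact ⟨j, by omega, hj2, hj3⟩)
    have e2 : z :: tr val z ((List.replicate (t + 1) (B ++ [c])).flatten ++ w) =
        (z :: tr val z B) ++ (z' :: tr val z' ((List.replicate t (B ++ [c])).flatten ++ w)) := by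
      rw [List.replicate_succ, List.flatten_cons, List.append_assoc, List.append_assoc,
        tr_append, List.cons_append, List.cons_append, tr_cons, List.nil_append]
    rw [e2]
    constructor
    · rw [List.nodup_append]
      refine ⟨b1, c1, ?_⟩
      intro a ha b hb hab
      subst hab
      obtain ⟨j, hj1, hj2, hj3⟩ := b2 a ha
      obtain ⟨k, hk1, hk2, hk3⟩ := c2 a hb
      have := huniq a j k (by omega) hk2 hj3 hk3
      omega
    · intro u hu
      rcases List.mem_append.1 hu with hu | hu
      · obtain ⟨j, hj1, hj2, hj3⟩ := b2 u hu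
        exact ⟨j, hj1, by omega, hj3⟩
      · obtain ⟨j, hj1, hj2, hj3⟩ := c2 u hu
        exact ⟨j, by omega, hj2, hj3⟩

theorem gd_stack (B : List E) (c : E) (t : ℕ) (w : List E) :
    t * gd Gd B + gd Gd w ≤ gd Gd ((List.replicate t (B ++ [c])).flatten ++ w) := by
  induction t with
  | zero => simp
  | succ t ih =>
    rw [List.replicate_succ, List.flatten_cons, List.append_assoc]
    have h1 := gd_append_le Gd (B ++ [c]) ((List.replicate t (B ++ [c])).flatten ++ w)
    have h2 := gd_le_append_right Gd B [c]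
    have h3 : (t + 1) * gd Gd B = t * gd Gd B + gd Gd B := Nat.succ_mul _ _
    omega

theorem sm_stack (B : List E) (c : E) (t : ℕ) (w : List E) :
    sm val ((List.replicate t (B ++ [c])).flatten ++ w) =
      t • (sm val B + val c) + sm val w := by
  induction t with
  | zero => simp
  | succ t ih =>
    rw [List.replicate_succ, List.flatten_cons, List.append_assoc, sm_append, ih, succ_nsmul,
      sm_append, sm_cons, sm_nil]
    abel

/-- the partial sums of a word with constant steps -/
theorem mem_tr_const {v : V} {w : List E} (h : ∀ c ∈ w, val c = v) {s z : V}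
    (hz : z ∈ tr val s w) : ∃ j, 1 ≤ j ∧ j ≤ w.length ∧ z = s + j • v := by
  obtain ⟨w1, w2, h1, h2, h3⟩ := mem_tr val hz
  refine ⟨w1.length, List.length_pos_iff.2 h2, by rw [h1]; simp, ?_⟩
  rw [← h3, sm_const val (fun c hc => h c (by rw [h1]; simp [hc]))]

end

end Pool.Agent.J4H54.LC
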