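import Mathlib

set_option autoImplicit false

/-!
# Paths as lists of vertices

MP_688fd0_co: long cycles in graphs with a free action of an abelian group (basic facts on paths).
-/

namespace Pool.Agent.J4H54.LC

open List

variable {X : Type*}

/-- the list `L` is a path of `G` from `x` to `y` inside `S` -/
structure P (G : SimpleGraph X) (S : Set X) (x y : X) (L : List X) : Prop where
  nd : L.Nodup
  ch : L.IsChain G.Adj
  hd : L.head? = some x
  lt : L.getLast? = some y
  sub : ∀ z ∈ L, z ∈ S

/-- `x` and `y` are joined inside `S` -/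
def Cn (G : SimpleGraph X) (S : Set X) (x y : X) : Prop :=
  ∃ p : G.Walk x y, ∀ z ∈ p.support, z ∈ S

variable {G : SimpleGraph X} {S S' : Set X} {x y z : X} {L L' : List X}

theorem P.mono (h : P G S x y L) (hS : S ⊆ S') : P G S' x y L :=
  ⟨h.nd, h.ch, h.hd, h.lt, fun z hz => hS (h.sub z hz)⟩

theorem P.ne_nil (h : P G S x y L) : L ≠ [] := by
  rintro rfl
  simpa using h.hd

theorem P.fst_mem (h : P G S x y L) : x ∈ L := List.mem_of_head? h.hd

theorem P.lst_mem (h : P G S x y L) : y ∈ L := List.mem_of_getLast? h.lt

theorem P.pos (h : P G S x y L) : 1 ≤ L.length := List.length_pos_iff.2 h.ne_nil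

theorem P.rev (h : P G S x y L) : P G S y x L.reverse where
  nd := List.nodup_reverse.2 h.nd
  ch := by
    rw [List.isChain_reverse]
    exact h.ch.imp fun a b hab => hab.symm
  hd := by rw [List.head?_reverse]; exact h.lt
  lt := by rw [List.getLast?_reverse]; exact h.hd
  sub := fun z hz => h.sub z (List.mem_reverse.1 hz)

theorem P.single (hx : x ∈ S) : P G S x x [x] :=
  ⟨by simp, by simp, by simp, by simp, by simpa using hx⟩

/-- concatenation along an edge -/
theorem P.cat {u v : X} (h : P G S x u L) (h' : P G S' v y L') (huv : G.Adj u v)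
    (hd : ∀ z ∈ L, z ∉ L') : P G (S ∪ S') x y (L ++ L') where
  nd := by
    rw [List.nodup_append]
    exact ⟨h.nd, h'.nd, fun a ha b hb hab => hd a ha (hab ▸ hb)⟩
  ch := by
    rw [List.isChain_append]
    refine ⟨h.ch, h'.ch, ?_⟩
    intro a ha b hb
    rw [h.lt] at ha
    rw [h'.hd] at hb
    simp only [Option.mem_def, Option.some.injEq] at ha hb
    subst ha hb
    exact huv
  hd := by rw [List.head?_append, h.hd]; rfl
  lt := by rw [List.getLast?_append, h'.lt]; rfl
  sub := by
    intro z hz
    rcases List.mem_append.1 hz with hz | hz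
    · exact Or.inl (h.sub z hz)
    · exact Or.inr (h'.sub z hz)

/-- concatenation at a common vertex -/
theorem P.glue (h : P G S x z L) (h' : P G S' z y L') (hd : ∀ u ∈ S, u ∈ S' → u = z) :
    ∃ M, P G (S ∪ S') x y M ∧ L.length ≤ M.length ∧ L'.length ≤ M.length := by
  have hL' : L' = z :: L'.tail := by
    have := h'.hd
    cases L' with
    | nil => simp at this
    | cons a l => simp at this; simp [this]
  by_cases ht : L'.tail = []
  · have hL1 : L' = [z] := by rw [hL', ht]
    have hy : z = y := by
      have := h'.lt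
      rw [hL1] at this
      simpa using this
    subst hy
    refine ⟨L, h.mono (fun u hu => Or.inl hu), le_rfl, ?_⟩
    rw [hL1]
    exact h.pos
  · obtain ⟨w, l, hl⟩ := List.exists_cons_of_ne_nil ht
    rw [hl] at hL'
    have hnd := h'.nd
    have hch := h'.ch
    have hlt := h'.lt
    have hsub := h'.sub
    rw [hL'] at hnd hch hlt hsub
    have h2 : P G S' w y (w :: l) := by
      refine ⟨(List.nodup_cons.1 hnd).2, hch.of_cons, rfl, ?_, fun u hu => hsub u (by simp [hu])⟩
      rw [List.getLast?_cons_cons] at hlt
      exact hlt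
    have hzw : G.Adj z w := by
      have := hch
      rw [List.isChain_cons_cons] at this
      exact this.1
    refine ⟨L ++ (w :: l), h.cat h2 hzw ?_, by simp, ?_⟩
    · intro u hu hu'
      have := hd u (h.sub u hu) (h2.sub u hu')
      subst this
      exact (List.nodup_cons.1 hnd).1 hu'
    · rw [hL']
      have := h.pos
      simp only [List.length_cons, List.length_append]
      omega

theorem Cn.refl (hx : x ∈ S) : Cn G S x x := ⟨.nil, by simpa using hx⟩

theorem Cn.symm (h : Cn G S x y) : Cn G S y x := by
  obtain ⟨p, hp⟩ := h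
  refine ⟨p.reverse, fun z hz => hp z ?_⟩
  rwa [SimpleGraph.Walk.support_reverse, List.mem_reverse] at hz

theorem Cn.trans (h : Cn G S x y) (h' : Cn G S y z) : Cn G S x z := by
  obtain ⟨p, hp⟩ := h
  obtain ⟨q, hq⟩ := h'
  refine ⟨p.append q, fun u hu => ?_⟩
  rw [SimpleGraph.Walk.mem_support_append_iff] at hu
  rcases hu with hu | hu
  · exact hp u hu
  · exact hq u hu

theorem Cn.mono (h : Cn G S x y) (hS : S ⊆ S') : Cn G S' x y := by
  obtain ⟨p, hp⟩ := h
  exact ⟨p, fun z hz => hS (hp z hz)⟩

theorem Cn.adj (hx : x ∈ S) (hy : y ∈ S) (h : G.Adj x y) : Cn G S x y := by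
  refine ⟨.cons h .nil, ?_⟩
  intro z hz
  simp only [SimpleGraph.Walk.support_cons, SimpleGraph.Walk.support_nil, List.mem_cons,
    List.not_mem_nil, or_false] at hz
  rcases hz with rfl | rfl
  · exact hx
  · exact hy

theorem Cn.left (h : Cn G S x y) : x ∈ S := by
  obtain ⟨p, hp⟩ := h
  exact hp x p.start_mem_support

theorem Cn.right (h : Cn G S x y) : y ∈ S := h.symm.left

theorem Cn.path (h : Cn G S x y) : ∃ L, P G S x y L := by
  classical
  obtain ⟨p, hp⟩ := h
  refine ⟨p.bypass.support, ⟨?_, ?_, ?_, ?_, ?_⟩⟩
  · exact (SimpleGraph.Walk.isPath_def _).1 p.bypass_isPath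
  · exact p.bypass.isChain_adj_support
  · rw [List.head?_eq_some_head p.bypass.support_ne_nil, SimpleGraph.Walk.head_support]
  · rw [List.getLast?_eq_some_getLast p.bypass.support_ne_nil, SimpleGraph.Walk.getLast_support]
  · intro z hz
    exact hp z (p.support_bypass_subset_support hz)

theorem P.cn_mem (h : P G S x y L) (hz : z ∈ L) : Cn G S x z := by
  induction L generalizing x with
  | nil => simp at hz
  | cons a l ih =>
    have ha : a = x := by simpa using h.hd
    subst ha
    have haS : a ∈ S := h.sub a (by simp)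
    rcases List.mem_cons.1 hz with rfl | hz
    · exact Cn.refl haS
    · cases l with
      | nil => simp at hz
      | cons b l =>
        have hch := h.ch
        rw [List.isChain_cons_cons] at hch
        have h2 : P G S b y (b :: l) := by
          refine ⟨(List.nodup_cons.1 h.nd).2, hch.2, rfl, ?_, fun u hu => h.sub u (by simp [hu])⟩
          have := h.lt
          rwa [List.getLast?_cons_cons] at this
        exact (Cn.adj haS (h.sub b (by simp)) hch.1).trans (ih h2 hz)

theorem P.cn (h : P G S x y L) : Cn G S x y := h.cn_mem h.lst_mem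

/-- a path inside the set of vertices joined to its end -/
theorem P.comp (h : P G S x y L) : P G {u | Cn G S x u} x y L :=
  ⟨h.nd, h.ch, h.hd, h.lt, fun _ hz => h.cn_mem hz⟩

/-- splitting a path -/
theorem P.split {l m : List X} (h : P G S x y (l ++ z :: m)) :
    P G S x z (l ++ [z]) ∧ P G S z y (z :: m) := by
  have hnd := h.nd
  have hch := h.ch
  have e : l ++ z :: m = (l ++ [z]) ++ m := by simp
  constructor
  · rw [e] at hnd hch
    refine ⟨(List.nodup_append.1 hnd).1, (List.isChain_append.1 hch).1, ?_, by simp, ?_⟩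
    · cases l with
      | nil => simpa using h.hd
      | cons a l => simpa using h.hd
    · intro u hu
      apply h.sub
      rw [e]
      exact List.mem_append.2 (Or.inl hu)
  · refine ⟨(List.nodup_append.1 hnd).2.1, (List.isChain_append.1 hch).2.1, by simp, ?_, ?_⟩
    · have := h.lt
      rw [List.getLast?_append] at this
      have h2 : (z :: m).getLast?.isSome := by simp
      obtain ⟨w, hw⟩ := Option.isSome_iff_exists.1 h2
      rw [hw] at this ⊢
      simpa using this
    · intro u hu
      apply h.sub
      exact List.mem_append.2 (Or.inr hu)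

/-- a cyclic list of at least three vertices -/
structure Cyl (G : SimpleGraph X) (L : List X) : Prop where
  nd : L.Nodup
  ch : L.IsChain G.Adj
  len : 3 ≤ L.length
  cl : ∀ x ∈ L.head?, ∀ y ∈ L.getLast?, G.Adj y x

end Pool.Agent.J4H54.LC
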