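import Pool.Agent.J4H54.LC.Cayley

set_option autoImplicit false
set_option linter.unusedSectionVars false

/-!
# Solvable normal subgroups
-/

namespace Pool.Agent.J4H54.LC

open List

theorem lift_zero {G Q : Type} [Group G] [Group Q] {A : Set G} (f : G →* Q)
    (hf : ∀ x ∈ f.ker, x = 1) {l : List Q} (hl : CS (f '' A) l) :
    ∃ l', CS A l' ∧ l'.length = l.length := by
  obtain ⟨m, hm1, hm2⟩ : ∃ m : List G, m.map f = l ∧ ∀ a ∈ m, a ∈ A := by
    have h1 := hl.mem
    clear hl
    induction l with
    | nil => exact ⟨[], rfl, by simp⟩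
    | cons a l ih =>
      obtain ⟨m, hm1, hm2⟩ := ih fun b hb => h1 b (by simp [hb])
      obtain ⟨b, hb, hba⟩ := h1 a (by simp)
      refine ⟨b :: m, by rw [List.map_cons, hba, hm1], ?_⟩
      intro c hc
      rcases List.mem_cons.1 hc with rfl | hc
      · exact hb
      · exact hm2 c hc
  have hmlen : m.length = l.length := by rw [← hm1, List.length_map]
  have hft : ∀ k, f (m.take k).prod = (l.take k).prod := by
    intro k
    rw [← hm1, ← List.map_take, map_list_prod]
  refine ⟨m, ⟨hm2, ?_, ?_⟩, hmlen⟩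
  · intro j k hj hjk hk h
    refine hl.distinct j k hj hjk (by omega) ?_
    rw [← hft, ← hft, h]
  · apply hf
    have h1 := hft l.length
    rw [← hmlen, List.take_length, hmlen, List.take_length, hl.closed] at h1
    exact h1

theorem comm_of_commutator {G : Type*} [Group G] {H : Subgroup G} (h : ⁅H, H⁆ = ⊥) :
    ∀ x ∈ H, ∀ y ∈ H, x * y = y * x := by
  intro x hx y hy
  have h1 := Subgroup.commutator_eq_bot_iff_le_centralizer.1 h hx
  exact ((Subgroup.mem_centralizer_iff.1 h1) y hy).symm

theorem gen_image {G Q : Type*} [Group G] [Group Q] {A : Set G}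
    (hgen : Subgroup.closure A = ⊤) (f : G →* Q) (hf : Function.Surjective f) :
    Subgroup.closure (f '' A) = ⊤ := by
  rw [← MonoidHom.map_closure, hgen, ← MonoidHom.range_eq_map]
  exact MonoidHom.range_eq_top.2 hf

theorem inv_image {G Q : Type*} [Group G] [Group Q] {A : Set G} (hinv : ∀ a ∈ A, a⁻¹ ∈ A)
    (f : G →* Q) : ∀ a ∈ f '' A, a⁻¹ ∈ f '' A := by
  rintro _ ⟨a, ha, rfl⟩
  exact ⟨a⁻¹, hinv a ha, map_inv f a⟩

/-- lifting a closed sequence through a homomorphism with solvable kernel -/
theorem lift_solv (d : ℕ) : ∀ (G : Type) [Group G] [Finite G] (A : Set G),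
    (∀ a ∈ A, a⁻¹ ∈ A) → Subgroup.closure A = ⊤ → ∀ (Q : Type) [Group Q] (f : G →* Q),
    derivedSeries f.ker d = ⊥ → ∀ l : List Q, CS (f '' A) l → 3 ≤ l.length →
    ∃ l', CS A l' ∧ 3 ≤ l'.length ∧ l.length * Nat.card f.ker ≤ 32 ^ d * l'.length := by
  induction d with
  | zero =>
    intro G _ _ A hinv hgen Q _ f hd l hl hlen
    rw [derivedSeries_zero] at hd
    have h1 : ∀ x ∈ f.ker, x = 1 := by
      intro x hx
      have h2 : (⟨x, hx⟩ : f.ker) ∈ (⊤ : Subgroup f.ker) := trivial
      rw [hd, Subgroup.mem_bot] at h2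
      exact congrArg Subtype.val h2
    obtain ⟨l', h2, h3⟩ := lift_zero f h1 hl
    have h4 : f.ker = ⊥ := by
      rw [eq_bot_iff]
      intro x hx
      rw [h1 x hx]
      exact Subgroup.one_mem _
    refine ⟨l', h2, by omega, ?_⟩
    rw [h4, Subgroup.card_bot, h3, pow_zero]
    omega
  | succ d ih =>
    intro G _ _ A hinv hgen Q _ f hd l hl hlen
    set K := f.ker with hK
    set M : Subgroup G := (derivedSeries K d).map K.subtype with hM
    have hMn : M.Normal := inferInstance
    have hMK : M ≤ K := by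
      rintro _ ⟨x, -, rfl⟩
      exact x.2
    have hMab : ∀ x ∈ M, ∀ y ∈ M, x * y = y * x := by
      rintro _ ⟨x, hx, rfl⟩ _ ⟨y, hy, rfl⟩
      have := comm_of_commutator (H := derivedSeries K d) (by rw [← derivedSeries_succ]; exact hd)
        x hx y hy
      rw [← map_mul, ← map_mul, this]
    set π : G →* G ⧸ M := QuotientGroup.mk' M with hπ
    have hπs : Function.Surjective π := QuotientGroup.mk'_surjective M
    set f₁ : G ⧸ M →* Q := QuotientGroup.lift M f (fun x hx => MonoidHom.mem_ker.1 (hMK hx))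
      with hf₁
    have hff : ∀ x, f₁ (π x) = f x := fun x => rfl
    have hkerπ : π.ker = M := QuotientGroup.ker_mk' M
    -- the kernel of `f₁`
    let φ : K →* f₁.ker :=
      { toFun := fun k => ⟨π k, by rw [MonoidHom.mem_ker, hff]; exact MonoidHom.mem_ker.1 k.2⟩
        map_one' := Subtype.ext (by simp)
        map_mul' := fun x y => Subtype.ext (by simp) }
    have hφs : Function.Surjective φ := by
      rintro ⟨x, hx⟩
      obtain ⟨g, rfl⟩ := hπs x
      rw [MonoidHom.mem_ker, hff] at hx
      exact ⟨⟨g, hx⟩, rfl⟩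
    have hd₁ : derivedSeries f₁.ker d = ⊥ := by
      rw [← map_derivedSeries_eq hφs, eq_bot_iff]
      rintro _ ⟨x, hx, rfl⟩
      rw [Subgroup.mem_bot]
      apply Subtype.ext
      show π x = 1
      rw [← MonoidHom.mem_ker, hkerπ]
      exact ⟨x, hx, rfl⟩
    have hcard : Nat.card K = Nat.card f₁.ker * Nat.card M := by
      have h1 : Nat.card G = Nat.card (G ⧸ M) * Nat.card M :=
        Subgroup.card_eq_card_quotient_mul_card_subgroup M
      have h2 := Subgroup.card_eq_card_quotient_mul_card_subgroup K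
      have h3 := Subgroup.card_eq_card_quotient_mul_card_subgroup f₁.ker
      have e1 : Nat.card (G ⧸ K) = Nat.card f.range :=
        Nat.card_congr (QuotientGroup.quotientKerEquivRange f).toEquiv
      have e2 : Nat.card ((G ⧸ M) ⧸ f₁.ker) = Nat.card f₁.range :=
        Nat.card_congr (QuotientGroup.quotientKerEquivRange f₁).toEquiv
      have e3 : f₁.range = f.range := by
        ext y
        constructor
        · rintro ⟨x, rfl⟩
          obtain ⟨g, rfl⟩ := hπs x
          exact ⟨g, rfl⟩
        · rintro ⟨g, rfl⟩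
          exact ⟨π g, rfl⟩
      rw [e2, e3] at h3
      rw [e1, h1, h3] at h2
      have h4 : 0 < Nat.card f.range := by
        rw [← e1]
        exact Nat.card_pos
      have h5 : Nat.card f.range * (Nat.card f₁.ker * Nat.card M) =
          Nat.card f.range * Nat.card K := by
        rw [← h2]
        ring
      exact (Nat.eq_of_mul_eq_mul_left h4 h5).symm
    obtain ⟨l₁, h1, h2, h3⟩ := ih (G ⧸ M) (π '' A) (inv_image hinv π) (gen_image hgen π hπs) Q f₁
      hd₁ l (by
        rw [Set.image_image]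
        exact hl) hlen
    obtain ⟨l', h4, h5, h6⟩ := lift hinv hgen π (by rw [hkerπ]; exact hMab) h1 h2
    rw [hkerπ] at h6
    refine ⟨l', h4, h5, ?_⟩
    calc l.length * Nat.card K = (l.length * Nat.card f₁.ker) * Nat.card M := by
          rw [hcard, mul_assoc]
      _ ≤ (32 ^ d * l₁.length) * Nat.card M := Nat.mul_le_mul_right _ h3
      _ = 32 ^ d * (l₁.length * Nat.card M) := by ring
      _ ≤ 32 ^ d * (32 * l'.length) := Nat.mul_le_mul_left _ h6
      _ = 32 ^ (d + 1) * l'.length := by ring

/-- closed sequences in solvable groups -/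
theorem solv (d : ℕ) : ∀ (G : Type) [Group G] [Finite G] (A : Set G),
    (∀ a ∈ A, a⁻¹ ∈ A) → Subgroup.closure A = ⊤ → derivedSeries G d = ⊥ → 3 ≤ Nat.card G →
    ∃ l, CS A l ∧ 3 ≤ l.length ∧ Nat.card G ≤ 32 ^ d * l.length := by
  induction d with
  | zero =>
    intro G _ _ A hinv hgen hd h3
    exfalso
    rw [derivedSeries_zero] at hd
    have h1 : Nat.card G = 1 := by
      rw [← Subgroup.card_top (G := G), hd, Subgroup.card_bot]
    omega
  | succ d ih =>
    intro G _ _ A hinv hgen hd h3
    set M := derivedSeries G d with hM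
    have hMn : M.Normal := derivedSeries_normal G d
    have hMab : ∀ x ∈ M, ∀ y ∈ M, x * y = y * x :=
      comm_of_commutator (by rw [← derivedSeries_succ]; exact hd)
    have h1 : Nat.card G = Nat.card (G ⧸ M) * Nat.card M :=
      Subgroup.card_eq_card_quotient_mul_card_subgroup M
    set π : G →* G ⧸ M := QuotientGroup.mk' M with hπ
    have hπs : Function.Surjective π := QuotientGroup.mk'_surjective M
    have hkerπ : π.ker = M := QuotientGroup.ker_mk' M
    have hpow : 32 ≤ 32 ^ (d + 1) := by
      calc 32 = 32 ^ 1 := rfl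
        _ ≤ 32 ^ (d + 1) := Nat.pow_le_pow_right (by omega) (by omega)
    by_cases h4 : 3 ≤ Nat.card (G ⧸ M)
    · have hd₁ : derivedSeries (G ⧸ M) d = ⊥ := by
        rw [← map_derivedSeries_eq hπs, eq_bot_iff]
        rintro _ ⟨x, hx, rfl⟩
        rw [Subgroup.mem_bot, ← MonoidHom.mem_ker, hkerπ]
        exact hx
      obtain ⟨l₁, h5, h6, h7⟩ := ih (G ⧸ M) (π '' A) (inv_image hinv π) (gen_image hgen π hπs)
        hd₁ h4
      obtain ⟨l', h8, h9, h10⟩ := lift hinv hgen π (by rw [hkerπ]; exact hMab) h5 h6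
      rw [hkerπ] at h10
      refine ⟨l', h8, h9, ?_⟩
      calc Nat.card G = Nat.card (G ⧸ M) * Nat.card M := h1
        _ ≤ (32 ^ d * l₁.length) * Nat.card M := Nat.mul_le_mul_right _ h7
        _ = 32 ^ d * (l₁.length * Nat.card M) := by ring
        _ ≤ 32 ^ d * (32 * l'.length) := Nat.mul_le_mul_left _ h10
        _ = 32 ^ (d + 1) * l'.length := by ring
    · by_cases h5 : 3 ≤ Nat.card M
      · obtain ⟨l, h6, h7, h8⟩ := (of_abelian hinv hgen M hMab).1 h5
        refine ⟨l, h6, h7, ?_⟩
        calc Nat.card G = Nat.card (G ⧸ M) * Nat.card M := h1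
          _ ≤ 32 * l.length := Nat.mul_le_mul (by omega) h8
          _ ≤ 32 ^ (d + 1) * l.length := Nat.mul_le_mul_right _ hpow
      · have h6 : 0 < Nat.card (G ⧸ M) := Nat.card_pos
        have h7 : 0 < Nat.card M := Nat.card_pos
        have h8 : Nat.card G = 4 := by
          have h9 : Nat.card (G ⧸ M) = 1 ∨ Nat.card (G ⧸ M) = 2 := by omega
          have h10 : Nat.card M = 1 ∨ Nat.card M = 2 := by omega
          rcases h9 with h9 | h9 <;> rcases h10 with h10 | h10 <;> rw [h9, h10] at h1 <;> omega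
        have h9 : ∀ x y : G, x * y = y * x := by
          have : Fact (Nat.Prime 2) := ⟨Nat.prime_two⟩
          have h10 : Nat.card G = 2 ^ 2 := by rw [h8]; rfl
          exact IsPGroup.commutative_of_card_eq_prime_sq h10
        obtain ⟨l, h6, h7, h8'⟩ := (of_abelian hinv hgen ⊤ (fun x _ y _ => h9 x y)).1
          (by rw [Subgroup.card_top, h8]; omega)
        rw [Subgroup.card_top] at h8'
        refine ⟨l, h6, h7, ?_⟩
        calc Nat.card G ≤ l.length := h8'
          _ ≤ 32 ^ (d + 1) * l.length := Nat.le_mul_of_pos_left _ (by positivity)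

end Pool.Agent.J4H54.LC
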