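import Pool.Agent.J4H54.LC.Asm

set_option autoImplicit false
set_option linter.unusedSectionVars false

/-!
# The lifting step

If a finite abelian group `V` acts freely on a connected graph `G` without cut vertices, and the
quotient has a cycle of length `n ≥ 3`, then `G` has a cycle of length at least `n |V| / 32`.
-/

namespace Pool.Agent.J4H54.LC

open List

/-- no vertex separates the graph -/
def NoCut {X : Type*} (G : SimpleGraph X) : Prop :=
  ∀ (z : X) (A : Set X), z ∉ A → A.Nonempty → (∃ u, u ∉ A ∧ u ≠ z) →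
    ∃ x ∈ A, ∃ u, u ∉ A ∧ u ≠ z ∧ G.Adj x u

section

variable {X : Type*} [Finite X] {V : Type} [AddCommGroup V] [Finite V] [AddAction V X]
  {G : SimpleGraph X}

/-- the step, for a nontrivial group -/
theorem step_out (haut : ∀ (v : V) (x y : X), G.Adj x y → G.Adj (v +ᵥ x) (v +ᵥ y))
    (hfree : ∀ (v : V) (x : X), v +ᵥ x = x → v = 0) (hG : G.Connected) (h2 : NoCut G)
    (hV : 2 ≤ Nat.card V) {p : List X} {x0 xl : X} (hp : P G {z | z ∈ p} x0 xl p)
    (hlen : 3 ≤ p.length) {h : V} (hcl : G.Adj xl (h +ᵥ x0)) {T : Set X}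
    (hpT : {z | z ∈ p} ⊆ T) (hT : Tr G V T) :
    Out (Con.v : Con G V T → V) (GC p.length) := by
  classical
  have hgen := con_gen hT hfree haut hG
  have hsym : ∀ e : Con G V T, ∃ e' : Con G V T, e'.v = -e.v := fun e => ⟨e.rev haut, rfl⟩
  have hx0 : x0 ∈ p := hp.fst_mem
  have hxl : xl ∈ p := hp.lst_mem
  have hpne : ({z | z ∈ p} : Set X).Nonempty := ⟨x0, hx0⟩
  by_cases hh : h = 0
  · -- the cycle closes up
    subst hh
    rw [zero_vadd] at hcl
    have hJ : J G p.length {z | z ∈ p} := by
      refine J_cycle hp.nd hp.ch ?_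
      intro x hx y hy
      rw [hp.hd] at hx
      rw [hp.lt] at hy
      simp only [Option.mem_def, Option.some.injEq] at hx hy
      subst hx hy
      exact hcl
    obtain ⟨M, hCM, hM⟩ := exists_core hJ hpT
    have hMne : M.Nonempty := hpne.mono hCM
    have hrt : ∀ t ∈ T, ∃ z, Rt G T M z t := fun t ht => exists_rt hM.sub hT.conn hMne ht
    have good : ∀ (e c : Con G V T) (z w : X), Rt G T M z e.y → Rt G T M w c.x → z ≠ w →
        GC p.length e c := fun e c z w h1 h2 h3 => hM.good h1 h2 h3
    by_contra hout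
    -- all nontrivial connections have one root
    have one : ∀ c : Con G V T, c.v ≠ 0 → ∀ z w, Rt G T M z c.x → Rt G T M w c.y → z = w := by
      intro c hc z w hz hw
      by_contra hzw
      apply hout
      by_cases h3 : 3 ≤ addOrderOf c.v
      · exact out_one Con.v _ hgen hsym (c := c) (good c c w z hw hz (Ne.symm hzw)) h3
      · have h4 : 0 < addOrderOf c.v := addOrderOf_pos _
        have h5 : addOrderOf c.v ≠ 1 := fun h => hc (AddMonoid.addOrderOf_eq_one_iff.1 h)
        have h6 : addOrderOf c.v = 2 := by omega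
        have h7 : c.v + c.v = 0 := by
          have := addOrderOf_nsmul_eq_zero c.v
          rwa [h6, two_nsmul] at this
        refine out_two Con.v _ hgen hsym (c := c) (c' := c.rev haut) ?_ hc ?_
        · exact neg_eq_of_add_eq_zero_left h7
        · intro e
          obtain ⟨y, hy⟩ := hrt e.y e.hy
          by_cases hyz : y = z
          · right
            exact good e (c.rev haut) y w hy hw (by rw [hyz]; exact hzw)
          · left
            exact good e c y z hy hz hyz
    have two : ∀ c c' : Con G V T, c.v ≠ 0 → c'.v ≠ 0 → ∀ z w, Rt G T M z c.x →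
        Rt G T M w c'.x → z = w := by
      intro c c' hc hc' z w hz hw
      by_contra hzw
      apply hout
      have hz' : Rt G T M z c.y := by
        obtain ⟨y, hy⟩ := hrt c.y c.hy
        rw [one c hc z y hz hy]
        exact hy
      have hw' : Rt G T M w c'.y := by
        obtain ⟨y, hy⟩ := hrt c'.y c'.hy
        rw [one c' hc' w y hw hy]
        exact hy
      by_cases e1 : c'.v = c.v
      · refine out_two Con.v _ hgen hsym (c := c) (c' := c') e1 hc ?_
        intro e
        obtain ⟨y, hy⟩ := hrt e.y e.hy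
        by_cases hyz : y = z
        · right
          exact good e c' y w hy hw (by rw [hyz]; exact hzw)
        · left
          exact good e c y z hy hz hyz
      · by_cases e2 : c'.v = -c.v
        · refine out_two Con.v _ hgen hsym (c := c) (c' := c'.rev haut) ?_ hc ?_
          · show -c'.v = c.v
            rw [e2, neg_neg]
          · intro e
            obtain ⟨y, hy⟩ := hrt e.y e.hy
            by_cases hyz : y = z
            · right
              exact good e (c'.rev haut) y w hy hw' (by rw [hyz]; exact hzw)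
            · left
              exact good e c y z hy hz hyz
        · exact out_three (R := c) (R' := c.rev haut) (U := c') (D := c'.rev haut) hgen hsym rfl
            rfl (good c' c w z hw' hz (Ne.symm hzw)) (good c (c'.rev haut) z w hz' hw' hzw)
            (good (c'.rev haut) c w z hw hz (Ne.symm hzw)) (good c c' z w hz' hw hzw) hc hc' e1 e2
    -- a nontrivial connection
    obtain ⟨c, hc⟩ : ∃ c : Con G V T, c.v ≠ 0 := by
      by_contra hcon
      push Not at hcon
      have h1 : AddSubgroup.closure (Set.range (Con.v : Con G V T → V)) ≤ ⊥ := by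
        rw [AddSubgroup.closure_le]
        rintro x ⟨e, rfl⟩
        exact hcon e
      rw [hgen] at h1
      have h2' : Nat.card (⊤ : AddSubgroup V) = Nat.card (⊥ : AddSubgroup V) := by
        rw [le_bot_iff.1 h1]
      rw [AddSubgroup.card_top] at h2'
      simp at h2'
      omega
    obtain ⟨z, hz⟩ := hrt c.x c.hx
    have all : ∀ c' : Con G V T, c'.v ≠ 0 → Rt G T M z c'.x := by
      intro c' hc'
      obtain ⟨w, hw⟩ := hrt c'.x c'.hx
      rw [two c c' hc hc' z w hz hw]
      exact hw
    -- a point of the cycle different from `z`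
    obtain ⟨m, hm, hmz⟩ : ∃ m ∈ M, m ≠ z := by
      by_contra hcon
      push Not at hcon
      have h1 : ∀ u ∈ p, u = z := fun u hu => hcon u (hCM hu)
      have h3 : p.length ≤ 1 := by
        have h4 : p.toFinset ⊆ {z} := by
          intro u hu
          rw [List.mem_toFinset] at hu
          rw [Finset.mem_singleton]
          exact h1 u hu
        have h5 := Finset.card_le_card h4
        rw [List.toFinset_card_of_nodup hp.nd, Finset.card_singleton] at h5
        exact h5
      omega
    obtain ⟨x, hx, u, hu, huz, hadj⟩ := h2 z {x | x ∈ T ∧ ¬ Rt G T M z x} (by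
        rintro ⟨-, h1⟩
        exact h1 (Rt.self hz.1)) ⟨m, hM.sub hm, fun h1 => hmz (h1.eq hm)⟩ (by
        refine ⟨c.v +ᵥ c.x, ?_, ?_⟩
        · rintro ⟨h1, -⟩
          apply hc
          have h3 := hT.inj c.x c.hx _ h1 c.v rfl
          exact hfree _ _ h3.symm
        · intro h1
          apply hc
          have h3 := hT.inj c.x c.hx z (hM.sub hz.1) c.v h1
          rw [← h3] at h1
          exact hfree _ _ h1)
    obtain ⟨w, hw⟩ := hrt x hx.1
    have hwz : w ≠ z := by
      intro h1
      rw [h1] at hw
      exact hx.2 hw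
    by_cases huT : u ∈ T
    · have hzu : Rt G T M z u := by
        by_contra h1
        exact hu ⟨huT, h1⟩
      exact huz (hM.adj_eq hw hzu hwz hadj).2
    · obtain ⟨v, t, ht, hvt⟩ := hT.cov u
      have hv : v ≠ 0 := by
        rintro rfl
        rw [zero_vadd] at hvt
        rw [hvt] at huT
        exact huT ht
      rw [hvt] at hadj
      exact hx.2 (all ⟨v, x, t, hx.1, ht, hadj⟩ hv)
  · -- the cycle does not close up
    set c : Con G V T := ⟨h, xl, x0, hpT hxl, hpT hx0, hcl⟩ with hc
    have hpT' : P G T x0 xl p := ⟨hp.nd, hp.ch, hp.hd, hp.lt, fun z hz => hpT hz⟩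
    by_cases h3 : 3 ≤ addOrderOf h
    · exact out_one Con.v _ hgen hsym (c := c) ⟨p, hpT', by omega⟩ h3
    · have h4 : 0 < addOrderOf h := addOrderOf_pos _
      have h5 : addOrderOf h ≠ 1 := fun h' => hh (AddMonoid.addOrderOf_eq_one_iff.1 h')
      have h6 : addOrderOf h = 2 := by omega
      have h7 : h + h = 0 := by
        have := addOrderOf_nsmul_eq_zero h
        rwa [h6, two_nsmul] at this
      refine out_two Con.v _ hgen hsym (c := c) (c' := c.rev haut)
        (neg_eq_of_add_eq_zero_left h7) hh ?_
      intro e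
      obtain ⟨z, hz⟩ := exists_rt hpT hT.conn hpne e.hy
      obtain ⟨L, hL⟩ := hz.fiber_path
      have hzp : z ∈ p := hz.1
      obtain ⟨l1, l2, hpe⟩ := List.append_of_mem hzp
      have h8 := hp
      rw [hpe] at h8
      obtain ⟨h9, h10⟩ := h8.split
      rw [← hpe] at h9 h10
      have hfib : ∀ u ∈ {u | Rt G T {z | z ∈ p} z u}, u ∈ {z | z ∈ p} → u = z :=
        fun u hu hup => Rt.eq hu hup
      obtain ⟨L1, h11, -, h12⟩ := hL.glue h10 hfib
      obtain ⟨L2, h13, -, h14⟩ := hL.glue h9.rev hfib
      have hsub : {u | Rt G T {z | z ∈ p} z u} ∪ {z | z ∈ p} ⊆ T := by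
        rintro u (hu | hu)
        · exact Rt.mem hu hpT
        · exact hpT hu
      have hpl : p.length = l1.length + l2.length + 1 := by
        rw [hpe]
        simp only [List.length_append, List.length_cons]
        omega
      rw [List.length_cons] at h12
      rw [List.length_reverse, List.length_append, List.length_singleton] at h14
      by_cases h15 : p.length ≤ 2 * L1.length
      · left
        exact ⟨L1, h11.mono hsub, h15⟩
      · right
        exact ⟨L2, h13.mono hsub, by omega⟩

/-- **The lifting step.** -/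
theorem step (haut : ∀ (v : V) (x y : X), G.Adj x y → G.Adj (v +ᵥ x) (v +ᵥ y))
    (hfree : ∀ (v : V) (x : X), v +ᵥ x = x → v = 0) (hG : G.Connected) (h2 : NoCut G)
    {p : List X} {x0 xl : X} (hp : P G {z | z ∈ p} x0 xl p)
    (horb : ∀ x ∈ p, ∀ y ∈ p, ∀ v : V, v +ᵥ x = y → x = y)
    (hlen : 3 ≤ p.length) {h : V} (hcl : G.Adj xl (h +ᵥ x0)) :
    ∃ L, Cyl G L ∧ p.length * Nat.card V ≤ 32 * L.length := by
  have hV1 : 0 < Nat.card V := Nat.card_pos
  by_cases hV : 2 ≤ Nat.card V
  · obtain ⟨T, hpT, hT⟩ := exists_tr (V := V) (S := {z | z ∈ p}) hG haut ⟨x0, hp.fst_mem⟩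
      (fun x hx y hy => (hp.cn_mem hx).symm.trans (hp.cn_mem hy)) horb
    obtain ⟨w, c, h3, h4, h5⟩ := step_out haut hfree hG h2 hV hp hlen hcl hpT hT
    obtain ⟨L, h6, h7, -⟩ := closed_asm hT hfree haut hlen h3.nd h3.cl h5
    refine ⟨L, h6, ?_⟩
    calc p.length * Nat.card V ≤ p.length * (16 * gd (GC p.length) (c :: (w ++ [c]))) :=
          Nat.mul_le_mul_left _ h4
      _ = 16 * (p.length * gd (GC p.length) (c :: (w ++ [c]))) := by ring
      _ ≤ 16 * (2 * L.length) := Nat.mul_le_mul_left _ h7
      _ = 32 * L.length := by ring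
  · have hV2 : Nat.card V = 1 := by omega
    have hh : h = 0 := by
      have := (Nat.card_eq_one_iff_unique.1 hV2).1
      exact Subsingleton.elim _ _
    rw [hh, zero_vadd] at hcl
    refine ⟨p, ⟨hp.nd, hp.ch, hlen, ?_⟩, by rw [hV2]; omega⟩
    intro x hx y hy
    rw [hp.hd] at hx
    rw [hp.lt] at hy
    simp only [Option.mem_def, Option.some.injEq] at hx hy
    subst hx hy
    exact hcl

/-- a free action of an abelian group of order at least three gives a cycle of length `|V|` -/
theorem base (haut : ∀ (v : V) (x y : X), G.Adj x y → G.Adj (v +ᵥ x) (v +ᵥ y))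
    (hfree : ∀ (v : V) (x : X), v +ᵥ x = x → v = 0) (hG : G.Connected)
    (hV : 3 ≤ Nat.card V) : ∃ L, Cyl G L ∧ Nat.card V ≤ L.length := by
  obtain ⟨x⟩ := hG.nonempty
  obtain ⟨T, -, hT⟩ := exists_tr (V := V) (S := {x}) hG haut ⟨x, rfl⟩
    (by rintro y rfl z rfl; exact Cn.refl rfl) (by rintro y rfl z rfl v _; rfl)
  obtain ⟨us, u, h1, h3, h4⟩ := hc (Con.v : Con G V T → V) (con_gen hT hfree haut hG)
    (fun e => ⟨e.rev haut, rfl⟩) (by omega)
  obtain ⟨L, h6, -, h7⟩ := closed_asm hT hfree haut (n := 3) le_rfl (w := us) (c := u) h1 h4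
    (by omega)
  exact ⟨L, h6, by omega⟩

end

end Pool.Agent.J4H54.LC
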