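import Pool.Agent.J4H54.LC.Ear

set_option autoImplicit false

/-!
# Connected transversals of a free action
-/

namespace Pool.Agent.J4H54.LC

variable {X V : Type*} {G : SimpleGraph X} [AddCommGroup V] [AddAction V X]

/-- a connected transversal of the orbits of `V` -/
structure Tr (G : SimpleGraph X) (V : Type*) [AddCommGroup V] [AddAction V X] (T : Set X) :
    Prop where
  conn : ∀ x ∈ T, ∀ y ∈ T, Cn G T x y
  cov : ∀ x : X, ∃ v : V, ∃ t ∈ T, x = v +ᵥ t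
  inj : ∀ t ∈ T, ∀ t' ∈ T, ∀ v : V, v +ᵥ t = t' → t = t'

theorem exists_tr [Finite X] (hG : G.Connected)
    (haut : ∀ (v : V) (x y : X), G.Adj x y → G.Adj (v +ᵥ x) (v +ᵥ y)) {S : Set X}
    (hS : S.Nonempty) (hSc : ∀ x ∈ S, ∀ y ∈ S, Cn G S x y)
    (hSi : ∀ t ∈ S, ∀ t' ∈ S, ∀ v : V, v +ᵥ t = t' → t = t') :
    ∃ T : Set X, S ⊆ T ∧ Tr G V T := by
  classical
  obtain ⟨T, ⟨hST, hconn, hinj⟩, hmax⟩ := Set.exists_max_image
    {T : Set X | S ⊆ T ∧ (∀ x ∈ T, ∀ y ∈ T, Cn G T x y) ∧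
      ∀ t ∈ T, ∀ t' ∈ T, ∀ v : V, v +ᵥ t = t' → t = t'}
    Set.ncard (Set.toFinite _) ⟨S, subset_rfl, hSc, hSi⟩
  refine ⟨T, hST, hconn, ?_, hinj⟩
  by_contra hcon
  push Not at hcon
  obtain ⟨x, hx⟩ := hcon
  obtain ⟨v0, hv0⟩ := hS
  set O : Set X := {x | ∃ v : V, ∃ t ∈ T, x = v +ᵥ t} with hO
  have hxO : x ∉ O := by
    rintro ⟨v, t, ht, h⟩
    exact hx v t ht h
  have hv0O : v0 ∈ O := ⟨0, v0, hST hv0, (zero_vadd V v0).symm⟩
  obtain ⟨p⟩ := hG.preconnected v0 x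
  obtain ⟨d, -, hd1, hd2⟩ := p.exists_boundary_dart O hv0O hxO
  obtain ⟨v, t, ht, hvt⟩ := hd1
  set w : X := (-v) +ᵥ d.snd with hw
  have hadj : G.Adj t w := by
    have h1 := haut (-v) _ _ d.adj
    rwa [hvt, neg_vadd_vadd] at h1
  have hwO : w ∉ O := by
    rintro ⟨v', t', ht', h⟩
    apply hd2
    refine ⟨v + v', t', ht', ?_⟩
    rw [← vadd_vadd, ← h, hw, vadd_neg_vadd]
  have hwT : w ∉ T := fun h => hwO ⟨0, w, h, (zero_vadd V w).symm⟩
  have hT' : insert w T ∈ {T : Set X | S ⊆ T ∧ (∀ x ∈ T, ∀ y ∈ T, Cn G T x y) ∧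
      ∀ t ∈ T, ∀ t' ∈ T, ∀ v : V, v +ᵥ t = t' → t = t'} := by
    refine ⟨fun u hu => Set.mem_insert_of_mem _ (hST hu), ?_, ?_⟩
    · have key : ∀ x ∈ insert w T, Cn G (insert w T) x t := by
        intro x hx
        rcases hx with rfl | hx
        · exact Cn.adj (Set.mem_insert _ _) (Set.mem_insert_of_mem _ ht) hadj.symm
        · exact (hconn x hx t ht).mono (Set.subset_insert _ _)
      intro x hx y hy
      exact (key x hx).trans (key y hy).symm
    · rintro a ha b hb c hab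
      rcases ha with rfl | ha
      · rcases hb with rfl | hb
        · rfl
        · exfalso
          apply hwO
          exact ⟨-c, b, hb, by rw [← hab, neg_vadd_vadd]⟩
      · rcases hb with rfl | hb
        · exfalso
          apply hwO
          exact ⟨c, a, ha, hab.symm⟩
        · exact hinj a ha b hb c hab
  have h1 := hmax _ hT'
  rw [Set.ncard_insert_of_notMem hwT (Set.toFinite T)] at h1
  omega

theorem Tr.uniq {T : Set X} (hT : Tr G V T) (hfree : ∀ (v : V) (x : X), v +ᵥ x = x → v = 0)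
    {u v : V} {s t : X} (hs : s ∈ T) (ht : t ∈ T) (h : u +ᵥ s = v +ᵥ t) : u = v ∧ s = t := by
  have h1 : (-v + u) +ᵥ s = t := by rw [← vadd_vadd, h, neg_vadd_vadd]
  have h2 := hT.inj s hs t ht _ h1
  subst h2
  have h3 := hfree _ _ h1
  have h4 : u = v := by
    rw [neg_add_eq_zero] at h3
    exact h3.symm
  exact ⟨h4, rfl⟩

/-- translating a path -/
theorem P.vadd {S : Set X} {x y : X} {L : List X} (h : P G S x y L) (v : V)
    (haut : ∀ (v : V) (x y : X), G.Adj x y → G.Adj (v +ᵥ x) (v +ᵥ y)) :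
    P G {z | ∃ s ∈ S, z = v +ᵥ s} (v +ᵥ x) (v +ᵥ y) (L.map fun s => v +ᵥ s) where
  nd := h.nd.map (AddAction.injective v)
  ch := by
    refine List.isChain_map_of_isChain _ ?_ h.ch
    intro a b hab
    exact haut v a b hab
  hd := by rw [List.head?_map, h.hd]; rfl
  lt := by rw [List.getLast?_map, h.lt]; rfl
  sub := by
    intro z hz
    obtain ⟨s, hs, rfl⟩ := List.mem_map.1 hz
    exact ⟨s, h.sub s hs, rfl⟩

end Pool.Agent.J4H54.LC
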