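import Pool.Agent.J4H54.LC.Solv
import Pool.Agent.J4H54.DL.Main

set_option autoImplicit false

/-!
# All universes, and the bound in terms of the order
-/

namespace Pool.Agent.J4H54.LC

universe u

/-- the numerical estimate -/
theorem numeric (N : ℕ) (hN : 1 ≤ N) :
    ((32 ^ (293 * Nat.log 2 (Nat.log 2 N) + 3) : ℕ) : ℝ) ≤
      2 ^ 1480 * (1 + Real.log N) ^ 1465 := by
  set n := Nat.log 2 N with hn
  have hlogN : 0 ≤ Real.log N := Real.log_nonneg (by exact_mod_cast hN)
  have h1 : (n : ℝ) ≤ 2 * Real.log N := by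
    have h2 : (2 : ℝ) ^ n ≤ N := by
      exact_mod_cast Nat.pow_log_le_self 2 (by omega : N ≠ 0)
    have h3 := Real.log_le_log (by positivity) h2
    rw [Real.log_pow] at h3
    have h4 : (1 / 2 : ℝ) ≤ Real.log 2 := by
      have := Real.log_two_gt_d9
      linarith
    have h5 : (0 : ℝ) ≤ n := Nat.cast_nonneg n
    nlinarith
  have h2 : ((2 ^ Nat.log 2 n : ℕ) : ℝ) ≤ 2 * (1 + Real.log N) := by
    rcases Nat.eq_zero_or_pos n with h3 | h3
    · rw [h3]
      simp only [Nat.log_zero_right, pow_zero, Nat.cast_one]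
      linarith
    · have h4 : 2 ^ Nat.log 2 n ≤ n := Nat.pow_log_le_self 2 (by omega)
      have h5 : ((2 ^ Nat.log 2 n : ℕ) : ℝ) ≤ n := by exact_mod_cast h4
      linarith
  have h3 : 32 ^ (293 * Nat.log 2 n + 3) = 2 ^ 15 * (2 ^ Nat.log 2 n) ^ 1465 := by
    rw [show (32 : ℕ) = 2 ^ 5 by norm_num, ← pow_mul, ← pow_mul, ← pow_add]
    congr 1
    ring
  rw [h3, Nat.cast_mul, Nat.cast_pow (2 ^ Nat.log 2 n) 1465]
  calc ((2 ^ 15 : ℕ) : ℝ) * ((2 ^ Nat.log 2 n : ℕ) : ℝ) ^ 1465
      ≤ 2 ^ 15 * (2 * (1 + Real.log N)) ^ 1465 := by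
        apply mul_le_mul (by norm_num) _ (by positivity) (by positivity)
        exact pow_le_pow_left₀ (by positivity) h2 _
    _ = 2 ^ 1480 * (1 + Real.log N) ^ 1465 := by
        rw [mul_pow, ← mul_assoc, ← pow_add]

/-- closed sequences and isomorphisms -/
theorem cs_map {G H : Type*} [Group G] [Group H] (e : G ≃* H) {A : Set G} {l : List G}
    (h : CS A l) : CS (e '' A) (l.map e) where
  mem := by
    intro a ha
    obtain ⟨b, hb, rfl⟩ := List.mem_map.1 ha
    exact ⟨b, h.mem b hb, rfl⟩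
  distinct := by
    intro j k hj hjk hk h1
    rw [List.length_map] at hk
    rw [← List.map_take, ← List.map_take, ← map_list_prod, ← map_list_prod] at h1
    exact h.distinct j k hj hjk hk (e.injective h1)
  closed := by rw [← map_list_prod, h.closed, map_one]

/-- every finite group is isomorphic to one in `Type` -/
theorem exists_copy (G : Type u) [Group G] [Finite G] :
    ∃ (H : Type) (_ : Group H) (_ : Finite H), Nonempty (G ≃* H) := by
  have : Small.{0} G := Countable.toSmall G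
  exact ⟨Shrink.{0} G, inferInstance, Finite.of_equiv G (equivShrink.{0} G),
    ⟨(Shrink.mulEquiv.{0} (α := G)).symm⟩⟩

theorem derived_equiv {G H : Type*} [Group G] [Group H] (e : G ≃* H) (d : ℕ)
    (h : derivedSeries G d = ⊥) : derivedSeries H d = ⊥ := by
  rw [← map_derivedSeries_eq (f := e.toMonoidHom) e.surjective, h, Subgroup.map_bot]

/-- the derived length of a solvable group -/
theorem dl_solvable (G : Type u) [Group G] [Finite G] [Group.IsSolvable G] :
    derivedSeries G (293 * Nat.log 2 (Nat.log 2 (Nat.card G)) + 3) = ⊥ := by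
  obtain ⟨H, iH, fH, ⟨e⟩⟩ := exists_copy G
  obtain ⟨n, hn⟩ := ‹Group.IsSolvable G›.solvable
  have h1 : Pool.Agent.J4H54.DL.Slv (⊤ : Subgroup H) :=
    ⟨n, by rw [Pool.Agent.J4H54.DL.ds_top]; exact derived_equiv e n hn⟩
  have h2 := Pool.Agent.J4H54.DL.dl_bound h1 le_rfl
  rw [← Nat.card_congr e.toEquiv] at h2
  exact derived_equiv e.symm _ h2

theorem back {G : Type u} {H : Type} [Group G] [Group H] (e : G ≃* H) {A : Set G} {l : List H}
    (h : CS (e '' A) l) : CS A (l.map e.symm) := by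
  have h1 := cs_map e.symm h
  have h2 : e.symm '' (e '' A) = A := by
    rw [← Set.image_comp]
    simp
  rwa [h2] at h1

/-- `solv` in all universes -/
theorem solv' (d : ℕ) (G : Type u) [Group G] [Finite G] (A : Set G)
    (hinv : ∀ a ∈ A, a⁻¹ ∈ A) (hgen : Subgroup.closure A = ⊤) (hd : derivedSeries G d = ⊥)
    (h3 : 3 ≤ Nat.card G) :
    ∃ l, CS A l ∧ 3 ≤ l.length ∧ Nat.card G ≤ 32 ^ d * l.length := by
  obtain ⟨H, iH, fH, ⟨e⟩⟩ := exists_copy G
  have hc : Nat.card G = Nat.card H := Nat.card_congr e.toEquiv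
  obtain ⟨l, h4, h5, h6⟩ := solv d H (e '' A) (inv_image hinv e.toMonoidHom)
    (gen_image hgen e.toMonoidHom e.surjective) (derived_equiv e d hd) (by rw [← hc]; exact h3)
  refine ⟨l.map e.symm, back e h4, by rwa [List.length_map], ?_⟩
  rw [List.length_map, hc]
  exact h6

/-- `lift_solv` in all universes -/
theorem lift' (d : ℕ) (G : Type u) [Group G] [Finite G] (A : Set G)
    (hinv : ∀ a ∈ A, a⁻¹ ∈ A) (hgen : Subgroup.closure A = ⊤) (R : Subgroup G) [R.Normal]
    (hd : derivedSeries R d = ⊥) (m : List (G ⧸ R))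
    (hm : CS ((QuotientGroup.mk : G → G ⧸ R) '' A) m) (h3 : 3 ≤ m.length) :
    ∃ l, CS A l ∧ 3 ≤ l.length ∧ m.length * Nat.card R ≤ 32 ^ d * l.length := by
  obtain ⟨H, iH, fH, ⟨e⟩⟩ := exists_copy G
  obtain ⟨Q, iQ, fQ, ⟨q⟩⟩ := exists_copy (G ⧸ R)
  let f : H →* Q := q.toMonoidHom.comp ((QuotientGroup.mk' R).comp e.symm.toMonoidHom)
  have hf : ∀ x, f x = q (QuotientGroup.mk (e.symm x)) := fun x => rfl
  have hker : ∀ x, x ∈ f.ker ↔ e.symm x ∈ R := by
    intro x
    rw [MonoidHom.mem_ker, hf, map_eq_one_iff q q.injective, QuotientGroup.eq_one_iff]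
  let φ : R ≃* f.ker :=
    { toFun := fun x => ⟨e x, by rw [hker, e.symm_apply_apply]; exact x.2⟩
      invFun := fun y => ⟨e.symm y, (hker _).1 y.2⟩
      left_inv := fun x => Subtype.ext (e.symm_apply_apply _)
      right_inv := fun y => Subtype.ext (e.apply_symm_apply _)
      map_mul' := fun x y => Subtype.ext (by simp) }
  have hc : Nat.card R = Nat.card f.ker := Nat.card_congr φ.toEquiv
  have hA : f '' (e '' A) = q '' ((QuotientGroup.mk : G → G ⧸ R) '' A) := by
    rw [Set.image_image, Set.image_image]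
    apply Set.image_congr
    intro a _
    rw [hf, e.symm_apply_apply]
  obtain ⟨l, h4, h5, h6⟩ := lift_solv d H (e '' A) (inv_image hinv e.toMonoidHom)
    (gen_image hgen e.toMonoidHom e.surjective) Q f (derived_equiv φ d hd) (m.map q)
    (by rw [hA]; exact cs_map q hm) (by rwa [List.length_map])
  refine ⟨l.map e.symm, back e h4, by rwa [List.length_map], ?_⟩
  rw [List.length_map, hc]
  rwa [List.length_map] at h6

theorem close_up {N M m d : ℕ} (hM : 1 ≤ M)
    (hd : d ≤ 293 * Nat.log 2 (Nat.log 2 M) + 3) (h : N ≤ 32 ^ d * m) :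
    (N : ℝ) ≤ 2 ^ 1480 * (1 + Real.log M) ^ 1465 * m := by
  have h0 : N ≤ 32 ^ (293 * Nat.log 2 (Nat.log 2 M) + 3) * m :=
    h.trans (Nat.mul_le_mul_right _ (Nat.pow_le_pow_right (by omega) hd))
  have h1 : (N : ℝ) ≤ ((32 ^ (293 * Nat.log 2 (Nat.log 2 M) + 3) : ℕ) : ℝ) * m := by
    exact_mod_cast h0
  exact h1.trans (mul_le_mul_of_nonneg_right (numeric M hM) (Nat.cast_nonneg m))

theorem both_bounds (R : Type u) [Group R] [Finite R] [hS : Group.IsSolvable R] {N : ℕ}
    {p : ℕ → Prop}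
    (h : ∀ d, derivedSeries R d = ⊥ → ∃ m, p m ∧ N ≤ 32 ^ d * m) :
    ∃ m, p m ∧ (∀ d, derivedSeries R d = ⊥ → N ≤ 32 ^ d * m) ∧
      (N : ℝ) ≤ 2 ^ 1480 * (1 + Real.log (Nat.card R)) ^ 1465 * m := by
  classical
  have hex : ∃ d, derivedSeries R d = ⊥ := hS.solvable
  obtain ⟨m, h1, h2⟩ := h (Nat.find hex) (Nat.find_spec hex)
  refine ⟨m, h1, fun d hd => ?_, ?_⟩
  · exact h2.trans (Nat.mul_le_mul_right _ (Nat.pow_le_pow_right (by omega)
      (Nat.find_min' hex hd)))
  · exact close_up Nat.card_pos (Nat.find_min' hex (dl_solvable R)) h2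

end Pool.Agent.J4H54.LC
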