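import Pool.Agent.TH669.KS.HamCycle

set_option autoImplicit false
set_option linter.unusedSectionVars false

/-!
# Words of steps in abelian groups, with a count of the good transitions
-/

namespace Pool.Agent.J4H54.LC

open List

section

variable {V E : Type*} [AddCommGroup V] (val : E → V)

/-- the partial sums -/
def tr (val : E → V) : V → List E → List V
  | _, [] => []
  | s, c :: w => (s + val c) :: tr val (s + val c) w

/-- the sum of the steps -/
def sm (val : E → V) (w : List E) : V := (w.map val).sum

@[simp] theorem tr_nil (s : V) : tr val s [] = [] := rfl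

@[simp] theorem tr_cons (s : V) (c : E) (w : List E) :
    tr val s (c :: w) = (s + val c) :: tr val (s + val c) w := rfl

@[simp] theorem sm_nil : sm val ([] : List E) = 0 := rfl

@[simp] theorem sm_cons (c : E) (w : List E) : sm val (c :: w) = val c + sm val w := by
  simp [sm]

@[simp] theorem sm_append (w w' : List E) : sm val (w ++ w') = sm val w + sm val w' := by
  simp [sm]

theorem tr_append (s : V) (w w' : List E) :
    tr val s (w ++ w') = tr val s w ++ tr val (s + sm val w) w' := by
  induction w generalizing s with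
  | nil => simp
  | cons c w ih =>
    rw [List.cons_append, tr_cons, tr_cons, ih, sm_cons, List.cons_append, add_assoc]

theorem tr_add (s t : V) (w : List E) : tr val (s + t) w = (tr val t w).map (fun z => s + z) := by
  induction w generalizing t with
  | nil => simp
  | cons c w ih => rw [tr_cons, tr_cons, List.map_cons, ← ih, add_assoc]

theorem tr_length (s : V) (w : List E) : (tr val s w).length = w.length := by
  induction w generalizing s with
  | nil => simp
  | cons c w ih => simp [ih]

theorem nodup_start (s : V) (w : List E) :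
    (s :: tr val s w).Nodup ↔ (0 :: tr val 0 w).Nodup := by
  have h : (s :: tr val s w) = (0 :: tr val 0 w).map (fun z => s + z) := by
    rw [List.map_cons, ← tr_add, add_zero]
  rw [h]
  exact List.nodup_map_iff (add_right_injective s)

theorem mem_tr {s z : V} {w : List E} (h : z ∈ tr val s w) :
    ∃ w1 w2, w = w1 ++ w2 ∧ w1 ≠ [] ∧ s + sm val w1 = z := by
  induction w generalizing s with
  | nil => simp at h
  | cons c w ih =>
    rw [tr_cons, List.mem_cons] at h
    rcases h with rfl | h
    · exact ⟨[c], w, rfl, by simp, by simp⟩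
    · obtain ⟨w1, w2, h1, -, h3⟩ := ih h
      refine ⟨c :: w1, w2, by rw [h1]; rfl, by simp, ?_⟩
      rw [sm_cons, ← add_assoc, h3]

theorem exists_loop {s : V} {w : List E} (h : ¬ (s :: tr val s w).Nodup) :
    ∃ w1 w2 w3, w = w1 ++ (w2 ++ w3) ∧ w2 ≠ [] ∧ sm val w2 = 0 := by
  induction w generalizing s with
  | nil => simp at h
  | cons c w ih =>
    rw [List.nodup_cons, not_and_or, not_not] at h
    rcases h with h | h
    · obtain ⟨w1, w2, h1, h2, h3⟩ := mem_tr val h
      exact ⟨[], w1, w2, h1, h2, by simpa using h3⟩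
    · rw [tr_cons] at h
      obtain ⟨w1, w2, w3, h1, h2, h3⟩ := ih h
      exact ⟨c :: w1, w2, w3, by rw [h1]; rfl, h2, h3⟩

/-- every element of the subgroup generated by the steps in `S` is the sum of a path -/
theorem exists_path_word (S : Set E) (hsym : ∀ c ∈ S, ∃ c' ∈ S, val c' = -val c) {k : V}
    (hk : k ∈ AddSubgroup.closure (val '' S)) :
    ∃ w : List E, (∀ c ∈ w, c ∈ S) ∧ (0 :: tr val 0 w).Nodup ∧ sm val w = k := by
  classical
  have h1 : ∃ w : List E, (∀ c ∈ w, c ∈ S) ∧ sm val w = k := by
    induction hk using AddSubgroup.closure_induction with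
    | mem x hx =>
      obtain ⟨c, hc, rfl⟩ := hx
      exact ⟨[c], by simpa using hc, by simp⟩
    | zero => exact ⟨[], by simp, by simp⟩
    | add x y _ _ hx hy =>
      obtain ⟨w, hw, hw'⟩ := hx
      obtain ⟨u, hu, hu'⟩ := hy
      refine ⟨w ++ u, ?_, by rw [sm_append, hw', hu']⟩
      intro c hc
      rcases List.mem_append.1 hc with hc | hc
      · exact hw c hc
      · exact hu c hc
    | neg x _ hx =>
      obtain ⟨w, hw, hw'⟩ := hx
      rw [← hw']
      clear hw'
      induction w with
      | nil => exact ⟨[], by simp, by simp⟩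
      | cons c w ih =>
        obtain ⟨u, hu, hu'⟩ := ih fun c hc => hw c (by simp [hc])
        obtain ⟨c', hc', hcc⟩ := hsym c (hw c (by simp))
        refine ⟨c' :: u, ?_, ?_⟩
        · intro d hd
          rcases List.mem_cons.1 hd with rfl | hd
          · exact hc'
          · exact hu d hd
        · rw [sm_cons, sm_cons, hu', hcc]
          abel
  have h2 : ∃ m : ℕ, ∃ w : List E, w.length = m ∧ (∀ c ∈ w, c ∈ S) ∧ sm val w = k := by
    obtain ⟨w, hw⟩ := h1
    exact ⟨_, w, rfl, hw⟩
  obtain ⟨w, hw1, hw2, hw3⟩ := Nat.find_spec h2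
  refine ⟨w, hw2, ?_, hw3⟩
  by_contra hcon
  obtain ⟨w1, w2, w3, h4, h5, h6⟩ := exists_loop val hcon
  have h7 : (w1 ++ w3).length < Nat.find h2 := by
    have := List.length_pos_iff.2 h5
    rw [← hw1, h4]
    simp only [List.length_append]
    omega
  refine Nat.find_min h2 h7 ⟨w1 ++ w3, rfl, ?_, ?_⟩
  · intro c hc
    apply hw2
    rw [h4]
    simp only [List.mem_append] at hc ⊢
    tauto
  · rw [← hw3, h4]
    simp only [sm_append]
    rw [h6, zero_add]

/-! ### counting good transitions -/

variable (Gd : E → E → Prop)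

open Classical in
/-- the number of good transitions -/
noncomputable def gd (Gd : E → E → Prop) : List E → ℕ
  | [] => 0
  | [_] => 0
  | c :: c' :: w => (if Gd c c' then 1 else 0) + gd Gd (c' :: w)

@[simp] theorem gd_nil : gd Gd ([] : List E) = 0 := by rw [gd]

@[simp] theorem gd_single (c : E) : gd Gd [c] = 0 := by rw [gd]

open Classical in
theorem gd_cons_cons (c c' : E) (w : List E) :
    gd Gd (c :: c' :: w) = (if Gd c c' then 1 else 0) + gd Gd (c' :: w) := by
  rw [gd]

theorem gd_good {c c' : E} (h : Gd c c') (w : List E) :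
    gd Gd (c :: c' :: w) = 1 + gd Gd (c' :: w) := by
  rw [gd_cons_cons, if_pos h]

theorem gd_le_cons (c : E) (w : List E) : gd Gd w ≤ gd Gd (c :: w) := by
  cases w with
  | nil => simp
  | cons c' w =>
    rw [gd_cons_cons]
    omega

theorem gd_append_cons (w : List E) (c : E) (w' : List E) :
    gd Gd (w ++ c :: w') = gd Gd (w ++ [c]) + gd Gd (c :: w') := by
  induction w with
  | nil => simp
  | cons d w ih =>
    cases w with
    | nil =>
      simp only [List.cons_append, List.nil_append]
      rw [gd_cons_cons, gd_cons_cons, gd_single]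
      omega
    | cons e w =>
      simp only [List.cons_append] at ih ⊢
      rw [gd_cons_cons, gd_cons_cons, ih]
      omega

theorem gd_le_append_right (w w' : List E) : gd Gd w ≤ gd Gd (w ++ w') := by
  induction w with
  | nil => simp
  | cons d w ih =>
    cases w with
    | nil => simp
    | cons e w =>
      simp only [List.cons_append] at ih ⊢
      rw [gd_cons_cons, gd_cons_cons]
      omega

theorem gd_le_append_left (w w' : List E) : gd Gd w' ≤ gd Gd (w ++ w') := by
  induction w with
  | nil => simp
  | cons d w ih => exact ih.trans (gd_le_cons Gd d _)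

theorem gd_append_le (w w' : List E) : gd Gd w + gd Gd w' ≤ gd Gd (w ++ w') := by
  cases w' with
  | nil => simp
  | cons c w' =>
    rw [gd_append_cons]
    have := gd_le_append_right Gd w [c]
    omega

end

/-! ### closed words of the quotient -/

section

variable {Q : Type} [AddCommGroup Q] [Finite Q] {E : Type*} (val : E → Q)

open Pool.Agent.TH669.KS Pool.Agent.TH669.KP

theorem word_of_chain (T : Set Q) (hT : ∀ x ∈ T, ∃ e, val e = x) (hT' : ∀ x ∈ T, ∃ e, val e = -x) :
    ∀ (L : List Q) (a : Q), (a :: L).IsChain (Stp T) → ∃ us : List E, tr val a us = L := by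
  intro L
  induction L with
  | nil => intro a _; exact ⟨[], rfl⟩
  | cons b L ih =>
    intro a h
    rw [List.isChain_cons_cons] at h
    obtain ⟨us, hus⟩ := ih b h.2
    have h1 : ∃ e, val e = b - a := by
      rcases h.1 with h1 | h1
      · exact hT _ h1
      · obtain ⟨e, he⟩ := hT' _ h1
        exact ⟨e, by rw [he]; abel⟩
    obtain ⟨e, he⟩ := h1
    refine ⟨e :: us, ?_⟩
    rw [tr_cons, he, add_sub_cancel, hus]

theorem last_tr (s : Q) (w : List E) : (s :: tr val s w).getLast? = some (s + sm val w) := by
  induction w generalizing s with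
  | nil => simp
  | cons c w ih =>
    rw [tr_cons, List.getLast?_cons_cons, ih, sm_cons, add_assoc]

theorem hc (hgen : AddSubgroup.closure (Set.range val) = ⊤)
    (hsym : ∀ e, ∃ e', val e' = -val e) (hQ : 2 ≤ Nat.card Q) :
    ∃ (us : List E) (u : E), (0 :: tr val 0 us).Nodup ∧ us.length + 1 = Nat.card Q ∧
      sm val us + val u = 0 := by
  classical
  by_cases h3 : 3 ≤ Nat.card Q
  · obtain ⟨L, α, β, hL, hlen⟩ := ham_cycle (Set.range val) hgen h3
    have hL0 : L = α :: L.tail := by
      have := hL.hd
      cases L with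
      | nil => simp at this
      | cons a l => simp at this; simp [this]
    have hT : ∀ x ∈ Set.range val, ∃ e, val e = x := fun x hx => hx
    have hT' : ∀ x ∈ Set.range val, ∃ e, val e = -x := by
      rintro x ⟨e, rfl⟩
      exact hsym e
    have hch := hL.ch
    rw [hL0] at hch
    obtain ⟨us, hus⟩ := word_of_chain val _ hT hT' L.tail α hch
    have h1 : ∃ u, val u = α - β := by
      rcases hL.cl with h1 | h1
      · exact hT _ h1
      · obtain ⟨e, he⟩ := hT' _ h1
        exact ⟨e, by rw [he]; abel⟩
    obtain ⟨u, hu⟩ := h1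
    refine ⟨us, u, ?_, ?_, ?_⟩
    · rw [← nodup_start val α, hus, ← hL0]
      exact hL.nd
    · have h2 := tr_length val α us
      rw [hus] at h2
      have h4 : L.length = L.tail.length + 1 := by
        conv_lhs => rw [hL0]
        rfl
      omega
    · have h2 := last_tr val α us
      rw [hus, ← hL0, hL.lt] at h2
      have h5 : β = α + sm val us := by simpa using h2
      rw [hu, h5]
      abel
  · have h2 : Nat.card Q = 2 := by omega
    obtain ⟨u, hu⟩ : ∃ u, val u ≠ 0 := by
      by_contra hcon
      push Not at hcon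
      have h1 : AddSubgroup.closure (Set.range val) ≤ ⊥ := by
        rw [AddSubgroup.closure_le]
        rintro x ⟨e, rfl⟩
        exact hcon e
      rw [hgen] at h1
      have h2' : Nat.card (⊤ : AddSubgroup Q) = Nat.card (⊥ : AddSubgroup Q) := by
        rw [le_bot_iff.1 h1]
      rw [AddSubgroup.card_top] at h2'
      simp at h2'
      omega
    refine ⟨[u], u, ?_, by simp [h2], ?_⟩
    · simp [hu.symm]
    · have h4 : Nat.card Q • val u = 0 := card_nsmul_eq_zero'
      rw [h2, two_nsmul] at h4
      simpa using h4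

end

/-! ### closing up over the cosets of a subgroup -/

section

variable {V : Type} [AddCommGroup V] [Finite V] {E : Type*} (val : E → V) (Gd : E → E → Prop)

/-- a path inside the subgroup `K` -/
structure Kp (val : E → V) (K : AddSubgroup V) (w : List E) : Prop where
  mem : ∀ c ∈ w, val c ∈ K
  nd : (0 :: tr val 0 w).Nodup

theorem Kp.coset {K : AddSubgroup V} {w : List E} (h : Kp val K w) (s : V) :
    (s :: tr val s w).Nodup ∧ ∀ z ∈ s :: tr val s w, (z : V ⧸ K) = (s : V ⧸ K) := by
  refine ⟨(nodup_start val s w).2 h.nd, ?_⟩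
  have h1 := h.mem
  clear h
  induction w generalizing s with
  | nil => simp
  | cons c w ih =>
    intro z hz
    rw [tr_cons, List.mem_cons] at hz
    rcases hz with rfl | hz
    · rfl
    · rw [ih (s + val c) (fun d hd => h1 d (by simp [hd])) z hz]
      rw [QuotientAddGroup.mk_add, (QuotientAddGroup.eq_zero_iff (val c)).2 (h1 c (by simp)),
        add_zero]

theorem mk_sm {K : AddSubgroup V} (w : List E) :
    ((sm val w : V) : V ⧸ K) = sm (fun c => ((val c : V) : V ⧸ K)) w := by
  induction w with
  | nil => simp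
  | cons c w ih => rw [sm_cons, sm_cons, QuotientAddGroup.mk_add, ih]

theorem sm_mem {K : AddSubgroup V} {w : List E} (h : ∀ c ∈ w, val c ∈ K) : sm val w ∈ K := by
  induction w with
  | nil => simp [K.zero_mem]
  | cons c w ih =>
    rw [sm_cons]
    exact K.add_mem (h c (by simp)) (ih fun d hd => h d (by simp [hd]))

theorem blocks {K : AddSubgroup V} {g : ℕ}
    (hb : ∀ prev : E, ∃ ω : List E, Kp val K ω ∧ g ≤ gd Gd (prev :: ω)) :
    ∀ (us : List E) (s : V) (prev : E),
      ((s : V ⧸ K) :: tr (fun c => ((val c : V) : V ⧸ K)) (s : V ⧸ K) us).Nodup →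
      ∃ W : List E, us.length ≤ W.length ∧
        ((sm val W : V) : V ⧸ K) = sm (fun c => ((val c : V) : V ⧸ K)) us ∧
        g * us.length ≤ gd Gd (prev :: W) ∧
        ∀ τ, Kp val K τ → (s :: tr val s (W ++ τ)).Nodup ∧
          ∀ z ∈ s :: tr val s (W ++ τ), (z : V ⧸ K) ∈
            ((s : V ⧸ K) :: tr (fun c => ((val c : V) : V ⧸ K)) (s : V ⧸ K) us) := by
  intro us
  induction us with
  | nil =>
    intro s prev _
    refine ⟨[], le_rfl, by simp, by simp, ?_⟩
    intro τ hτ
    obtain ⟨h1, h2⟩ := hτ.coset val s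
    rw [List.nil_append]
    refine ⟨h1, fun z hz => ?_⟩
    rw [h2 z hz]
    simp
  | cons u us ih =>
    intro s prev hnd
    obtain ⟨ω, hω, hg⟩ := hb prev
    obtain ⟨h1, h2⟩ := hω.coset val s
    set s' : V := s + sm val ω + val u with hs'
    have hmk : (s' : V ⧸ K) = (s : V ⧸ K) + ((val u : V) : V ⧸ K) := by
      rw [hs', QuotientAddGroup.mk_add, QuotientAddGroup.mk_add,
        (QuotientAddGroup.eq_zero_iff (sm val ω)).2 (sm_mem val hω.mem), add_zero]
    rw [tr_cons, ← hmk] at hnd ⊢
    obtain ⟨W, hW1, hW2, hW3, hW4⟩ := ih s' u (List.nodup_cons.1 hnd).2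
    refine ⟨ω ++ u :: W, ?_, ?_, ?_, ?_⟩
    · simp only [List.length_append, List.length_cons]
      omega
    · rw [sm_append, sm_cons, sm_cons, QuotientAddGroup.mk_add, QuotientAddGroup.mk_add, hW2,
        (QuotientAddGroup.eq_zero_iff (sm val ω)).2 (sm_mem val hω.mem), zero_add]
    · have h3 := gd_append_le Gd (prev :: ω) (u :: W)
      rw [List.cons_append] at h3
      rw [List.length_cons, Nat.mul_succ]
      omega
    · intro τ hτ
      obtain ⟨h4, h5⟩ := hW4 τ hτ
      have e : s :: tr val s (ω ++ u :: W ++ τ) =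
          (s :: tr val s ω) ++ (s' :: tr val s' (W ++ τ)) := by
        rw [List.append_assoc, tr_append, List.cons_append, List.cons_append, tr_cons]
      rw [e]
      constructor
      · rw [List.nodup_append]
        refine ⟨h1, h4, ?_⟩
        intro a ha b hb hab
        subst hab
        have h6 := h2 a ha
        have h7 := h5 a hb
        rw [h6] at h7
        exact (List.nodup_cons.1 hnd).1 h7
      · intro z hz
        rcases List.mem_append.1 hz with hz | hz
        · rw [h2 z hz]
          exact List.mem_cons_self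
        · exact List.mem_cons_of_mem _ (h5 z hz)

/-- closed words: `w` followed by `c` -/
structure Cw (val : E → V) (w : List E) (c : E) : Prop where
  nd : (0 :: tr val 0 w).Nodup
  cl : sm val w + val c = 0

theorem closing {K : AddSubgroup V} (hK : K ≠ ⊤) {g : ℕ}
    (hgen : AddSubgroup.closure (Set.range val) = ⊤) (hsym : ∀ e, ∃ e', val e' = -val e)
    (hb : ∀ prev : E, ∃ ω : List E, Kp val K ω ∧ g ≤ gd Gd (prev :: ω))
    (hw : ∀ k ∈ K, ∃ τ : List E, Kp val K τ ∧ sm val τ = k) :
    ∃ (w : List E) (c : E), Cw val w c ∧ g * (Nat.card (V ⧸ K) - 1) ≤ gd Gd (c :: (w ++ [c])) ∧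
      Nat.card (V ⧸ K) ≤ w.length + 1 := by
  have hQ : 2 ≤ Nat.card (V ⧸ K) := by
    have h1 : Nat.card (V ⧸ K) ≠ 1 := by
      intro h
      exact hK (AddSubgroup.index_eq_one.1 h)
    have h2 : 0 < Nat.card (V ⧸ K) := Nat.card_pos
    omega
  have hgen' : AddSubgroup.closure (Set.range (fun c : E => ((val c : V) : V ⧸ K))) = ⊤ := by
    have h1 : Set.range (fun c : E => ((val c : V) : V ⧸ K)) =
        (QuotientAddGroup.mk' K) '' (Set.range val) := by
      rw [← Set.range_comp]
      rfl
    rw [h1, ← AddMonoidHom.map_closure, hgen, ← AddMonoidHom.range_eq_map]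
    exact AddMonoidHom.range_eq_top.2 (QuotientAddGroup.mk'_surjective K)
  obtain ⟨us, u, h1, h2, h3⟩ := hc (fun c : E => ((val c : V) : V ⧸ K)) hgen' (by
    intro e
    obtain ⟨e', he'⟩ := hsym e
    exact ⟨e', by rw [he']; rfl⟩) hQ
  obtain ⟨W, hW1, hW2, hW3, hW4⟩ := blocks val Gd hb us 0 u (by simpa using h1)
  have h5 : -(sm val W + val u) ∈ K := by
    apply K.neg_mem
    rw [← QuotientAddGroup.eq_zero_iff, QuotientAddGroup.mk_add, hW2]
    exact h3
  obtain ⟨τ, hτ1, hτ2⟩ := hw _ h5
  obtain ⟨h6, -⟩ := hW4 τ hτ1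
  refine ⟨W ++ τ, u, ⟨h6, ?_⟩, ?_, ?_⟩
  · rw [sm_append, hτ2]
    abel
  · have h7 : us.length = Nat.card (V ⧸ K) - 1 := by omega
    rw [← h7]
    refine hW3.trans ?_
    have e : u :: (W ++ τ ++ [u]) = (u :: W) ++ (τ ++ [u]) := by simp
    rw [e]
    exact gd_le_append_right Gd _ _
  · rw [List.length_append]
    omega

end

end Pool.Agent.J4H54.LC
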